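import Mathlib.Tactic.FieldSimp
import Mathlib.Algebra.Notation.Lemmas
import Mathlib.Tactic.SuppressCompilation
import Mathlib.Algebra.Field.ZMod
import Mathlib.Algebra.Group.ForwardDiff
import Mathlib.Data.Int.ConditionallyCompleteOrder
import Mathlib.Data.Int.Star
import Mathlib.Algebra.Order.Ring.Star
import Mathlib.Algebra.Ring.IsFormallyReal
import Mathlib.Data.Rat.Star

-- ======== part 0: formerly Pool.Agent.MP_f00251_lc.H81.Lattice
section MrgPart0

/-!
Monotone lattice paths staying inside a given set of points.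
-/

set_option autoImplicit false
set_option linter.unusedSectionVars false
set_option linter.unusedVariables false

namespace Pool.Agent.MP_f00251_lc.H81

open Finset Function

variable {C : Type} [DecidableEq C]

/-- One step in direction `c`. -/
def bump (k : C → ℕ) (c : C) : C → ℕ := update k c (k c + 1)

@[simp] theorem bump_self (k : C → ℕ) (c : C) : bump k c c = k c + 1 := by simp [bump]

theorem bump_ne (k : C → ℕ) {c d : C} (h : d ≠ c) : bump k c d = k d := by simp [bump, h]

theorem bump_apply (k : C → ℕ) (c d : C) : bump k c d = if d = c then k d + 1 else k d := by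
  split_ifs with h
  · subst h; simp
  · exact bump_ne k h

theorem le_bump (k : C → ℕ) (c d : C) : k d ≤ bump k c d := by
  rw [bump_apply]; split_ifs <;> omega

theorem bump_comm (k : C → ℕ) (c d : C) : bump (bump k c) d = bump (bump k d) c := by
  funext e; simp only [bump_apply]; split_ifs <;> rfl

theorem bump_update (k : C → ℕ) {c x : C} (h : c ≠ x) (j : ℕ) :
    bump (update k x j) c = update (bump k c) x j := by
  funext e
  by_cases h1 : e = x
  · subst h1; simp [bump_ne _ h.symm]
  · simp [bump_apply, h1]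

theorem bump_update_self (k : C → ℕ) (x : C) (j : ℕ) :
    bump (update k x j) x = update k x (j + 1) := by
  simp [bump]

theorem sum_bump {S : Finset C} (k : C → ℕ) (c : C) :
    ∑ d ∈ S, bump k c d = ∑ d ∈ S, k d + if c ∈ S then 1 else 0 := by
  have : ∀ d, bump k c d = k d + if d = c then 1 else 0 := by
    intro d; rw [bump_apply]; split_ifs <;> rfl
  simp only [this, sum_add_distrib, sum_ite_eq']

/-- Number of remaining steps. -/
def rem (S : Finset C) (m k : C → ℕ) : ℕ := ∑ c ∈ S, (m c - k c)

/-- Directions in which a step is still possible. -/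
def av (S : Finset C) (m k : C → ℕ) : Finset C := S.filter fun c => k c < m c

theorem mem_av {S : Finset C} {m k : C → ℕ} {c : C} : c ∈ av S m k ↔ c ∈ S ∧ k c < m c :=
  mem_filter

theorem rem_bump {S : Finset C} {m k : C → ℕ} {c : C} (hc : c ∈ av S m k) :
    rem S m (bump k c) + 1 = rem S m k := by
  obtain ⟨h1, h2⟩ := mem_av.1 hc
  unfold rem
  rw [← add_sum_erase S _ h1, ← add_sum_erase S _ h1, bump_self,
    sum_congr rfl (fun d hd => by rw [bump_ne k (ne_of_mem_erase hd)])]
  omega

theorem rem_bump_out {S : Finset C} (m k : C → ℕ) {c : C} (hc : c ∉ S) :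
    rem S m (bump k c) = rem S m k :=
  sum_congr rfl fun d hd => by rw [bump_ne k (ne_of_mem_of_not_mem hd hc)]

theorem rem_eq_zero {S : Finset C} {m k : C → ℕ} : rem S m k = 0 ↔ ∀ c ∈ S, m c ≤ k c := by
  simp [rem, sum_eq_zero_iff, Nat.sub_eq_zero_iff_le]

theorem av_eq_empty {S : Finset C} {m k : C → ℕ} : av S m k = ∅ ↔ rem S m k = 0 := by
  simp [rem_eq_zero, av, filter_eq_empty_iff]

theorem rem_ind {S : Finset C} {m : C → ℕ} {P : (C → ℕ) → Prop}
    (h : ∀ k, (∀ c ∈ av S m k, P (bump k c)) → P k) (k : C → ℕ) : P k := by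
  induction hn : rem S m k using Nat.strong_induction_on generalizing k with
  | _ n ih => exact h k fun c hc => ih _ (by have := rem_bump hc; omega) _ rfl

open Classical in
/-- Paths with a given number of steps. -/
noncomputable def pth (S : Finset C) (Ψ : (C → ℕ) → Prop) (m : C → ℕ) : ℕ → (C → ℕ) → ℕ
  | 0, k => if Ψ k then 1 else 0
  | n + 1, k => if Ψ k then ∑ c ∈ av S m k, pth S Ψ m n (bump k c) else 0

/-- Number of monotone paths from `k` reaching `m` on `S`, moving in directions of `S` and
staying in `Ψ`. -/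
noncomputable def paths (S : Finset C) (Ψ : (C → ℕ) → Prop) (m k : C → ℕ) : ℕ :=
  pth S Ψ m (rem S m k) k

open Classical in
theorem paths_eq (S : Finset C) (Ψ : (C → ℕ) → Prop) (m k : C → ℕ) :
    paths S Ψ m k = if Ψ k then (if rem S m k = 0 then 1 else 0) +
      ∑ c ∈ av S m k, paths S Ψ m (bump k c) else 0 := by
  unfold paths
  rcases hn : rem S m k with _ | n
  · rw [av_eq_empty.2 hn]; simp [pth]
  · simp only [pth, Nat.succ_ne_zero, if_false, zero_add]
    congr 1
    refine sum_congr rfl fun c hc => ?_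
    have := rem_bump hc
    congr 1; omega

theorem paths_neg {S : Finset C} {Ψ : (C → ℕ) → Prop} {m k : C → ℕ} (h : ¬ Ψ k) :
    paths S Ψ m k = 0 := by rw [paths_eq, if_neg h]

theorem paths_pos {S : Finset C} {Ψ : (C → ℕ) → Prop} {m k : C → ℕ} (h : Ψ k) :
    paths S Ψ m k = (if rem S m k = 0 then 1 else 0) +
      ∑ c ∈ av S m k, paths S Ψ m (bump k c) := by rw [paths_eq, if_pos h]

theorem paths_step {S : Finset C} {Ψ : (C → ℕ) → Prop} {m k : C → ℕ} (h : Ψ k)
    (h0 : rem S m k ≠ 0) : paths S Ψ m k = ∑ c ∈ av S m k, paths S Ψ m (bump k c) := by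
  rw [paths_pos h, if_neg h0, zero_add]

theorem paths_done {S : Finset C} {Ψ : (C → ℕ) → Prop} {m k : C → ℕ} (h : Ψ k)
    (h0 : rem S m k = 0) : paths S Ψ m k = 1 := by
  rw [paths_pos h, if_pos h0, av_eq_empty.2 h0]; simp

theorem paths_congr {S : Finset C} {Ψ Ψ' : (C → ℕ) → Prop} {m : C → ℕ} (I : (C → ℕ) → Prop)
    (hI : ∀ k, I k → Ψ k → ∀ c ∈ av S m k, I (bump k c)) (h : ∀ k, I k → (Ψ k ↔ Ψ' k))
    (k : C → ℕ) : I k → paths S Ψ m k = paths S Ψ' m k := by
  induction k using rem_ind (S := S) (m := m) with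
  | h k ih =>
    intro hk
    by_cases hΨ : Ψ k
    · rw [paths_pos hΨ, paths_pos ((h k hk).1 hΨ)]
      congr 1
      exact sum_congr rfl fun c hc => ih c hc (hI k hk hΨ c hc)
    · rw [paths_neg hΨ, paths_neg (fun h' => hΨ ((h k hk).2 h'))]

theorem paths_inv {S : Finset C} {Ψ : (C → ℕ) → Prop} {m : C → ℕ} (J : (C → ℕ) → Prop)
    (hJ : ∀ k, J k → Ψ k → ∀ c ∈ av S m k, Ψ (bump k c) → J (bump k c))
    (k : C → ℕ) (hk : J k) : paths S Ψ m k = paths S (fun k => Ψ k ∧ J k) m k :=
  paths_congr (fun k => Ψ k → J k) (fun k h1 h2 c hc => hJ k (h1 h2) h2 c hc)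
    (fun k h => ⟨fun h' => ⟨h', h h'⟩, fun h' => h'.1⟩) k (fun _ => hk)

theorem paths_dead {S : Finset C} {Ψ : (C → ℕ) → Prop} {m : C → ℕ} (B : (C → ℕ) → Prop)
    (hB : ∀ k, B k → Ψ k → ∀ c ∈ av S m k, Ψ (bump k c) → B (bump k c))
    (h0 : ∀ k, B k → Ψ k → rem S m k ≠ 0) (k : C → ℕ) : B k → paths S Ψ m k = 0 := by
  induction k using rem_ind (S := S) (m := m) with
  | h k ih =>
    intro hk
    by_cases hΨ : Ψ k
    · rw [paths_step hΨ (h0 k hk hΨ)]
      refine sum_eq_zero fun c hc => ?_
      by_cases h1 : Ψ (bump k c)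
      · exact ih c hc (hB k hk hΨ c hc h1)
      · exact paths_neg h1
    · exact paths_neg hΨ

theorem paths_prune {S : Finset C} {Ψ : (C → ℕ) → Prop} {m : C → ℕ} (B : (C → ℕ) → Prop)
    (hB : ∀ k, B k → paths S Ψ m k = 0) (k : C → ℕ) :
    paths S Ψ m k = paths S (fun k => Ψ k ∧ ¬ B k) m k := by
  induction k using rem_ind (S := S) (m := m) with
  | h k ih =>
    by_cases h1 : B k
    · rw [hB k h1, paths_neg (fun h => h.2 h1)]
    · by_cases hΨ : Ψ k
      · rw [paths_pos hΨ, paths_pos (Ψ := fun k => Ψ k ∧ ¬ B k) ⟨hΨ, h1⟩, sum_congr rfl ih]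
      · rw [paths_neg hΨ, paths_neg (fun h => hΨ h.1)]

theorem paths_agree {S : Finset C} {Ψ Ψ' : (C → ℕ) → Prop} {m m' : C → ℕ}
    (R : (C → ℕ) → (C → ℕ) → Prop) (hm : ∀ c ∈ S, m c = m' c)
    (h1 : ∀ k k', R k k' → ∀ c ∈ S, k c = k' c) (h2 : ∀ k k', R k k' → (Ψ k ↔ Ψ' k'))
    (h3 : ∀ k k', R k k' → ∀ c ∈ S, R (bump k c) (bump k' c)) (k : C → ℕ) :
    ∀ k', R k k' → paths S Ψ m k = paths S Ψ' m' k' := by
  induction k using rem_ind (S := S) (m := m) with
  | h k ih =>
    intro k' hR
    have hr : rem S m k = rem S m' k' := sum_congr rfl fun c hc => by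
      rw [hm c hc, h1 k k' hR c hc]
    have ha : av S m k = av S m' k' := filter_congr fun c hc => by
      rw [hm c hc, h1 k k' hR c hc]
    by_cases hΨ : Ψ k
    · rw [paths_pos hΨ, paths_pos ((h2 k k' hR).1 hΨ), hr, ← ha]
      congr 1
      exact sum_congr rfl fun c hc => ih c hc _ (h3 k k' hR c (mem_av.1 hc).1)
    · rw [paths_neg hΨ, paths_neg (fun h' => hΨ ((h2 k k' hR).2 h'))]

theorem paths_bump_out {S : Finset C} {Ψ : (C → ℕ) → Prop} (m : C → ℕ) {c : C} (hc : c ∉ S)
    (h : ∀ k, Ψ (bump k c) ↔ Ψ k) (k : C → ℕ) : paths S Ψ m (bump k c) = paths S Ψ m k :=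
  paths_agree (fun k k' => k = bump k' c) (fun _ _ => rfl)
    (fun k k' hR d hd => by rw [hR, bump_ne _ (ne_of_mem_of_not_mem hd hc)])
    (fun k k' hR => by rw [hR, h]) (fun k k' hR d _ => by rw [hR, bump_comm]) _ _ rfl

/-- Sequential decomposition. -/
theorem paths_seq {S S' : Finset C} (hS : S' ⊆ S) {Ψ Ψ' : (C → ℕ) → Prop} {m : C → ℕ} (G : ℕ)
    (I : (C → ℕ) → Prop) (hI : ∀ k, I k → ∀ c ∈ av S' m k, I (bump k c))
    (h1 : ∀ k, I k → rem S' m k ≠ 0 → (Ψ k ↔ Ψ' k))
    (h2 : ∀ k, I k → rem S' m k ≠ 0 → ∀ c ∈ av S m k, c ∉ S' → paths S Ψ m (bump k c) = 0)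
    (h3 : ∀ k, I k → rem S' m k = 0 → Ψ' k → paths S Ψ m k = G)
    (h4 : ∀ k, I k → rem S' m k = 0 → ¬ Ψ' k → paths S Ψ m k = 0) (k : C → ℕ) :
    I k → paths S Ψ m k = paths S' Ψ' m k * G := by
  induction k using rem_ind (S := S') (m := m) with
  | h k ih =>
    intro hk
    by_cases h0 : rem S' m k = 0
    · by_cases hΨ : Ψ' k
      · rw [h3 k hk h0 hΨ, paths_done hΨ h0, one_mul]
      · rw [h4 k hk h0 hΨ, paths_neg hΨ, zero_mul]
    · by_cases hΨ : Ψ k
      · have h0' : rem S m k ≠ 0 := fun h => h0 (rem_eq_zero.2 fun c hc =>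
          rem_eq_zero.1 h c (hS hc))
        rw [paths_step hΨ h0', paths_step ((h1 k hk h0).1 hΨ) h0, sum_mul,
          ← sum_congr rfl (fun c hc => ih c hc (hI k hk c hc))]
        symm
        refine sum_subset (filter_subset_filter _ hS) fun c hc hc' => h2 k hk h0 c hc fun h =>
          hc' (mem_av.2 ⟨h, (mem_av.1 hc).2⟩)
      · rw [paths_neg hΨ, paths_neg (fun h => hΨ ((h1 k hk h0).2 h)), zero_mul]

theorem paths_free {S : Finset C} {Ψ : (C → ℕ) → Prop} {m : C → ℕ} (I : (C → ℕ) → Prop)
    (hI : ∀ k, I k → ∀ c ∈ av S m k, I (bump k c)) (h : ∀ k, I k → Ψ k)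
    (h1 : ∀ k, I k → ∀ c ∈ S, m c ≤ k c + 1) (k : C → ℕ) :
    I k → paths S Ψ m k = (rem S m k).factorial := by
  induction k using rem_ind (S := S) (m := m) with
  | h k ih =>
    intro hk
    rcases hn : rem S m k with _ | n
    · rw [paths_done (h k hk) hn]; rfl
    · rw [paths_step (h k hk) (by omega), sum_congr rfl (g := fun _ => n.factorial)]
      · have : (av S m k).card = n + 1 := by
          rw [← hn, rem, av, card_filter]
          refine sum_congr rfl fun c hc => ?_
          have := h1 k hk c hc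
          split_ifs <;> omega
        rw [sum_const, this, Nat.factorial_succ, smul_eq_mul]
      · intro c hc
        rw [ih c hc (hI k hk c hc)]
        have := rem_bump hc
        congr 1; omega

/-- Shuffle product of independent blocks. -/
theorem paths_shuffle {G : Type} [DecidableEq G] (Γ : Finset G) (blk : G → Finset C)
    (hd : ∀ γ ∈ Γ, ∀ δ ∈ Γ, γ ≠ δ → Disjoint (blk γ) (blk δ)) {Ψ : (C → ℕ) → Prop}
    (Φ : G → (C → ℕ) → Prop) (m : C → ℕ) (I : (C → ℕ) → Prop)
    (hI : ∀ k, I k → ∀ c ∈ av (Γ.biUnion blk) m k, I (bump k c))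
    (h : ∀ k, I k → (Ψ k ↔ ∀ γ ∈ Γ, Φ γ k))
    (hΦ : ∀ γ ∈ Γ, ∀ c ∈ Γ.biUnion blk, c ∉ blk γ → ∀ k, Φ γ (bump k c) ↔ Φ γ k) (k : C → ℕ) :
    I k → (paths (Γ.biUnion blk) Ψ m k : ℚ) = (rem (Γ.biUnion blk) m k).factorial *
      ∏ γ ∈ Γ, ((paths (blk γ) (Φ γ) m k : ℚ) / (rem (blk γ) m k).factorial) := by
  have hpd : (Γ : Set G).PairwiseDisjoint blk := fun γ hγ δ hδ hne => hd γ hγ δ hδ hne
  have hrem : ∀ k, rem (Γ.biUnion blk) m k = ∑ γ ∈ Γ, rem (blk γ) m k :=
    fun k => sum_biUnion hpd
  induction k using rem_ind (S := Γ.biUnion blk) (m := m) with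
  | h k ih =>
    intro hk
    by_cases hΨ : Ψ k
    · have hall := (h k hk).1 hΨ
      rcases hn : rem (Γ.biUnion blk) m k with _ | n
      · rw [paths_done hΨ hn]
        have h0 : ∀ γ ∈ Γ, rem (blk γ) m k = 0 := by
          rw [hrem, sum_eq_zero_iff] at hn; exact hn
        rw [prod_congr rfl (g := fun _ => 1)]
        · simp
        · intro γ hγ; rw [paths_done (hall γ hγ) (h0 γ hγ), h0 γ hγ]; simp
      · rw [paths_step hΨ (by omega)]
        have hav : av (Γ.biUnion blk) m k = Γ.biUnion fun γ => av (blk γ) m k := by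
          ext c; simp only [mem_av, mem_biUnion]; tauto
        have hpd' : (Γ : Set G).PairwiseDisjoint fun γ => av (blk γ) m k :=
          fun γ hγ δ hδ hne => (hd γ hγ δ hδ hne).mono (filter_subset _ _) (filter_subset _ _)
        set X : ℚ := ∏ γ ∈ Γ, ((paths (blk γ) (Φ γ) m k : ℚ) / (rem (blk γ) m k).factorial)
          with hX
        have key : ∀ γ ∈ Γ, ∑ c ∈ av (blk γ) m k, (paths (Γ.biUnion blk) Ψ m (bump k c) : ℚ)
            = n.factorial * (rem (blk γ) m k) * X := by
          intro γ hγ
          have hc' : ∀ c ∈ av (blk γ) m k, c ∈ av (Γ.biUnion blk) m k := fun c hc =>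
            mem_av.2 ⟨mem_biUnion.2 ⟨γ, hγ, (mem_av.1 hc).1⟩, (mem_av.1 hc).2⟩
          rcases hr : rem (blk γ) m k with _ | r
          · rw [av_eq_empty.2 hr]; simp
          have e : ∀ c ∈ av (blk γ) m k, (paths (Γ.biUnion blk) Ψ m (bump k c) : ℚ)
              = (paths (blk γ) (Φ γ) m (bump k c) : ℚ) * (n.factorial / r.factorial *
              ∏ δ ∈ Γ.erase γ, ((paths (blk δ) (Φ δ) m k : ℚ) / (rem (blk δ) m k).factorial)) := by
            intro c hc
            rw [ih c (hc' c hc) (hI k hk c (hc' c hc)), ← mul_prod_erase Γ _ hγ]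
            have e1 : rem (Γ.biUnion blk) m (bump k c) = n := by
              have := rem_bump (hc' c hc); omega
            have e2 : rem (blk γ) m (bump k c) = r := by have := rem_bump hc; omega
            rw [e1, e2, prod_congr rfl (g := fun δ =>
              ((paths (blk δ) (Φ δ) m k : ℚ) / (rem (blk δ) m k).factorial))]
            · ring
            · intro δ hδ
              have hcδ : c ∉ blk δ := disjoint_left.1
                (hd γ hγ δ (mem_of_mem_erase hδ) (ne_of_mem_erase hδ).symm) (mem_av.1 hc).1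
              rw [rem_bump_out m k hcδ, paths_bump_out m hcδ
                (hΦ δ (mem_of_mem_erase hδ) c (mem_av.1 (hc' c hc)).1 hcδ)]
          rw [sum_congr rfl e, ← sum_mul, ← Nat.cast_sum,
            ← paths_step (hall γ hγ) (by omega), hX, ← mul_prod_erase Γ _ hγ, hr,
            Nat.factorial_succ]
          have : (r.factorial : ℚ) ≠ 0 := by positivity
          push_cast
          field_simp
        rw [hav, sum_biUnion hpd', Nat.cast_sum]
        simp only [Nat.cast_sum]
        rw [sum_congr rfl key, ← sum_mul, ← mul_sum, ← Nat.cast_sum, ← hrem, hn,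
          Nat.factorial_succ]
        push_cast
        ring
    · rw [paths_neg hΨ]
      have : ∃ γ ∈ Γ, ¬ Φ γ k := by
        by_contra hc
        push Not at hc
        exact hΨ ((h k hk).2 hc)
      obtain ⟨γ, hγ, h1⟩ := this
      rw [prod_eq_zero hγ (by rw [paths_neg h1]; simp)]
      simp

/-- Existence of paths. -/
def Step (S : Finset C) (Ψ : (C → ℕ) → Prop) (m : C → ℕ) (k k' : C → ℕ) : Prop :=
  Ψ k ∧ ∃ c ∈ av S m k, k' = bump k c

theorem paths_pos_of_reach {S : Finset C} {Ψ : (C → ℕ) → Prop} {m k k' : C → ℕ}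
    (h : Relation.ReflTransGen (Step S Ψ m) k k') (h' : 0 < paths S Ψ m k') :
    0 < paths S Ψ m k := by
  induction h using Relation.ReflTransGen.head_induction_on with
  | refl => exact h'
  | head hab _ ih =>
    obtain ⟨h1, c, hc, rfl⟩ := hab
    rw [paths_pos h1]
    exact lt_of_lt_of_le ih ((single_le_sum (f := fun c => paths S Ψ m (bump _ c))
      (fun _ _ => Nat.zero_le _) hc).trans (Nat.le_add_left _ _))

end Pool.Agent.MP_f00251_lc.H81

end MrgPart0

-- ======== part 1: formerly Pool.Agent.MP_f00251_lc.H81.Nil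
section MrgPart1

/-!
Integer sequences killed by an iterated forward difference.
-/

set_option autoImplicit false

namespace Pool.Agent.MP_f00251_lc.H81

open Finset

/-- Iterated forward difference. -/
def Dl (s : ℕ) (f : ℕ → ℤ) : ℕ → ℤ := (fwdDiff 1)^[s] f

theorem Dl_succ (s : ℕ) (f : ℕ → ℤ) : Dl (s + 1) f = Dl s (fun n => f (n + 1) - f n) := rfl

theorem Dl_succ' (s : ℕ) (f : ℕ → ℤ) (n : ℕ) : Dl (s + 1) f n = Dl s f (n + 1) - Dl s f n := by
  unfold Dl; rw [Function.iterate_succ_apply']; rfl

theorem Dl_add (s : ℕ) (f g : ℕ → ℤ) (n : ℕ) :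
    Dl s (fun n => f n + g n) n = Dl s f n + Dl s g n :=
  congrFun (fwdDiff_iter_add 1 f g s) n

theorem Dl_mul (s : ℕ) (f : ℕ → ℤ) (c : ℤ) (n : ℕ) :
    Dl s (fun n => f n * c) n = Dl s f n * c := by
  induction s generalizing n with
  | zero => rfl
  | succ s ih => rw [Dl_succ', Dl_succ', ih, ih]; ring

theorem Dl_zero (s n : ℕ) : Dl s (fun _ => 0) n = 0 := by
  simpa using Dl_mul s (fun _ => 0) 0 n

theorem Dl_sum {ι : Type} (s : ℕ) (T : Finset ι) (f : ι → ℕ → ℤ) (n : ℕ) :
    Dl s (fun n => ∑ i ∈ T, f i n) n = ∑ i ∈ T, Dl s (f i) n := by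
  classical
  induction T using Finset.induction_on with
  | empty => simpa using Dl_zero s n
  | insert a T ha ih => simp only [sum_insert ha]; rw [Dl_add, ih]

theorem Dl_shift (s : ℕ) (f : ℕ → ℤ) (n : ℕ) : Dl s (fun n => f (n + 1)) n = Dl s f (n + 1) :=
  fwdDiff_iter_comp_add 1 f 1 s n

theorem Dl_formula (s : ℕ) (f : ℕ → ℤ) :
    Dl s f 0 = ∑ j ∈ range (s + 1), (-1) ^ (s + j) * (s.choose j : ℤ) * f j := by
  unfold Dl
  rw [fwdDiff_iter_eq_sum_shift]
  refine sum_congr rfl fun j hj => ?_
  have hj' : j ≤ s := by simpa [Nat.lt_succ_iff] using hj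
  obtain ⟨d, rfl⟩ := Nat.exists_eq_add_of_le hj'
  have : (-1 : ℤ) ^ (j + d + j) = (-1) ^ d := by
    rw [show j + d + j = d + 2 * j by ring, pow_add, pow_mul]; simp
  simp [this]

theorem Dl_choose (a s t n : ℕ) (h : a ≤ s) :
    Dl s (fun r => ((r + t).choose a : ℤ)) n = if a = s then 1 else 0 := by
  induction a generalizing s t n with
  | zero =>
    rcases s with _ | s
    · simp [Dl]
    · rw [Dl_succ]; simp [Dl_zero]
  | succ a ih =>
    obtain ⟨s, rfl⟩ : ∃ s', s = s' + 1 := ⟨s - 1, by omega⟩
    rw [Dl_succ]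
    have : (fun n => (((n + 1 + t).choose (a + 1) : ℕ) : ℤ) - ((n + t).choose (a + 1) : ℕ))
        = fun r => ((r + t).choose a : ℤ) := by
      funext n
      rw [show n + 1 + t = n + t + 1 by ring, Nat.choose_succ_succ']
      push_cast; ring
    rw [this, ih s t n (by omega)]
    simp

/-- The sequence is killed by the difference of order `D`. -/
def Nil (D : ℕ) (f : ℕ → ℤ) : Prop := ∀ n, Dl D f n = 0

namespace Nil

variable {D : ℕ} {f g : ℕ → ℤ}

theorem congr (h : Nil D f) (e : ∀ n, f n = g n) : Nil D g := by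
  rw [← funext e]; exact h

theorem succ (h : Nil D f) : Nil (D + 1) f := fun n => by rw [Dl_succ', h, h]; rfl

theorem mono {D' : ℕ} (h : Nil D f) (hD : D ≤ D') : Nil D' f := by
  induction hD with
  | refl => exact h
  | step _ ih => exact ih.succ

theorem zero (D : ℕ) : Nil D (fun _ => 0) := fun n => Dl_zero D n

theorem add (h : Nil D f) (h' : Nil D g) : Nil D (fun n => f n + g n) := fun n => by
  rw [Dl_add, h, h']; rfl

theorem sum {ι : Type} {T : Finset ι} {F : ι → ℕ → ℤ} (h : ∀ i ∈ T, Nil D (F i)) :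
    Nil D (fun n => ∑ i ∈ T, F i n) := fun n => by
  rw [Dl_sum]; exact sum_eq_zero fun i hi => h i hi n

theorem shift (h : Nil D f) : Nil D (fun n => f (n + 1)) := fun n => by rw [Dl_shift, h]

theorem of_diff (h : Nil D g) (e : ∀ n, f (n + 1) = f n + g n) : Nil (D + 1) f := by
  intro n
  rw [Dl_succ]
  exact (h.congr fun n => by rw [e]; ring) n

theorem const (c : ℤ) : Nil 1 (fun _ => c) := (zero 0).of_diff fun _ => by simp

theorem mul {a b : ℕ} (h : Nil a f) (h' : Nil b g) : Nil (a + b) (fun n => f n * g n) := by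
  induction hN : a + b generalizing a b f g with
  | zero =>
    obtain rfl : a = 0 := by omega
    intro n
    change f n * g n = 0
    rw [show f n = 0 from h n, zero_mul]
  | succ N ih =>
    rcases a with _ | a
    · exact (zero _).congr fun n => by rw [show f n = 0 from h n, zero_mul]
    rcases b with _ | b
    · exact (zero _).congr fun n => by rw [show g n = 0 from h' n, mul_zero]
    have h1 : Nil a (fun n => f (n + 1) - f n) := h
    have h2 : Nil b (fun n => g (n + 1) - g n) := h'
    refine ((ih h1 h'.shift (by omega)).add (ih h h2 (by omega))).of_diff fun n => ?_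
    ring

theorem prod {ι : Type} {T : Finset ι} {F : ι → ℕ → ℤ} (h : ∀ i ∈ T, Nil D (F i)) :
    Nil (D * T.card + 1) (fun n => ∏ i ∈ T, F i n) := by
  classical
  induction T using Finset.induction_on with
  | empty => simpa using const 1
  | insert a T ha ih =>
    simp only [prod_insert ha, card_insert_of_notMem ha]
    exact ((h a (mem_insert_self _ _)).mul (ih fun i hi => h i (mem_insert_of_mem hi))).mono
      (le_of_eq (by ring))

theorem extrap (h : Nil (D + 1) f) :
    f 0 = ∑ j ∈ range (D + 1), (-1) ^ j * ((D + 1).choose (j + 1) : ℤ) * f (j + 1) := by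
  have := h 0
  rw [Dl_formula, sum_range_succ'] at this
  have e : ∀ j, (-1 : ℤ) ^ (D + 1 + (j + 1)) = (-1) ^ D * (-1) ^ j := by
    intro j
    rw [show D + 1 + (j + 1) = D + j + 2 by ring, pow_add, pow_add]; simp
  simp only [e, mul_assoc, ← mul_sum, Nat.choose_zero_right, add_zero, pow_succ] at this
  simp only [mul_assoc]
  have h2 : ((-1 : ℤ) ^ D) ≠ 0 := by simp
  apply mul_left_cancel₀ h2
  push_cast at this
  linarith

end Nil

/-- A value put in front of a sequence. -/
def cns (v : ℤ) (f : ℕ → ℤ) : ℕ → ℤ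
  | 0 => v
  | n + 1 => f n

@[simp] theorem cns_zero (v : ℤ) (f : ℕ → ℤ) : cns v f 0 = v := rfl

@[simp] theorem cns_succ (v : ℤ) (f : ℕ → ℤ) (n : ℕ) : cns v f (n + 1) = f n := rfl

theorem Nil.extrap_cns {D : ℕ} {v : ℤ} {f : ℕ → ℤ} (h : Nil (D + 1) (cns v f)) :
    v = ∑ j ∈ range (D + 1), (-1) ^ j * ((D + 1).choose (j + 1) : ℤ) * f j := h.extrap

end Pool.Agent.MP_f00251_lc.H81

end MrgPart1

-- ======== part 2: formerly Pool.Agent.MP_f00251_lc.H81.Ladder
section MrgPart2

/-!
Dependence of the number of paths on the multiplicity of one direction.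
-/

set_option autoImplicit false
set_option linter.unusedSectionVars false
set_option linter.unusedVariables false

namespace Pool.Agent.MP_f00251_lc.H81

open Finset Function

variable {C : Type} [DecidableEq C]

/-- The point is below the target. -/
def Le (S : Finset C) (m k : C → ℕ) : Prop := ∀ c ∈ S, k c ≤ m c

theorem Le.bump {S S' : Finset C} {m k : C → ℕ} (h : Le S m k) {c : C} (hc : c ∈ av S' m k) :
    Le S m (bump k c) := fun d hd => by
  rw [bump_apply]
  split_ifs with e
  · subst e; exact (mem_av.1 hc).2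
  · exact h d hd

theorem Le.bump_out {S : Finset C} {m k : C → ℕ} (h : Le S m k) {c : C} (hc : c ∉ S) :
    Le S m (H81.bump k c) := fun d hd => by
  rw [bump_ne _ (ne_of_mem_of_not_mem hd hc)]; exact h d hd

theorem le_zero (S : Finset C) (m : C → ℕ) : Le S m 0 := fun _ _ => Nat.zero_le _

theorem rem_bump_le (S : Finset C) (m k : C → ℕ) (c : C) : rem S m (bump k c) ≤ rem S m k :=
  sum_le_sum fun d _ => Nat.sub_le_sub_left (le_bump k c d) _

theorem rem_congr {S : Finset C} {m m' k k' : C → ℕ} (h : ∀ c ∈ S, m c = m' c)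
    (h' : ∀ c ∈ S, k c = k' c) : rem S m k = rem S m' k' :=
  sum_congr rfl fun c hc => by rw [h c hc, h' c hc]

theorem av_congr {S : Finset C} {m m' k k' : C → ℕ} (h : ∀ c ∈ S, m c = m' c)
    (h' : ∀ c ∈ S, k c = k' c) : av S m k = av S m' k' :=
  filter_congr fun c hc => by rw [h c hc, h' c hc]

theorem update_out {S : Finset C} {x : C} (hx : x ∉ S) (k : C → ℕ) (j : ℕ) :
    ∀ c ∈ S, update k x j c = k c := fun c hc => update_of_ne (ne_of_mem_of_not_mem hc hx) _ _

theorem rem_insert {S : Finset C} {x : C} (hx : x ∉ S) (m k : C → ℕ) :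
    rem (insert x S) m k = m x - k x + rem S m k := sum_insert hx

theorem sum_av_insert {M : Type} [AddCommMonoid M] {S : Finset C} {x : C} (hx : x ∉ S)
    (m k : C → ℕ) (f : C → M) :
    ∑ c ∈ av (insert x S) m k, f c = (if k x < m x then f x else 0) + ∑ c ∈ av S m k, f c := by
  unfold av
  rw [filter_insert]
  split_ifs with h
  · rw [sum_insert (fun h' => hx (mem_filter.1 h').1)]
  · rw [zero_add]

theorem paths_insert_full {S : Finset C} {x : C} (hx : x ∉ S) (Ψ : (C → ℕ) → Prop) (m : C → ℕ)
    (k : C → ℕ) : m x ≤ k x → paths (insert x S) Ψ m k = paths S Ψ m k := by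
  induction k using rem_ind (S := S) (m := m) with
  | h k ih =>
    intro hk
    rw [paths_eq, paths_eq S, rem_insert hx, sum_av_insert hx, if_neg (not_lt.2 hk),
      Nat.sub_eq_zero_of_le hk, zero_add, zero_add,
      sum_congr rfl fun c hc => ih c hc (hk.trans (le_bump k c x))]

/-- Paths with `r` remaining steps in the extra direction `x`. -/
noncomputable def Z (S : Finset C) (x : C) (Ψ : (C → ℕ) → Prop) (m : C → ℕ) (j r : ℕ)
    (k : C → ℕ) : ℕ := paths (insert x S) Ψ (update m x (j + r)) (update k x j)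

section ladder

variable {S : Finset C} {x : C} (hx : x ∉ S) {Ψ : (C → ℕ) → Prop} {m : C → ℕ}

theorem Z_neg {j : ℕ} {k : C → ℕ} (h : ¬ Ψ (update k x j)) (r : ℕ) : Z S x Ψ m j r k = 0 :=
  paths_neg h

include hx

theorem Z_aux (j r : ℕ) (k : C → ℕ) (h : Ψ (update k x j)) :
    Z S x Ψ m j r k = (if r + rem S m k = 0 then 1 else 0) +
      ((if 0 < r then Z S x Ψ m (j + 1) (r - 1) k else 0) +
        ∑ c ∈ av S m k, Z S x Ψ m j r (bump k c)) := by
  unfold Z
  rw [paths_pos h, rem_insert hx, sum_av_insert hx, rem_congr (update_out hx m _)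
    (update_out hx k _), av_congr (update_out hx m _) (update_out hx k _)]
  simp only [update_self, Nat.add_sub_cancel_left, lt_add_iff_pos_right, bump_update_self]
  congr 2
  · split_ifs with h1
    · rw [show j + 1 + (r - 1) = j + r by omega]
    · rfl
  · exact sum_congr rfl fun c hc => by
      rw [bump_update _ (ne_of_mem_of_not_mem (mem_av.1 hc).1 hx)]

theorem Z_succ (j r : ℕ) (k : C → ℕ) (h : Ψ (update k x j)) :
    Z S x Ψ m j (r + 1) k = Z S x Ψ m (j + 1) r k +
      ∑ c ∈ av S m k, Z S x Ψ m j (r + 1) (bump k c) := by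
  rw [Z_aux hx j (r + 1) k h]; simp

theorem Z_zero (j : ℕ) (k : C → ℕ) :
    Z S x Ψ m j 0 k = paths S (fun k => Ψ (update k x j)) m k := by
  induction k using rem_ind (S := S) (m := m) with
  | h k ih =>
    by_cases h : Ψ (update k x j)
    · rw [Z_aux hx j 0 k h, paths_pos (Ψ := fun k => Ψ (update k x j)) h, sum_congr rfl ih]
      simp
    · rw [Z_neg h, paths_neg (Ψ := fun k => Ψ (update k x j)) h]

variable (hp : ∀ k j, Ψ (update k x (j + 2)) ↔ Ψ (update k x j))
include hp

theorem Z_shift (r : ℕ) : ∀ (k : C → ℕ) (j : ℕ), Z S x Ψ m (j + 2) r k = Z S x Ψ m j r k := by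
  induction r with
  | zero => intro k j; rw [Z_zero hx, Z_zero hx]; simp only [hp]
  | succ r ihr =>
    intro k
    induction k using rem_ind (S := S) (m := m) with
    | h k ih =>
      intro j
      by_cases h : Ψ (update k x j)
      · rw [Z_succ hx j r k h, Z_succ hx (j + 2) r k ((hp k j).2 h),
          sum_congr rfl fun c hc => ih c hc j, show j + 2 + 1 = j + 1 + 2 by ring, ihr]
      · rw [Z_neg h, Z_neg (fun h' => h ((hp k j).1 h'))]

theorem Z_two (j r : ℕ) (k : C → ℕ) (h : Ψ (update k x j)) (h' : Ψ (update k x (j + 1))) :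
    (Z S x Ψ m j (r + 2) k : ℤ) = Z S x Ψ m j r k +
      ∑ c ∈ av S m k, ((Z S x Ψ m (j + 1) (r + 1) (bump k c) : ℤ) +
        Z S x Ψ m j (r + 2) (bump k c)) := by
  rw [Z_succ hx j (r + 1) k h, Z_succ hx (j + 1) r k h', Z_shift hx hp, sum_add_distrib]
  push_cast; ring

omit hp in
theorem Z_one (j r : ℕ) (k : C → ℕ) (h : Ψ (update k x j)) (h' : ¬ Ψ (update k x (j + 1))) :
    (Z S x Ψ m j (r + 1) k : ℤ) = ∑ c ∈ av S m k, (Z S x Ψ m j (r + 1) (bump k c) : ℤ) := by
  rw [Z_succ hx j r k h, Z_neg h']; simp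

theorem ladder (k : C → ℕ) : ∀ j,
    Nil (rem S m k + 1) (cns ((paths S (fun k => Ψ (update k x j)) m k : ℤ) -
      paths S (fun k => Ψ (update k x j) ∧ ¬ Ψ (update k x (j + 1))) m k)
      (fun u => Z S x Ψ m j (2 * u + 2) k)) ∧
    Nil (rem S m k + 1) (fun u => Z S x Ψ m j (2 * u + 1) k) := by
  induction k using rem_ind (S := S) (m := m) with
  | h k ih =>
    intro j
    have e : ∀ c ∈ av S m k, rem S m (bump k c) + 1 = rem S m k := fun c hc => rem_bump hc
    by_cases h : Ψ (update k x j)
    · by_cases h' : Ψ (update k x (j + 1))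
      · constructor
        · refine Nil.of_diff (Nil.sum (T := av S m k) fun c hc =>
            (e c hc ▸ (ih c hc (j + 1)).2).add (e c hc ▸ (ih c hc j).1.shift)) fun n => ?_
          rw [cns_succ, Z_two hx hp j (2 * n) k h h']
          congr 1
          rcases n with _ | n
          · rw [cns_zero, paths_neg (Ψ := fun k => Ψ (update k x j) ∧ ¬ Ψ (update k x (j + 1)))
              (fun a => a.2 h'), ← Z_zero hx]
            simp
          · rfl
        · refine Nil.of_diff (Nil.sum (T := av S m k) fun c hc =>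
            (e c hc ▸ (ih c hc (j + 1)).1.shift).add (e c hc ▸ (ih c hc j).2.shift)) fun n => ?_
          exact Z_two hx hp j (2 * n + 1) k h h'
      · constructor
        · refine (Nil.sum (T := av S m k) fun c hc =>
            (e c hc ▸ (ih c hc j).1).succ).congr fun n => ?_
          rcases n with _ | n
          · simp only [cns_zero]
            rw [paths_pos (Ψ := fun k => Ψ (update k x j) ∧ ¬ Ψ (update k x (j + 1))) ⟨h, h'⟩,
              paths_pos (Ψ := fun k => Ψ (update k x j)) h, sum_sub_distrib]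
            push_cast; ring
          · exact (Z_one hx j (2 * n + 1) k h h').symm
        · exact (Nil.sum (T := av S m k) fun c hc =>
            (e c hc ▸ (ih c hc j).2).succ).congr fun n => (Z_one hx j (2 * n) k h h').symm
    · constructor
      · refine (Nil.zero _).congr fun n => ?_
        rcases n with _ | n
        · rw [cns_zero, paths_neg (Ψ := fun k => Ψ (update k x j) ∧ ¬ Ψ (update k x (j + 1)))
            (fun a => h a.1), paths_neg (Ψ := fun k => Ψ (update k x j)) h]
          simp
        · rw [cns_succ, Z_neg h]; rfl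
      · exact (Nil.zero _).congr fun n => by rw [Z_neg h]; rfl

theorem ladder_both (k : C → ℕ) (j : ℕ) (h : Ψ (update k x j)) (h' : Ψ (update k x (j + 1))) :
    Nil (rem S m k + 1) (cns ((if rem S m k = 0 then 1 else 0) + ∑ c ∈ av S m k,
      (paths S (fun k => Ψ (update k x (j + 1)) ∧ ¬ Ψ (update k x j)) m (bump k c) : ℤ))
      (fun u => Z S x Ψ m j (2 * u + 1) k)) := by
  have e : ∀ c ∈ av S m k, rem S m (bump k c) + 1 = rem S m k := fun c hc => rem_bump hc
  refine Nil.of_diff (Nil.sum (T := av S m k) fun c hc =>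
    (e c hc ▸ (ladder hx hp (bump k c) (j + 1)).1).add
      (e c hc ▸ (ladder hx hp (bump k c) j).2)) fun n => ?_
  rcases n with _ | n
  · simp only [cns_succ, cns_zero, hp, mul_zero, zero_add]
    rw [Z_succ hx j 0 k h, Z_zero hx, paths_pos (Ψ := fun k => Ψ (update k x (j + 1))) h',
      sum_add_distrib, sum_sub_distrib]
    push_cast; ring
  · exact Z_two hx hp j (2 * n + 1) k h h'

omit hp in
theorem ladder_one (k : C → ℕ) (j D : ℕ) (v : C → ℤ) (h : Ψ (update k x j))
    (h' : ¬ Ψ (update k x (j + 1)))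
    (hv : ∀ c ∈ av S m k, Nil D (cns (v c) (fun u => Z S x Ψ m j (2 * u + 1) (bump k c)))) :
    Nil D (cns (∑ c ∈ av S m k, v c) (fun u => Z S x Ψ m j (2 * u + 1) k)) := by
  refine (Nil.sum hv).congr fun n => ?_
  rcases n with _ | n
  · rfl
  · exact (Z_one hx j (2 * n) k h h').symm

omit hp hx in
theorem ladder_none (k : C → ℕ) (j D : ℕ) (h : ¬ Ψ (update k x j)) :
    Nil D (cns 0 (fun u => Z S x Ψ m j (2 * u + 1) k)) := by
  refine (Nil.zero D).congr fun n => ?_
  rcases n with _ | n
  · rfl
  · rw [cns_succ, Z_neg h]; rfl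

end ladder

/-- A free direction. -/
theorem Z_free {S : Finset C} {x : C} (hx : x ∉ S) {Ψ Φ : (C → ℕ) → Prop} {m : C → ℕ}
    (I : (C → ℕ) → Prop) (hI : ∀ k, I k → ∀ c ∈ av S m k, I (bump k c))
    (h : ∀ k j, I k → (Ψ (update k x j) ↔ Φ k)) (r : ℕ) :
    ∀ (k : C → ℕ) (j : ℕ), I k →
      Z S x Ψ m j r k = (r + rem S m k).choose (rem S m k) * paths S Φ m k := by
  induction r with
  | zero =>
    intro k j hk
    rw [Z_zero hx, paths_congr I (fun k h1 _ => hI k h1) (fun k h1 => h k j h1) k hk]
    simp
  | succ r ihr =>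
    intro k
    induction k using rem_ind (S := S) (m := m) with
    | h k ih =>
      intro j hk
      by_cases h1 : Φ k
      · rw [Z_succ hx j r k ((h k j hk).2 h1), ihr k _ hk,
          sum_congr rfl fun c hc => ih c hc j (hI k hk c hc)]
        rcases hn : rem S m k with _ | n
        · rw [av_eq_empty.2 hn]; simp
        · rw [sum_congr rfl (g := fun c => (r + 1 + n).choose n * paths S Φ m (bump k c)),
            ← mul_sum, ← paths_step h1 (by omega), show r + 1 + (n + 1) = r + 1 + n + 1 by ring,
            Nat.choose_succ_succ', show r + (n + 1) = r + 1 + n by ring]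
          · ring
          · intro c hc
            rw [show rem S m (bump k c) = n by have := rem_bump hc; omega]
      · rw [Z_neg (fun h' => h1 ((h k j hk).1 h')), paths_neg h1, mul_zero]

theorem rem_sdiff {S A : Finset C} (hA : A ⊆ S) (m k : C → ℕ) :
    rem (S \ A) m k + rem A m k = rem S m k := sum_sdiff hA

/-- The top difference in the multiplicity of a free direction that has to wait for `A`. -/
theorem d_lemma {S A : Finset C} {d : C} (hd : d ∉ S) (hA : A ⊆ S) {Φ : (C → ℕ) → Prop}
    (hΦ : ∀ k j, Φ (update k d j) ↔ Φ k) (m : C → ℕ) (s : ℕ)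
    (hlow : ∀ k, Le S m k → Φ k → rem A m k = 0 → rem S m k ≤ s) (k : C → ℕ) :
    Le S m k → rem A m k ≠ 0 →
    Dl s (fun r => (Z S d (fun k => Φ k ∧ (0 < k d → rem A m k = 0)) m 0 (r + 1) k : ℤ)) 0 =
      paths S (fun k => Φ k ∧ (rem A m k ≠ 0 → s ≤ rem (S \ A) m k)) m k := by
  have hdA : d ∉ A := fun h => hd (hA h)
  have hr : ∀ k j, rem A m (update k d j) = rem A m k :=
    fun k j => rem_congr (fun _ _ => rfl) (update_out hdA k j)
  have hI : ∀ k, rem A m k = 0 → ∀ c, rem A m (bump k c) = 0 := fun k hk c => by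
    have := rem_bump_le A m k c; omega
  have hmain : ∀ k, (Le S m k → rem A m k ≠ 0 →
      Dl s (fun r => (Z S d (fun k => Φ k ∧ (0 < k d → rem A m k = 0)) m 0 (r + 1) k : ℤ)) 0 =
      paths S (fun k => Φ k ∧ (rem A m k ≠ 0 → s ≤ rem (S \ A) m k)) m k) := by
    intro k
    induction k using rem_ind (S := S) (m := m) with
    | h k ih =>
      intro hk hA0
      by_cases h1 : Φ k
      · have hS0 : rem S m k ≠ 0 := by have := rem_sdiff hA m k; omega
        have e1 : (fun r => (Z S d (fun k => Φ k ∧ (0 < k d → rem A m k = 0)) m 0 (r + 1) k : ℤ))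
            = fun r => ∑ c ∈ av S m k,
              (Z S d (fun k => Φ k ∧ (0 < k d → rem A m k = 0)) m 0 (r + 1) (bump k c) : ℤ) := by
          funext r
          exact Z_one hd 0 r k ⟨(hΦ k 0).2 h1, by simp⟩ fun h => hA0 (by
            have := h.2 (by simp); rwa [hr] at this)
        have e2 : ∀ c ∈ av S m k, rem A m (bump k c) = 0 →
            Dl s (fun r => (Z S d (fun k => Φ k ∧ (0 < k d → rem A m k = 0)) m 0 (r + 1)
              (bump k c) : ℤ)) 0 = if s ≤ rem (S \ A) m k then
                (paths S (fun k => Φ k ∧ (rem A m k ≠ 0 → s ≤ rem (S \ A) m k)) m (bump k c) : ℤ)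
                else 0 := by
          intro c hc h0
          have hcA : c ∈ A := by
            by_contra h
            rw [rem_bump_out m k h] at h0
            exact hA0 h0
          have e3 : rem (S \ A) m k = rem S m (bump k c) := by
            have := rem_sdiff hA m (bump k c)
            rw [rem_bump_out m k (fun h => (mem_sdiff.1 h).2 hcA)] at this
            omega
          simp only [Z_free hd (Ψ := fun k => Φ k ∧ (0 < k d → rem A m k = 0)) (Φ := Φ)
            (fun k => rem A m k = 0) (fun k hk c _ => hI k hk c)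
            (fun k j hk => by simp only [hΦ, hr, hk, implies_true, and_true]) _ _ _ h0]
          rw [paths_congr (Ψ := fun k => Φ k ∧ (rem A m k ≠ 0 → s ≤ rem (S \ A) m k)) (Ψ' := Φ)
            (fun k => rem A m k = 0) (fun k hk _ c _ => hI k hk c)
            (fun k hk => by simp [hk]) _ h0]
          by_cases h2 : Φ (bump k c)
          · have h3 := hlow _ (hk.bump hc) h2 h0
            push_cast
            rw [Dl_mul]
            simp only [add_assoc]
            rw [Dl_choose _ _ _ _ h3, e3]
            split_ifs <;> omega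
          · rw [paths_neg h2]
            simp [Dl_zero]
        rw [e1, Dl_sum]
        by_cases h2 : s ≤ rem (S \ A) m k
        · rw [paths_step (Ψ := fun k => Φ k ∧ (rem A m k ≠ 0 → s ≤ rem (S \ A) m k))
            ⟨h1, fun _ => h2⟩ hS0, Nat.cast_sum]
          refine sum_congr rfl fun c hc => ?_
          by_cases h0 : rem A m (bump k c) = 0
          · rw [e2 c hc h0, if_pos h2]
          · exact ih c hc (hk.bump hc) h0
        · rw [paths_neg (Ψ := fun k => Φ k ∧ (rem A m k ≠ 0 → s ≤ rem (S \ A) m k))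
            (fun h => h2 (h.2 hA0))]
          refine sum_eq_zero fun c hc => ?_
          by_cases h0 : rem A m (bump k c) = 0
          · rw [e2 c hc h0, if_neg h2]
          · rw [ih c hc (hk.bump hc) h0, paths_neg]
            · rfl
            · exact fun h => h2 ((h.2 h0).trans (rem_bump_le _ m k c))
      · rw [paths_neg (fun h => h1 h.1)]
        simp only [Z_neg (Ψ := fun k => Φ k ∧ (0 < k d → rem A m k = 0))
          (fun h => h1 ((hΦ k 0).1 h.1))]
        exact Dl_zero s 0
  exact hmain k

end Pool.Agent.MP_f00251_lc.H81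

end MrgPart2

-- ======== part 3: formerly Pool.Agent.MP_f00251_lc.H81.Feas
section MrgPart3

/-!
Principal submatrices of symmetric matrices over the field with two elements.
-/

set_option autoImplicit false
set_option linter.unusedSectionVars false
set_option linter.unusedVariables false

namespace Pool.Agent.MP_f00251_lc.H81

open Finset

abbrev F2 : Type := ZMod 2

theorem f2_cases (a : F2) : a = 0 ∨ a = 1 := by revert a; decide

theorem f2_add_self (a : F2) : a + a = 0 := by revert a; decide

theorem f2_add_eq_zero (a b : F2) : a + b = 0 ↔ a = b := by revert a b; decide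

variable {C : Type} [DecidableEq C]

/-- The principal submatrix of `H` on `T` is invertible. -/
def Feas (H : C → C → F2) (T : Finset C) : Prop :=
  ∀ z : C → F2, (∀ a ∈ T, ∑ b ∈ T, H a b * z b = 0) → ∀ a ∈ T, z a = 0

theorem feas_empty (H : C → C → F2) : Feas H ∅ := fun _ _ _ h => by simp at h

theorem feas_congr {H H' : C → C → F2} {T : Finset C} (h : ∀ a ∈ T, ∀ b ∈ T, H a b = H' a b) :
    Feas H T ↔ Feas H' T := by
  have : ∀ z : C → F2, ∀ a ∈ T, ∑ b ∈ T, H a b * z b = ∑ b ∈ T, H' a b * z b :=
    fun z a ha => sum_congr rfl fun b hb => by rw [h a ha b hb]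
  constructor
  · intro hf z hz; exact hf z fun a ha => by rw [this z a ha]; exact hz a ha
  · intro hf z hz; exact hf z fun a ha => by rw [← this z a ha]; exact hz a ha

/-- Elimination of a block on which the matrix is the identity. -/
theorem feas_schur {H : C → C → F2} (hs : ∀ a b, H a b = H b a) {F T : Finset C}
    (hd : Disjoint F T) (hF : ∀ a ∈ F, ∀ b ∈ F, H a b = if a = b then 1 else 0) :
    Feas H (F ∪ T) ↔ Feas (fun a b => H a b + ∑ e ∈ F, H a e * H e b) T := by
  have hrow : ∀ z : C → F2, ∀ e ∈ F, ∑ b ∈ F, H e b * z b = z e := by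
    intro z e he
    rw [sum_congr rfl (g := fun b => if e = b then z b else 0)]
    · simp [he]
    · intro b hb; rw [hF e he b hb]; split_ifs <;> simp
  have hkey : ∀ z : C → F2, ∀ a, ∑ b ∈ T, (H a b + ∑ e ∈ F, H a e * H e b) * z b
      = ∑ b ∈ T, H a b * z b + ∑ e ∈ F, H a e * ∑ b ∈ T, H e b * z b := by
    intro z a
    simp only [add_mul, sum_add_distrib, sum_mul, mul_sum, mul_assoc]
    rw [sum_comm]
  constructor
  · intro hf z hz a ha
    let z' : C → F2 := fun c => if c ∈ F then ∑ b ∈ T, H c b * z b else z c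
    have hT : ∀ b ∈ T, z' b = z b := fun b hb => if_neg (disjoint_right.1 hd hb)
    have hF' : ∀ b ∈ F, z' b = ∑ c ∈ T, H b c * z c := fun b hb => if_pos hb
    have hsum : ∀ c, ∑ b ∈ T, H c b * z' b = ∑ b ∈ T, H c b * z b :=
      fun c => sum_congr rfl fun b hb => by rw [hT b hb]
    rw [← hT a ha]
    refine hf z' (fun c hc => ?_) a (mem_union_right _ ha)
    rw [sum_union hd, hsum]
    rcases mem_union.1 hc with hc | hc
    · rw [hrow z' c hc, hF' c hc, f2_add_self]
    · have := hz c hc
      rw [hkey] at this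
      rw [add_comm, ← this]
      congr 1
      exact sum_congr rfl fun b hb => by rw [hF' b hb]
  · intro hf z hz
    have h1 : ∀ e ∈ F, z e = ∑ b ∈ T, H e b * z b := by
      intro e he
      have := hz e (mem_union_left _ he)
      rw [sum_union hd, hrow z e he, f2_add_eq_zero] at this
      exact this
    have h2 : ∀ a ∈ T, z a = 0 := by
      refine hf z fun a ha => ?_
      have := hz a (mem_union_right _ ha)
      rw [sum_union hd] at this
      rw [hkey, add_comm, ← this]
      congr 1
      exact sum_congr rfl fun b hb => by rw [h1 b hb]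
    intro a ha
    rcases mem_union.1 ha with ha | ha
    · rw [h1 a ha]; exact sum_eq_zero fun b hb => by rw [h2 b hb, mul_zero]
    · exact h2 a ha

theorem feas_identity {H : C → C → F2} (hs : ∀ a b, H a b = H b a) {F : Finset C}
    (hF : ∀ a ∈ F, ∀ b ∈ F, H a b = if a = b then 1 else 0) : Feas H F := by
  have := (feas_schur hs (disjoint_empty_right F) hF).2 (feas_empty _)
  simpa using this

/-- The matrix after pressing `v`. -/
def press (H : C → C → F2) (v : C) : C → C → F2 := fun a b => H a b + H a v * H v b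

theorem feas_press {H : C → C → F2} (hs : ∀ a b, H a b = H b a) {v : C} {T : Finset C}
    (hv : v ∉ T) (h1 : H v v = 1) : Feas H (insert v T) ↔ Feas (press H v) T := by
  have := feas_schur hs (F := {v}) (T := T) (disjoint_singleton_left.2 hv)
    (fun a ha b hb => by
      rw [mem_singleton] at ha hb; subst ha; subst hb; simp [h1])
  rw [insert_eq]
  rw [this]
  simp only [sum_singleton]
  rfl

theorem feas_singleton (H : C → C → F2) (v : C) : Feas H {v} ↔ H v v = 1 := by
  constructor
  · intro h
    rcases f2_cases (H v v) with h0 | h0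
    · have := h (fun _ => 1) (by simp [h0]) v (mem_singleton_self v)
      simp at this
    · exact h0
  · intro h z hz a ha
    rw [mem_singleton] at ha; subst ha
    simpa [h] using hz a (mem_singleton_self a)

theorem not_feas_isolated {H : C → C → F2} (hs : ∀ a b, H a b = H b a) {T : Finset C} {v : C}
    (hv : v ∈ T) (h0 : ∀ u ∈ T, H v u = 0) : ¬ Feas H T := by
  intro h
  have := h (fun c => if c = v then 1 else 0) (fun a ha => by
    simp only [mul_ite, mul_one, mul_zero, sum_ite_eq', if_pos hv]
    rw [hs]; exact h0 a ha) v hv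
  simp at this

/-- A vertex without loop having exactly one neighbour can be removed with that neighbour. -/
theorem feas_pendant {H : C → C → F2} (hs : ∀ a b, H a b = H b a) {T : Finset C} {b u : C}
    (hb : b ∉ T) (hu : u ∉ T) (hbu : b ≠ u) (hbb : H b b = 0) (h1 : H b u = 1)
    (h0 : ∀ c ∈ T, H b c = 0) : Feas H (insert b (insert u T)) ↔ Feas H T := by
  have hb' : b ∉ insert u T := by simp [hbu, hb]
  constructor
  · intro hf z hz a ha
    let z' : C → F2 := fun c => if c = b then ∑ d ∈ T, H u d * z d else if c = u then 0 else z c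
    have hT : ∀ c ∈ T, z' c = z c := fun c hc => by
      have h1 : c ≠ b := fun h => hb (h ▸ hc)
      have h2 : c ≠ u := fun h => hu (h ▸ hc)
      simp [z', h1, h2]
    have hzu : z' u = 0 := by simp [z', hbu.symm]
    have hzb : z' b = ∑ d ∈ T, H u d * z d := by simp [z']
    have hsum : ∀ c, ∑ d ∈ T, H c d * z' d = ∑ d ∈ T, H c d * z d :=
      fun c => sum_congr rfl fun d hd => by rw [hT d hd]
    rw [← hT a ha]
    refine hf z' (fun c hc => ?_) a (by simp [ha])
    rw [sum_insert hb', sum_insert hu, hsum, hzu, hzb, mul_zero, zero_add]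
    simp only [mem_insert] at hc
    rcases hc with rfl | rfl | hc
    · rw [hbb, zero_mul, zero_add]
      exact sum_eq_zero fun d hd => by rw [h0 d hd, zero_mul]
    · rw [hs, h1, one_mul, f2_add_self]
    · rw [hs, h0 c hc, zero_mul, zero_add]; exact hz c hc
  · intro hf z hz
    have hzu : z u = 0 := by
      have := hz b (by simp)
      rw [sum_insert hb', sum_insert hu, hbb, h1, sum_eq_zero (fun d hd => by
        rw [h0 d hd, zero_mul])] at this
      simpa using this
    have hT : ∀ a ∈ T, z a = 0 := by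
      refine hf z fun a ha => ?_
      have := hz a (by simp [ha])
      rw [sum_insert hb', sum_insert hu, hzu, hs, h0 a ha] at this
      simpa using this
    have hzb : z b = 0 := by
      have := hz u (by simp)
      rw [sum_insert hb', sum_insert hu, hzu, hs, h1, sum_eq_zero (fun d hd => by
        rw [hT d hd, mul_zero])] at this
      simpa using this
    intro a ha
    simp only [mem_insert] at ha
    rcases ha with rfl | rfl | ha
    · exact hzb
    · exact hzu
    · exact hT a ha

/-- Two twins cancel. -/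
theorem feas_twin {H : C → C → F2} (hs : ∀ a b, H a b = H b a) {T : Finset C} {y y' : C}
    (hy : y ∉ T) (hy' : y' ∉ T) (hne : y ≠ y') (h1 : H y y' = H y y + 1) (h2 : H y' y' = H y y)
    (h3 : ∀ c ∈ T, H y' c = H y c) : Feas H (insert y (insert y' T)) ↔ Feas H T := by
  have hb' : y ∉ insert y' T := by simp [hne, hy]
  have e1 : ∀ a s : F2, a * s + ((a + 1) * s + s) = 0 := by decide
  have e2 : ∀ a s : F2, (a + 1) * s + (a * s + s) = 0 := by decide
  have e3 : ∀ a s t : F2, a * s + (a * s + t) = t := by decide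
  have h3' : ∀ z : C → F2, ∑ d ∈ T, H y' d * z d = ∑ d ∈ T, H y d * z d :=
    fun z => sum_congr rfl (fun d hd => by rw [h3 d hd])
  have e4 : ∀ a s t r : F2, a * s + ((a + 1) * t + r) = 0 → (a + 1) * s + (a * t + r) = 0 →
    s = t ∧ s = r := by decide
  constructor
  · intro hf z hz a ha
    let z' : C → F2 := fun c => if c = y ∨ c = y' then ∑ d ∈ T, H y d * z d else z c
    have hT : ∀ c ∈ T, z' c = z c := fun c hc => by
      have h1 : c ≠ y := fun h => hy (h ▸ hc)
      have h2 : c ≠ y' := fun h => hy' (h ▸ hc)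
      simp [z', h1, h2]
    have hz1 : z' y = ∑ d ∈ T, H y d * z d := by simp [z']
    have hz2 : z' y' = ∑ d ∈ T, H y d * z d := by simp [z']
    have hsum : ∀ c, ∑ d ∈ T, H c d * z' d = ∑ d ∈ T, H c d * z d :=
      fun c => sum_congr rfl fun d hd => by rw [hT d hd]
    rw [← hT a ha]
    refine hf z' (fun c hc => ?_) a (by simp [ha])
    rw [sum_insert hb', sum_insert hy', hsum, hz1, hz2]
    simp only [mem_insert] at hc
    rcases hc with rfl | rfl | hc
    · rw [h1]; exact e1 _ _
    · rw [hs c y, h1, h2, h3']; exact e2 _ _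
    · rw [hs c y', h3 c hc, hs y c, e3]; exact hz c hc
  · intro hf z hz
    have a1 := hz y (by simp)
    have a2 := hz y' (by simp)
    rw [sum_insert hb', sum_insert hy', h1] at a1
    rw [sum_insert hb', sum_insert hy', hs y' y, h1, h2, h3'] at a2
    obtain ⟨b1, b2⟩ := e4 _ _ _ _ a1 a2
    have hT : ∀ a ∈ T, z a = 0 := by
      refine hf z fun a ha => ?_
      have := hz a (by simp [ha])
      rw [sum_insert hb', sum_insert hy', hs a y', h3 a ha, hs y a, ← b1, e3] at this
      exact this
    have hzy : z y = 0 := by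
      rw [b2]; exact sum_eq_zero fun d hd => by rw [hT d hd, mul_zero]
    intro a ha
    simp only [mem_insert] at ha
    rcases ha with rfl | rfl | ha
    · exact hzy
    · rw [← b1]; exact hzy
    · exact hT a ha

/-- Block diagonal matrices. -/
theorem feas_blocks {G : Type} [DecidableEq G] {H : C → C → F2} {T : Finset C} (g : C → G)
    (h0 : ∀ a ∈ T, ∀ b ∈ T, g a ≠ g b → H a b = 0) :
    Feas H T ↔ ∀ γ, Feas H (T.filter fun c => g c = γ) := by
  constructor
  · intro hf γ z hz a ha
    have := hf (fun c => if g c = γ then z c else 0) (fun c hc => by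
      by_cases hγ : g c = γ
      · refine Eq.trans ?_ (hz c (mem_filter.2 ⟨hc, hγ⟩))
        rw [sum_filter]
        exact sum_congr rfl fun b _ => by split_ifs <;> simp
      · refine sum_eq_zero fun b hb => ?_
        split_ifs with h
        · rw [h0 c hc b hb (h ▸ hγ), zero_mul]
        · simp) a (mem_filter.1 ha).1
    simpa [(mem_filter.1 ha).2] using this
  · intro hf z hz a ha
    refine hf (g a) z (fun c hc => ?_) a (mem_filter.2 ⟨ha, rfl⟩)
    obtain ⟨hc1, hc2⟩ := mem_filter.1 hc
    rw [← hz c hc1, sum_filter]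
    refine sum_congr rfl fun b hb => ?_
    split_ifs with h
    · rfl
    · rw [h0 c hc1 b hb (fun h' => h (h' ▸ hc2)), zero_mul]

theorem feas_image {V : Type} [DecidableEq V] {H : C → C → F2} {M : V → V → F2} {T : Finset V}
    (f : V → C) (hi : Set.InjOn f T) (h : ∀ a ∈ T, ∀ b ∈ T, M a b = H (f a) (f b)) :
    Feas M T ↔ Feas H (T.image f) := by
  constructor
  · intro hf z hz a ha
    obtain ⟨v, hv, rfl⟩ := mem_image.1 ha
    refine hf (fun v => z (f v)) (fun c hc => ?_) v hv
    have := hz (f c) (mem_image_of_mem f hc)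
    rw [sum_image hi] at this
    rw [← this]
    exact sum_congr rfl fun b hb => by rw [h c hc b hb]
  · intro hf z hz a ha
    classical
    let z' : C → F2 := fun c => if h : ∃ v ∈ T, f v = c then z h.choose else 0
    have hz' : ∀ v ∈ T, z' (f v) = z v := by
      intro v hv
      have hex : ∃ u ∈ T, f u = f v := ⟨v, hv, rfl⟩
      simp only [z', dif_pos hex]
      rw [hi hex.choose_spec.1 hv hex.choose_spec.2]
    rw [← hz' a ha]
    refine hf z' (fun c hc => ?_) _ (mem_image_of_mem f ha)
    obtain ⟨v, hv, rfl⟩ := mem_image.1 hc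
    rw [sum_image hi, ← hz v hv]
    exact sum_congr rfl fun b hb => by rw [h v hv b hb, hz' b hb]

theorem feas_pair {H : C → C → F2} (hs : ∀ a b, H a b = H b a) {a b : C} (hab : a ≠ b) :
    Feas H {a, b} ↔ H a a * H b b + H a b = 1 := by
  rcases f2_cases (H a a) with h | h
  · rcases f2_cases (H a b) with h' | h'
    · refine iff_of_false (not_feas_isolated hs (v := a) (by simp) ?_) (by simp [h, h'])
      intro u hu
      simp only [mem_insert, mem_singleton] at hu
      rcases hu with rfl | rfl <;> assumption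
    · have := feas_pendant hs (T := ∅) (b := a) (u := b) (by simp) (by simp) hab h h' (by simp)
      simp only [insert_empty_eq] at this
      exact iff_of_true (this.2 (feas_empty H)) (by simp [h, h'])
  · rw [feas_press hs (by simpa using hab) h, feas_singleton]
    simp only [press, h, one_mul, hs b a]
    generalize H b b = s
    generalize H a b = t
    revert s t; decide

end Pool.Agent.MP_f00251_lc.H81

end MrgPart3

-- ======== part 4: formerly Pool.Agent.MP_f00251_lc.H81.Prec
section MrgPart4

/-!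
A gadget enforcing that a set of directions waits for another one.
-/

set_option autoImplicit false
set_option linter.unusedSectionVars false
set_option linter.unusedVariables false

namespace Pool.Agent.MP_f00251_lc.H81

open Finset Function

variable {C : Type} [DecidableEq C]

/-- The directions with an odd coordinate. -/
def od (S : Finset C) (k : C → ℕ) : Finset C := S.filter fun c => Odd (k c)

theorem mem_od {S : Finset C} {k : C → ℕ} {c : C} : c ∈ od S k ↔ c ∈ S ∧ Odd (k c) := mem_filter

theorem od_subset (S : Finset C) (k : C → ℕ) : od S k ⊆ S := filter_subset _ _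

theorem od_congr {S : Finset C} {k k' : C → ℕ} (h : ∀ c ∈ S, k c = k' c) : od S k = od S k' :=
  filter_congr fun c hc => by rw [h c hc]

theorem od_insert (S : Finset C) (k : C → ℕ) (x : C) :
    od (insert x S) k = if Odd (k x) then insert x (od S k) else od S k := filter_insert _ _ _

theorem od_bump_odd {S : Finset C} {k : C → ℕ} {c : C} (hc : c ∈ S) (h : Odd (k c)) :
    od S k = insert c (od S (bump k c)) ∧ c ∉ od S (bump k c) := by
  constructor
  · ext d
    by_cases e : d = c
    · subst e; simp [mem_od, hc, h]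
    · simp [mem_od, e, bump_ne k e]
  · simp [mem_od, Nat.odd_add_one, h]

theorem od_bump_even {S : Finset C} {k : C → ℕ} {c : C} (hc : c ∈ S) (h : ¬ Odd (k c)) :
    od S (bump k c) = insert c (od S k) ∧ c ∉ od S k := by
  constructor
  · ext d
    by_cases e : d = c
    · subst e; simp only [mem_od, hc, bump_self, Nat.odd_add_one, h]; simp
    · simp [mem_od, e, bump_ne k e]
  · simp only [mem_od, h]; simp

/-- Feasibility of a lattice point. -/
def FE (H : C → C → F2) (S : Finset C) (k : C → ℕ) : Prop := Feas H (od S k)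

/-- The directions of `B` wait for `A`. -/
def prec (A B : Finset C) (m k : C → ℕ) : Prop := (∃ c ∈ B, 0 < k c) → rem A m k = 0

theorem rem_zero_bump {A : Finset C} {m k : C → ℕ} (h : rem A m k = 0) (c : C) :
    rem A m (bump k c) = 0 := by have := rem_bump_le A m k c; omega

theorem r_lemma {S A B : Finset C} {x b : C} {H : C → C → F2} (hs : ∀ a b, H a b = H b a)
    (hx : x ∉ S) (hb : b ∉ S) (hxb : x ≠ b) (hA : A ⊆ S) (hB : B ⊆ S) (hAB : Disjoint A B)
    (hxx : H x x = 0) (hbb : H b b = 0) (hxb1 : H x b = 1)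
    (hxc : ∀ c ∈ S, H x c = if c ∈ B then 1 else 0)
    (hbc : ∀ c ∈ S, H b c = if c ∈ A then 1 else 0)
    (m : C → ℕ) (hmb : m b = 1) (hev : ∀ c ∈ A, Even (m c)) (hApos : rem A m 0 ≠ 0)
    (hBpos : ∃ c ∈ B, 0 < m c) {Θ : (C → ℕ) → Prop} (hΘx : ∀ k j, Θ (update k x j) ↔ Θ k)
    (hΘb : ∀ k, Θ (bump k b) ↔ Θ k) :
    Nil (rem S m 0 + 2) (cns (2 * paths S (fun k => (FE H S k ∧ Θ k) ∧ prec A B m k) m 0)
      (fun u => Z (insert b S) x (fun k => FE H (insert x (insert b S)) k ∧ Θ k) m 0
        (2 * u + 1) 0)) := by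
  set Ψ : (C → ℕ) → Prop := fun k => FE H (insert x (insert b S)) k ∧ Θ k with hΨ
  set φ : (C → ℕ) → Prop := fun k => FE H S k ∧ Θ k with hφ
  have hx' : x ∉ insert b S := by simp [hxb, hx]
  have hod : ∀ k j, od (insert x (insert b S)) (update k x j) =
      if Odd j then insert x (od (insert b S) k) else od (insert b S) k := by
    intro k j
    rw [od_insert, update_self, od_congr (update_out hx' k j)]
  have hp : ∀ k j, Ψ (update k x (j + 2)) ↔ Ψ (update k x j) := by
    intro k j
    simp only [hΨ, FE, hod, hΘx, Nat.odd_add, even_two, iff_true]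
  have a00 : ∀ k, k b = 0 → (Ψ (update k x 0) ↔ φ k) := by
    intro k h; simp only [hΨ, hφ, FE, hod, hΘx]; simp [od_insert, h]
  have a01 : ∀ k, k b = 1 → (Ψ (update k x 0) ↔ Feas H (insert b (od S k)) ∧ Θ k) := by
    intro k h; simp only [hΨ, FE, hod, hΘx]; simp [od_insert, h]
  have a10 : ∀ k, k b = 0 → (Ψ (update k x (0 + 1)) ↔ Feas H (insert x (od S k)) ∧ Θ k) := by
    intro k h; simp only [hΨ, FE, hod, hΘx]; simp [od_insert, h]
  have a11 : ∀ k, k b = 1 →
      (Ψ (update k x (0 + 1)) ↔ Feas H (insert x (insert b (od S k))) ∧ Θ k) := by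
    intro k h; simp only [hΨ, FE, hod, hΘx]; simp [od_insert, h]
  have hbo : ∀ k, b ∉ od S k := fun k h => hb (od_subset S k h)
  have hxo : ∀ k, x ∉ od S k := fun k h => hx (od_subset S k h)
  have hAev : ∀ k, Le S m k → rem A m k = 0 → ∀ c ∈ od S k, H b c = 0 := by
    intro k hk h0 c hc
    obtain ⟨h1, h2⟩ := mem_od.1 hc
    rw [hbc c h1, if_neg]
    intro hcA
    have := le_antisymm (hk c h1) (rem_eq_zero.1 h0 c hcA)
    rw [this] at h2
    exact Nat.not_odd_iff_even.2 (hev c hcA) h2
  have hB0 : ∀ k : C → ℕ, (∀ c ∈ B, k c = 0) → ∀ c ∈ od S k, H x c = 0 := by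
    intro k hk c hc
    obtain ⟨h1, h2⟩ := mem_od.1 hc
    rw [hxc c h1, if_neg]
    intro hcB
    rw [hk c hcB] at h2
    simp at h2
  have c1 : ∀ k, Le S m k → rem A m k = 0 →
      (Feas H (insert x (insert b (od S k))) ↔ Feas H (od S k)) := by
    intro k hk h0
    rw [insert_comm]
    exact feas_pendant hs (hbo k) (hxo k) hxb.symm hbb (by rw [hs, hxb1]) (hAev k hk h0)
  have c2 : ∀ k, Le S m k → rem A m k = 0 → ¬ Feas H (insert b (od S k)) := by
    intro k hk h0
    refine not_feas_isolated hs (mem_insert_self _ _) fun u hu => ?_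
    rcases mem_insert.1 hu with rfl | hu
    · exact hbb
    · exact hAev k hk h0 u hu
  have c3 : ∀ k, Le S m k → rem A m k ≠ 0 → ∀ c ∈ av S m k, rem A m (bump k c) = 0 →
      (Feas H (insert b (od S k)) ↔ Feas H (od S (bump k c))) := by
    intro k hk h0 c hc h1
    have hcA : c ∈ A := by
      by_contra h
      rw [rem_bump_out m k h] at h1
      exact h0 h1
    have h2 := rem_eq_zero.1 h1 c hcA
    rw [bump_self] at h2
    have h3 := (mem_av.1 hc).2
    have h4 : Odd (k c) := by
      have := hev c hcA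
      rw [show m c = k c + 1 by omega, Nat.even_add_one, Nat.not_even_iff_odd] at this
      exact this
    obtain ⟨e1, e2⟩ := od_bump_odd (hA hcA) h4
    rw [e1]
    exact feas_pendant hs (hbo _) e2 (ne_of_mem_of_not_mem (hA hcA) hb).symm hbb
      (by rw [hbc c (hA hcA), if_pos hcA]) (hAev _ (hk.bump hc) h1)
  have hbA : b ∉ A := fun h => hb (hA h)
  have hbB : b ∉ B := fun h => hb (hB h)
  have hodb : ∀ k, od S (bump k b) = od S k := fun k =>
    od_congr fun c hc => bump_ne k (ne_of_mem_of_not_mem hc hb)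
  have hφb : ∀ k, φ (bump k b) ↔ φ k := fun k => by simp only [hφ, FE, hodb, hΘb]
  set N : (C → ℕ) → ℕ := paths (insert b S)
    (fun k => Ψ (update k x (0 + 1)) ∧ ¬ Ψ (update k x 0)) m with hN
  have N1 : ∀ k, k b = 1 → Le S m k → rem A m k = 0 → N k = paths S φ m k := by
    intro k h1 h2 h3
    rw [hN, paths_insert_full hb _ _ _ (by omega)]
    refine paths_congr (fun k => k b = 1 ∧ Le S m k ∧ rem A m k = 0) ?_ ?_ k ⟨h1, h2, h3⟩
    · rintro k ⟨h1, h2, h3⟩ _ c hc
      exact ⟨by rw [bump_ne _ (ne_of_mem_of_not_mem (mem_av.1 hc).1 hb).symm, h1], h2.bump hc,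
        rem_zero_bump h3 c⟩
    · rintro k ⟨h1, h2, h3⟩
      rw [a11 k h1, a01 k h1, c1 k h2 h3]
      simp only [c2 k h2 h3, false_and, not_false_eq_true, and_true]
      rfl
  have N0 : ∀ k, Le S m k ∧ (k b = 0 ∨ (k b = 1 ∧ rem A m k ≠ 0)) → N k = 0 := by
    refine paths_dead _ ?_ ?_
    · rintro k ⟨h1, h2⟩ ⟨h3, h4⟩ c hc ⟨h5, h6⟩
      refine ⟨h1.bump hc, ?_⟩
      by_cases hcb : c = b
      · subst hcb
        have h7 : k c = 0 := by have := (mem_av.1 hc).2; omega
        refine Or.inr ⟨by simp [h7], fun h8 => h4 ?_⟩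
        rw [a11 _ (by simp [h7]), c1 _ (h1.bump hc) h8] at h5
        exact (a00 k h7).2 ((hφb k).1 h5)
      · have hc' : c ∈ av S m k := mem_av.2 ⟨by simpa [hcb] using (mem_av.1 hc).1, (mem_av.1 hc).2⟩
        rw [bump_ne _ (Ne.symm hcb)]
        rcases h2 with h2 | ⟨h2, h7⟩
        · exact Or.inl h2
        · refine Or.inr ⟨h2, fun h8 => h4 ?_⟩
          rw [a11 _ (by rw [bump_ne _ (Ne.symm hcb), h2]), c1 _ (h1.bump hc) h8] at h5
          exact (a01 k h2).2 ⟨(c3 k h1 h7 c hc' h8).2 h5.1, ((a11 k h2).1 h3).2⟩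
    · rintro k ⟨h1, h2⟩ _
      rw [rem_insert hb]
      have := rem_sdiff hA m k
      omega
  set G : (C → ℕ) → ℕ := paths S (fun k => φ k ∧ prec A B m k) m with hG
  have G1 : ∀ k, rem A m k = 0 → G k = paths S φ m k := fun k hk =>
    paths_congr (fun k => rem A m k = 0) (fun k hk _ c _ => rem_zero_bump hk c)
      (fun k hk => and_iff_left fun _ => hk) k hk
  have main : ∀ k, Le S m k → k b = 0 → (∀ c ∈ B, k c = 0) →
      Nil (rem S m k + 2) (cns (G k + if rem A m k = 0 then 0 else (G k : ℤ))
        (fun u => Z (insert b S) x Ψ m 0 (2 * u + 1) k)) := by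
    intro k
    induction k using rem_ind (S := S) (m := m) with
    | h k ih =>
      intro h1 h2 h3
      by_cases hk : φ k
      swap
      · rw [hG, paths_neg (fun h => hk h.1)]
        simpa using ladder_none k 0 _ (fun h => hk ((a00 k h2).1 h))
      have hrem : rem S m k ≠ 0 := by
        obtain ⟨c, hc, h⟩ := hBpos
        intro h0
        have := rem_eq_zero.1 h0 c (hB hc)
        rw [h3 c hc] at this
        omega
      have hGk : G k = ∑ c ∈ av S m k, G (bump k c) :=
        paths_step ⟨hk, fun ⟨c, hc, h⟩ => by rw [h3 c hc] at h; omega⟩ hrem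
      have hGB : ∀ c ∈ B, rem A m k ≠ 0 → G (bump k c) = 0 := fun c hc h => paths_neg fun h' => by
        have := h'.2 ⟨c, hc, by simp⟩
        rw [rem_bump_out m k (disjoint_right.1 hAB hc)] at this
        exact h this
      have key := ladder_one hx' (Ψ := Ψ) (m := m) k 0 (rem S m k + 2)
        (fun c => if c = b then (if rem A m k = 0 then 0 else
          ∑ d ∈ av S m k, if rem A m (bump k d) = 0 then (G (bump k d) : ℤ) else 0)
          else G (bump k c) + if rem A m (bump k c) = 0 then 0 else (G (bump k c) : ℤ))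
        ((a00 k h2).2 hk) (fun h => not_feas_isolated hs (mem_insert_self _ _) (fun u hu => by
          rcases mem_insert.1 hu with rfl | hu
          · exact hxx
          · exact hB0 k h3 u hu) ((a10 k h2).1 h).1) ?_
      · rw [sum_av_insert hb, if_pos (by omega), if_pos rfl, sum_congr rfl (fun c hc =>
          if_neg (ne_of_mem_of_not_mem (mem_av.1 hc).1 hb))] at key
        have e : (G k + if rem A m k = 0 then 0 else (G k : ℤ)) = (if rem A m k = 0 then 0 else
          ∑ d ∈ av S m k, if rem A m (bump k d) = 0 then (G (bump k d) : ℤ) else 0) +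
          ∑ c ∈ av S m k, ((G (bump k c) : ℤ) +
            if rem A m (bump k c) = 0 then 0 else (G (bump k c) : ℤ)) := by
          rw [hGk]
          split_ifs with h0
          · simp [rem_zero_bump h0]
          · push_cast
            rw [← sum_add_distrib, ← sum_add_distrib]
            exact sum_congr rfl fun c _ => by split_ifs <;> ring
        rw [e]; exact key
      · intro c hc
        by_cases hcb : c = b
        · subst hcb
          have e1 : bump k c c = 1 := by simp [h2]
          simp only [if_true]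
          by_cases h4 : Ψ (update (bump k c) x 0)
          · have h5 := (a01 _ e1).1 h4
            rw [hodb] at h5
            have h6 : rem A m k ≠ 0 := fun h => c2 k h1 h h5.1
            have h7 : Ψ (update (bump k c) x (0 + 1)) := by
              rw [a11 _ e1, hodb, feas_pendant hs (hxo k) (hbo k) hxb hxx hxb1 (hB0 k h3)]
              exact ⟨hk.1, h5.2⟩
            have := ladder_both hx' (m := m) hp (bump k c) 0 h4 h7
            rw [rem_insert hb, sum_av_insert hb, e1, hmb, if_neg (lt_irrefl 1), Nat.sub_self,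
              zero_add, zero_add, rem_bump_out m k hb, if_neg hrem, zero_add,
              av_congr (m' := m) (k' := k) (fun _ _ => rfl)
                (fun d hd => bump_ne k (ne_of_mem_of_not_mem hd hb))] at this
            rw [if_neg h6, sum_congr rfl (g := fun d => (N (bump (bump k c) d) : ℤ))]
            · exact this.succ
            · intro d hd
              have e2 : bump (bump k c) d c = 1 := by
                rw [bump_ne _ (ne_of_mem_of_not_mem (mem_av.1 hd).1 hb).symm, e1]
              have e3 : Le S m (bump (bump k c) d) := by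
                rw [bump_comm]; exact (h1.bump hd).bump_out hb
              have e4 : rem A m (bump (bump k c) d) = rem A m (bump k d) := by
                rw [bump_comm, rem_bump_out _ _ hbA]
              split_ifs with h8
              · rw [N1 _ e2 e3 (e4.trans h8), G1 _ h8, bump_comm, paths_bump_out m hb hφb]
              · rw [N0 _ ⟨e3, Or.inr ⟨e2, by rwa [e4]⟩⟩]; rfl
          · have : (if rem A m k = 0 then 0 else ∑ d ∈ av S m k,
                if rem A m (bump k d) = 0 then (G (bump k d) : ℤ) else 0) = 0 := by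
              split_ifs with h5
              · rfl
              refine sum_eq_zero fun d hd => ?_
              split_ifs with h6
              · rw [G1 _ h6, paths_neg]
                · rfl
                · intro h7
                  refine h4 ((a01 _ e1).2 ⟨?_, (hΘb k).2 hk.2⟩)
                  rw [hodb]
                  exact (c3 k h1 h5 d hd h6).2 h7.1
              · rfl
            rw [this]
            exact ladder_none _ 0 _ h4
        · have hc' : c ∈ av S m k :=
            mem_av.2 ⟨by simpa [hcb] using (mem_av.1 hc).1, (mem_av.1 hc).2⟩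
          have e1 : bump k c b = 0 := by rw [bump_ne _ (Ne.symm hcb), h2]
          have e2 := rem_bump hc'
          simp only [if_neg hcb]
          by_cases hcB : c ∈ B
          swap
          · exact (ih c hc' (h1.bump hc') e1 fun d hd => by
              rw [bump_ne _ (ne_of_mem_of_not_mem hd hcB), h3 d hd]).mono (by omega)
          have e3 : rem A m (bump k c) = rem A m k := rem_bump_out m k (disjoint_right.1 hAB hcB)
          by_cases h4 : Ψ (update (bump k c) x 0)
          · have h5 := (a00 _ e1).1 h4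
            obtain ⟨e4, e5⟩ := od_bump_even (k := k) (hB hcB) (by simp [h3 c hcB])
            have h7 : Ψ (update (bump k c) x (0 + 1)) := by
              rw [a10 _ e1, e4, feas_pendant hs (hxo k) e5
                (ne_of_mem_of_not_mem (hB hcB) hx).symm hxx
                (by rw [hxc c (hB hcB), if_pos hcB]) (hB0 k h3)]
              exact ⟨hk.1, h5.2⟩
            have := ladder_both hx' (m := m) hp (bump k c) 0 h4 h7
            rw [rem_insert hb, sum_av_insert hb, e1, hmb, if_pos zero_lt_one,
              if_neg (by omega), zero_add, sum_eq_zero (fun d hd => by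
                rw [← hN, N0 _ ⟨(h1.bump hc').bump hd, Or.inl (by
                  rw [bump_ne _ (ne_of_mem_of_not_mem (mem_av.1 hd).1 hb).symm, e1])⟩]; rfl),
              add_zero, ← hN] at this
            have e6 : bump (bump k c) b b = 1 := by simp [e1]
            have e7 : Le S m (bump (bump k c) b) := (h1.bump hc').bump_out hb
            have e8 : rem A m (bump (bump k c) b) = rem A m k := by
              rw [rem_bump_out _ _ hbA, e3]
            have e9 : ((G (bump k c) : ℤ) + if rem A m (bump k c) = 0 then 0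
                else (G (bump k c) : ℤ)) = N (bump (bump k c) b) := by
              by_cases h0 : rem A m k = 0
              · rw [N1 _ e6 e7 (e8.trans h0), G1 _ (e3.trans h0), paths_bump_out m hb hφb, e3,
                  if_pos h0, add_zero]
              · rw [N0 _ ⟨e7, Or.inr ⟨e6, by rwa [e8]⟩⟩, hGB c hcB h0]; simp
            rw [e9]
            exact this.mono (by omega)
          · have : G (bump k c) = 0 := paths_neg fun h => h4 ((a00 _ e1).2 h.1)
            rw [this]
            simpa using ladder_none _ 0 _ h4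
  have := main 0 (le_zero S m) rfl (fun _ _ => rfl)
  rw [if_neg hApos, ← two_mul] at this
  exact this

end Pool.Agent.MP_f00251_lc.H81

end MrgPart4

-- ======== part 5: formerly Pool.Agent.MP_f00251_lc.H81.Block
section MrgPart5

/-!
Small blocks and branching.
-/

set_option autoImplicit false
set_option linter.unusedSectionVars false
set_option linter.unusedVariables false

namespace Pool.Agent.MP_f00251_lc.H81

open Finset Function

variable {C : Type} [DecidableEq C]

theorem paths_map {C' : Type} [DecidableEq C'] (f : C' → C) {S' : Finset C'}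
    (hf : Set.InjOn f S') {Ψ : (C → ℕ) → Prop} {Ψ' : (C' → ℕ) → Prop} {m : C → ℕ} {m' : C' → ℕ}
    (R : (C → ℕ) → (C' → ℕ) → Prop) (hm : ∀ c ∈ S', m (f c) = m' c)
    (h1 : ∀ k k', R k k' → ∀ c ∈ S', k (f c) = k' c) (h2 : ∀ k k', R k k' → (Ψ k ↔ Ψ' k'))
    (h3 : ∀ k k', R k k' → ∀ c ∈ S', R (bump k (f c)) (bump k' c)) (k' : C' → ℕ) :
    ∀ k, R k k' → paths (S'.image f) Ψ m k = paths S' Ψ' m' k' := by
  induction k' using rem_ind (S := S') (m := m') with
  | h k' ih =>
    intro k hR
    have hr : rem (S'.image f) m k = rem S' m' k' := by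
      unfold rem
      rw [sum_image hf]
      exact sum_congr rfl fun c hc => by rw [hm c hc, h1 k k' hR c hc]
    have ha : av (S'.image f) m k = (av S' m' k').image f := by
      unfold av
      rw [filter_image]
      congr 1
      exact filter_congr fun c hc => by rw [hm c hc, h1 k k' hR c hc]
    by_cases hΨ : Ψ k
    · rw [paths_pos hΨ, paths_pos ((h2 k k' hR).1 hΨ), hr, ha,
        sum_image (hf.mono (by intro c hc; exact (mem_av.1 hc).1))]
      congr 1
      exact sum_congr rfl fun c hc => ih c hc _ (h3 k k' hR c (mem_av.1 hc).1)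
    · rw [paths_neg hΨ, paths_neg (fun h' => hΨ ((h2 k k' hR).2 h'))]

open Classical in
theorem paths_one {c : C} {Ψ : (C → ℕ) → Prop} {m k : C → ℕ} (hm : m c = 2) (hk : k c = 0) :
    paths {c} Ψ m k = if Ψ k ∧ Ψ (bump k c) ∧ Ψ (bump (bump k c) c) then 1 else 0 := by
  have e : ∀ k : C → ℕ, paths {c} Ψ m k = if Ψ k then (if 2 - k c = 0 then 1 else 0) +
      (if k c < 2 then paths {c} Ψ m (bump k c) else 0) else 0 := by
    intro k
    rw [paths_eq, ← insert_empty_eq, sum_av_insert (notMem_empty c), rem_insert (notMem_empty c),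
      hm]
    simp [av, rem]
  rw [e k, e (bump k c), e (bump (bump k c) c)]
  by_cases h1 : Ψ k <;> by_cases h2 : Ψ (bump k c) <;> by_cases h3 : Ψ (bump (bump k c) c) <;>
    simp [h1, h2, h3, hk]

/-- A symmetric matrix of size two. -/
def mat (x y o : F2) : Bool → Bool → F2
  | false, false => x
  | true, true => y
  | _, _ => o

theorem mat_symm (x y o : F2) (a b : Bool) : mat x y o a b = mat x y o b a := by
  cases a <;> cases b <;> rfl

/-- A point of the plane. -/
def pt (i j : ℕ) : Bool → ℕ := fun b => cond b j i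

theorem bump_pt_false (i j : ℕ) : bump (pt i j) false = pt (i + 1) j := by
  funext b; cases b <;> simp [pt, bump_apply]

theorem bump_pt_true (i j : ℕ) : bump (pt i j) true = pt i (j + 1) := by
  funext b; cases b <;> simp [pt, bump_apply]

theorem update_pt (i j l : ℕ) : update (pt i j) true l = pt i l := by
  funext b; cases b <;> simp [pt]

theorem eq_pt (k : Bool → ℕ) : k = pt (k false) (k true) := by
  funext b; cases b <;> rfl

theorem fe_pt (x y o : F2) (i j : ℕ) : FE (mat x y o) {true, false} (pt i j) ↔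
    if Odd j then (if Odd i then y * x + o = 1 else y = 1) else (if Odd i then x = 1 else True) := by
  unfold FE
  rw [od_insert, ← insert_empty_eq false, od_insert]
  change Feas _ (if Odd j then insert true (if Odd i then insert false ∅ else ∅)
    else (if Odd i then insert false ∅ else ∅)) ↔ _
  split_ifs
  · exact feas_pair (mat_symm x y o) (by simp)
  · exact feas_singleton _ _
  · exact feas_singleton _ _
  · exact iff_of_true (feas_empty _) trivial

/-- Number of paths in a block with multiplicities two and `n`. -/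
noncomputable def bw (x y o : F2) (n : ℕ) : ℕ :=
  paths {true, false} (FE (mat x y o) {true, false}) (pt 2 n) (pt 0 0)

theorem bw_two (x y o : F2) : bw x y o 2 =
    if x = 1 then (if y = 1 then (if o = 0 then 6 else 2) else (if o = 1 then 1 else 0))
    else (if y = 1 ∧ o = 1 then 1 else 0) := by
  classical
  have e : ∀ i j, paths {true, false} (FE (mat x y o) {true, false}) (pt 2 2) (pt i j) =
      if FE (mat x y o) {true, false} (pt i j) then (if 2 - j + (2 - i) = 0 then 1 else 0) +
      ((if j < 2 then paths {true, false} (FE (mat x y o) {true, false}) (pt 2 2) (pt i (j + 1))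
        else 0) +
      (if i < 2 then paths {true, false} (FE (mat x y o) {true, false}) (pt 2 2) (pt (i + 1) j)
        else 0)) else 0 := by
    intro i j
    rw [paths_eq, sum_av_insert (by simp), rem_insert (by simp), bump_pt_true]
    have e1 : ∀ f : Bool → ℕ, ∑ c ∈ av {false} (pt 2 2) (pt i j), f c =
        if i < 2 then f false else 0 := by
      intro f
      rw [← insert_empty_eq, sum_av_insert (notMem_empty _)]
      simp [av, pt]
    rw [e1, bump_pt_false]
    simp [rem, pt]
  have o0 : ¬ Odd 0 := by decide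
  have o1 : Odd 1 := by decide
  have o2 : ¬ Odd 2 := by decide
  unfold bw
  rw [e 0 0, e 0 1, e 1 0, e 0 2, e 1 1, e 2 0, e 1 2, e 2 1, e 2 2]
  simp only [fe_pt, o0, o1, o2, if_true, if_false]
  rcases f2_cases x with rfl | rfl <;> rcases f2_cases y with rfl | rfl <;>
    rcases f2_cases o with rfl | rfl <;> simp

theorem bw_nil (x y o : F2) : Nil 3 (cns (if x = 1 ∧ ¬ (y = 0 ∧ o = 0) then 1 else 0)
    (fun u => bw x y o (2 * u + 2))) := by
  classical
  have := (ladder (S := {false}) (x := true) (by simp) (Ψ := FE (mat x y o) {true, false})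
    (m := pt 2 0) (fun k j => by
      rw [eq_pt k, update_pt, update_pt, fe_pt, fe_pt]
      simp only [Nat.odd_add, even_two, iff_true]) (pt 0 0) 0).1
  rw [paths_one (c := false) (m := pt 2 0) rfl rfl,
    paths_one (c := false) (m := pt 2 0) rfl rfl] at this
  have o0 : ¬ Odd 0 := by decide
  have o1 : Odd 1 := by decide
  have o2 : ¬ Odd 2 := by decide
  simp only [Z, bump_pt_false, update_pt, fe_pt, zero_add, o0, o1, o2, if_true, if_false,
    Nat.reduceAdd] at this
  refine Nil.congr this fun n => ?_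
  rcases n with _ | n
  · simp only [cns_zero]
    rcases f2_cases x with rfl | rfl <;> rcases f2_cases y with rfl | rfl <;>
      rcases f2_cases o with rfl | rfl <;> simp
  · rfl

theorem paths_two {c d : C} (hcd : c ≠ d) {M : C → C → F2} (hs : M d c = M c d) {m k : C → ℕ}
    (hm : m c = 2) (hc : k c = 0) (hd : k d = 0) :
    paths {d, c} (FE M {d, c}) m k = bw (M c c) (M d d) (M c d) (m d) := by
  have hf : Injective (fun b : Bool => cond b d c) := by
    intro a b; cases a <;> cases b <;> simp [hcd, hcd.symm]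
  have e : ({d, c} : Finset C) = ({true, false} : Finset Bool).image (fun b => cond b d c) := by
    simp
  rw [e]
  refine paths_map _ hf.injOn (fun k k' => ∀ b, k (cond b d c) = k' b) ?_ ?_ ?_ ?_ _ _ ?_
  · intro b _; cases b <;> simp [pt, hm]
  · exact fun k k' h b _ => h b
  · intro k k' h
    unfold FE od
    rw [filter_image, ← feas_image (M := mat (M c c) (M d d) (M c d)) _ hf.injOn]
    · simp only [h]
    · intro a _ b _
      cases a <;> cases b <;> simp [mat, hs]
  · intro k k' h b _ a
    rw [bump_apply, bump_apply, h]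
    simp only [hf.eq_iff]
  · intro b; cases b <;> simp [pt, hc, hd]

open Classical in
theorem paths_branch {ι : Type} (Γ : Finset ι) {S A : Finset C} (T : ι → Finset C)
    (hA : ∀ σ ∈ Γ, A ⊆ T σ) (hT : ∀ σ ∈ Γ, T σ ⊆ S) (hAS : A ⊆ S) {Ψ Ψ' : (C → ℕ) → Prop}
    {m : C → ℕ} (G : ι → ℚ) (I : (C → ℕ) → Prop)
    (hI : ∀ k, I k → rem A m k ≠ 0 → ∀ c ∈ av S m k, Ψ (bump k c) → I (bump k c))
    (h1 : ∀ σ ∈ Γ, ∀ k, Le S m k → (∀ c ∈ S \ T σ, k c = 0) → (Ψ k ↔ Ψ' k))
    (h2 : ∀ k, I k → Le S m k → Ψ k → rem A m k = 0 → (paths S Ψ m k : ℚ) =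
      ∑ σ ∈ Γ, if ∀ c ∈ S \ T σ, k c = 0 then paths (T σ) Ψ' m k * G σ else 0) (k : C → ℕ) :
    Le S m k → (Ψ k → I k) → (paths S Ψ m k : ℚ) =
      ∑ σ ∈ Γ, if ∀ c ∈ S \ T σ, k c = 0 then paths (T σ) Ψ' m k * G σ else 0 := by
  induction k using rem_ind (S := S) (m := m) with
  | h k ih =>
    intro hle hk
    by_cases hΨ : Ψ k
    · by_cases h0 : rem A m k = 0
      · exact h2 k (hk hΨ) hle hΨ h0
      · rw [paths_step hΨ (by have := rem_sdiff hAS m k; omega), Nat.cast_sum,
          sum_congr rfl fun c hc => ih c hc (hle.bump hc) (hI k (hk hΨ) h0 c hc), sum_comm]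
        refine sum_congr rfl fun σ hσ => ?_
        split_ifs with h3
        · rw [paths_step ((h1 σ hσ k hle h3).1 hΨ)
            (by have := rem_sdiff (hA σ hσ) m k; omega), Nat.cast_sum, sum_mul]
          symm
          refine sum_subset_zero_on_sdiff (filter_subset_filter _ (hT σ hσ)) ?_ ?_
          · intro c hc
            obtain ⟨h4, h5⟩ := mem_sdiff.1 hc
            refine if_neg fun h => ?_
            have := h c (mem_sdiff.2 ⟨(mem_av.1 h4).1, fun h6 =>
              h5 (mem_av.2 ⟨h6, (mem_av.1 h4).2⟩)⟩)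
            simp at this
          · intro c hc
            refine (if_pos fun d hd => ?_).symm
            rw [bump_ne _ (ne_of_mem_of_not_mem (mem_av.1 hc).1 (mem_sdiff.1 hd).2).symm, h3 d hd]
        · refine sum_eq_zero fun c hc => if_neg fun h => h3 fun d hd => ?_
          have := le_bump k c d
          rw [h d hd] at this
          omega
    · rw [paths_neg hΨ, Nat.cast_zero]
      refine (sum_eq_zero fun σ hσ => ?_).symm
      split_ifs with h3
      · rw [paths_neg (fun h => hΨ ((h1 σ hσ k hle h3).2 h))]; simp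
      · rfl

/-- Sequential decomposition. -/
theorem paths_seqQ {S S' : Finset C} (hS : S' ⊆ S) {Ψ Ψ' : (C → ℕ) → Prop} {m : C → ℕ} (G : ℚ)
    (I : (C → ℕ) → Prop) (hI : ∀ k, I k → ∀ c ∈ av S' m k, I (bump k c))
    (h1 : ∀ k, I k → (Ψ k ↔ Ψ' k))
    (h2 : ∀ k, I k → rem S' m k ≠ 0 → ∀ c ∈ av S m k, c ∉ S' → ¬ Ψ (bump k c))
    (h3 : ∀ k, I k → rem S' m k = 0 → Ψ' k → (paths S Ψ m k : ℚ) = G) (k : C → ℕ) :
    I k → (paths S Ψ m k : ℚ) = paths S' Ψ' m k * G := by
  induction k using rem_ind (S := S') (m := m) with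
  | h k ih =>
    intro hk
    by_cases hΨ : Ψ' k
    · by_cases h0 : rem S' m k = 0
      · rw [h3 k hk h0 hΨ, paths_done hΨ h0, Nat.cast_one, one_mul]
      · rw [paths_step ((h1 k hk).2 hΨ) (by have := rem_sdiff hS m k; omega), paths_step hΨ h0,
          Nat.cast_sum, Nat.cast_sum, sum_mul,
          ← sum_congr rfl (fun c hc => ih c hc (hI k hk c hc))]
        symm
        refine sum_subset (filter_subset_filter _ hS) fun c hc hc' => ?_
        rw [paths_neg (h2 k hk h0 c hc fun h => hc' (mem_av.2 ⟨h, (mem_av.1 hc).2⟩))]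
        rfl
    · rw [paths_neg hΨ, paths_neg (fun h => hΨ ((h1 k hk).1 h))]; simp

theorem paths_wait {c d : C} (hcd : c ≠ d) {m k : C → ℕ} (h1 : m c = 1) (h2 : m d = 2)
    (hc : k c = 0) (hd : k d = 0) : paths {d, c} (fun k => 0 < k d → 0 < k c) m k = 1 := by
  classical
  have hn : d ∉ ({c} : Finset C) := by simpa using hcd.symm
  have e : ∀ k : C → ℕ, paths {d, c} (fun k => 0 < k d → 0 < k c) m k =
      if (0 < k d → 0 < k c) then (if 2 - k d + (1 - k c) = 0 then 1 else 0) +
      ((if k d < 2 then paths {d, c} (fun k => 0 < k d → 0 < k c) m (bump k d) else 0) +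
      (if k c < 1 then paths {d, c} (fun k => 0 < k d → 0 < k c) m (bump k c) else 0))
      else 0 := by
    intro k
    have e1 : ∀ f : C → ℕ, ∑ a ∈ av {c} m k, f a = if k c < 1 then f c else 0 := by
      intro f
      rw [← insert_empty_eq, sum_av_insert (notMem_empty _), h1]
      simp [av]
    rw [paths_eq, sum_av_insert hn, rem_insert hn, e1, h2]
    simp [rem, h1]
  rw [e k, e (bump k d), e (bump k c), e (bump (bump k c) d), e (bump (bump (bump k c) d) d)]
  simp [bump_ne _ hcd, bump_ne _ hcd.symm, hc, hd]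

end Pool.Agent.MP_f00251_lc.H81

end MrgPart5

-- marker of a merged file
example : 731051 + 397307 = 731051 + 397307 := rfl
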