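import Pool.Agent.MP_f00251_lc.H81.Geo
import Pool.Agent.MP_f00251_lc.H81.Block
import Pool.Agent.Lib.helper82.CookLevin

-- ======== part 0: formerly Pool.Agent.MP_f00251_lc.H81.Adj
section MrgPart0

/-!
The matrix of the chord diagram of a program.
-/

set_option autoImplicit false
set_option linter.unusedSectionVars false
set_option linter.unusedVariables false

namespace Pool.Agent.MP_f00251_lc.H81

open Finset Pool.Agent.PolyT Pool.Agent.H82 N487b59b3

/-- The matrix. -/
def Hm (ops : List Op) (w : ℕ) : Cls → Cls → F2 :=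
  cm (pos ops w ((ops.length + 1) * w)) (lv ops)

/-- Pairs of positions. -/
def grid {β γ : Type} (a : List β) (b : List γ) : List (ℕ × ℕ) :=
  (idx a).flatMap fun h => (idx b).map fun i => (h, i)

theorem mem_grid {β γ : Type} {a : List β} {b : List γ} {j : ℕ × ℕ} :
    j ∈ grid a b ↔ j.1 < a.length ∧ j.2 < b.length := by
  obtain ⟨h, i⟩ := j
  simp only [grid, List.mem_flatMap, mem_idx, List.mem_map, Prod.mk.injEq]
  constructor
  · rintro ⟨_, h1, _, h2, rfl, rfl⟩; exact ⟨h1, h2⟩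
  · rintro ⟨h1, h2⟩; exact ⟨_, h1, _, h2, rfl, rfl⟩

@[fun_prop] theorem p_grid {α β γ : Type} [N487b59b3 α] [N487b59b3 β] [N487b59b3 γ]
    {a : α → List β} {b : α → List γ} (ha : PolyT.Poly a) (hb : PolyT.Poly b) :
    PolyT.Poly (fun x => grid (a x) (b x)) := by
  unfold grid; fun_prop

/-- The chords of cells and edges. -/
def baseL (ops : List Op) (wl : List ℕ) : List Cls :=
  (grid (0 :: idx ops) wl).flatMap (fun j => [(0, j), (1, j), (2, j)]) ++
    (grid ops wl).map fun j => (3, j)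

@[fun_prop] theorem p_baseL {α : Type} [N487b59b3 α] {a : α → List Op} {b : α → List ℕ}
    (ha : PolyT.Poly a) (hb : PolyT.Poly b) : PolyT.Poly (fun x => baseL (a x) (b x)) := by
  unfold baseL; fun_prop

theorem mem_baseL {ops : List Op} {wl : List ℕ} {c : Cls} :
    c ∈ baseL ops wl ↔ IsB ops.length wl.length c := by
  obtain ⟨t, h, i⟩ := c
  simp only [baseL, List.mem_append, List.mem_flatMap, mem_grid, List.mem_map, List.mem_cons,
    List.not_mem_nil, or_false, Prod.mk.injEq, IsB, List.length_cons, length_idx]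
  constructor
  · rintro (⟨j, h1, ⟨rfl, rfl⟩ | ⟨rfl, rfl⟩ | ⟨rfl, rfl⟩⟩ | ⟨j, h1, rfl, rfl⟩) <;>
      simp only at h1 <;> omega
  · rintro ⟨h1, h2 | h2⟩
    · exact Or.inl ⟨(h, i), by simp only; omega, by simp only [and_true]; omega⟩
    · exact Or.inr ⟨(h, i), ⟨h2.2, h1⟩, h2.1.symm, rfl⟩

/-- The set of the chords of cells and edges. -/
def SB (T w : ℕ) : Finset Cls :=
  (range 4 ×ˢ range (T + 1) ×ˢ range w).filter fun c => c.1 ≤ 2 ∨ c.2.1 < T

theorem mem_SB {T w : ℕ} {c : Cls} : c ∈ SB T w ↔ IsB T w c := by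
  simp only [SB, IsB, mem_filter, mem_product, mem_range]; omega

theorem gad_notMem {T w g : ℕ} (hg : 4 ≤ g) : ((g, 0, 0) : Cls) ∉ SB T w := by
  simp only [mem_SB, IsB]; omega

/-- Multiplicities. -/
def mB (ops : List Op) (n : ℕ) (c : Cls) : ℕ :=
  cond (eqB c.1 2) 2 (cond (eqB c.1 3)
    (cond ((opAt ops c.2.1).2.1 && eqB c.2.2 ((opAt ops c.2.1).2.2 + 1)) n 2) 1)

variable {ops : List Op} {w : ℕ}

theorem Hm_symm (c d : Cls) : Hm ops w c d = Hm ops w d c := cm_symm _ _ c d

theorem Hm_ne {c d : Cls} (h : c ≠ d) : Hm ops w c d =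
    if crs (pos ops w ((ops.length + 1) * w) c false) (pos ops w ((ops.length + 1) * w) c true)
      (pos ops w ((ops.length + 1) * w) d false) (pos ops w ((ops.length + 1) * w) d true)
    then 1 else 0 := if_neg h

theorem pos_gad (R g : ℕ) (hg : 4 ≤ g) : pos ops w R (g, 0, 0) false = (gad R (g - 4)).1 ∧
    pos ops w R (g, 0, 0) true = (gad R (g - 4)).2 := by
  have h0 : g ≠ 0 := by omega
  have h1 : g ≠ 1 := by omega
  have h2 : g ≠ 2 := by omega
  have h3 : g ≠ 3 := by omega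
  simp [pos, eqB, h0, h1, h2, h3]

theorem Hm_gad_base {c : Cls} (hc : c ∈ SB ops.length w) {g : ℕ} (h4 : 4 ≤ g) (h11 : g ≤ 11) :
    Hm ops w (g, 0, 0) c = if (g = 4 ∧ (kd c = 3 ∨ kd c = 4)) ∨ (g = 5 ∧ (kd c = 1 ∨ kd c = 2)) ∨
      (g = 7 ∧ (kd c = 2 ∨ kd c = 3)) ∨ (g = 9 ∧ (kd c = 1 ∨ kd c = 4)) then 1 else 0 := by
  rw [Hm_ne (fun h => gad_notMem h4 (h ▸ hc)), (pos_gad _ g h4).1, (pos_gad _ g h4).2]
  refine if_congr ?_ rfl rfl
  obtain ⟨z0, z⟩ := zone (mem_SB.1 hc)
  generalize pos ops w ((ops.length + 1) * w) c false = x at *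
  generalize pos ops w ((ops.length + 1) * w) c true = y at *
  generalize (ops.length + 1) * w = R at *
  rcases z with ⟨e, z | z | z | z⟩ | ⟨e, z⟩ | ⟨e, z⟩ | ⟨e, z⟩ | ⟨e, z⟩ <;> rw [e] <;>
    interval_cases g <;> simp [gad, crs] <;> omega

theorem Hm_gad_gad {g g' : ℕ} (h4 : 4 ≤ g) (h11 : g ≤ 11) (h4' : 4 ≤ g') (h11' : g' ≤ 11) :
    Hm ops w (g, 0, 0) (g', 0, 0) = if (g, g') ∈ [(4, 5), (5, 4), (6, 7), (7, 6), (8, 9), (9, 8),
      (6, 10), (10, 6), (8, 11), (11, 8), (10, 10), (11, 11)] then 1 else 0 := by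
  by_cases e : g = g'
  · subst e
    rw [Hm, cm_self]
    interval_cases g <;> rfl
  rw [Hm_ne (by simpa using e), (pos_gad _ g h4).1, (pos_gad _ g h4).2, (pos_gad _ g' h4').1,
    (pos_gad _ g' h4').2]
  refine if_congr ?_ rfl rfl
  generalize (ops.length + 1) * w = R
  interval_cases g <;> interval_cases g' <;> simp [gad, crs] <;> omega

/-- All chords. -/
def IsS (T w : ℕ) (c : Cls) : Prop := c ∈ SB T w ∨ ∃ g, 4 ≤ g ∧ g ≤ 11 ∧ c = (g, 0, 0)

theorem pos_lt {c : Cls} (hc : IsS ops.length w c) :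
    pos ops w ((ops.length + 1) * w) c false < pos ops w ((ops.length + 1) * w) c true ∧
      pos ops w ((ops.length + 1) * w) c true < 20 * ((ops.length + 1) * w) + 30 := by
  rcases hc with hc | ⟨g, h4, h11, rfl⟩
  · obtain ⟨z0, z⟩ := zone (mem_SB.1 hc)
    refine ⟨z0, ?_⟩
    rcases z with ⟨e, z | z | z | z⟩ | ⟨e, z⟩ | ⟨e, z⟩ | ⟨e, z⟩ | ⟨e, z⟩ <;> omega
  · rw [(pos_gad _ g h4).1, (pos_gad _ g h4).2]
    interval_cases g <;> simp [gad] <;> omega

theorem pos_inj {c d : Cls} (hc : IsS ops.length w c) (hd : IsS ops.length w d) (a b : Bool)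
    (e : pos ops w ((ops.length + 1) * w) c a = pos ops w ((ops.length + 1) * w) d b) :
    c = d ∧ a = b := by
  by_cases h : c = d
  · subst h
    have := (pos_lt hc).1
    cases a <;> cases b <;> simp <;> omega
  exfalso
  have key : ∀ c ∈ SB ops.length w, ∀ g, 4 ≤ g → g ≤ 11 → ∀ a b,
      pos ops w ((ops.length + 1) * w) c a ≠ pos ops w ((ops.length + 1) * w) (g, 0, 0) b := by
    intro c hc g h4 h11 a b
    obtain ⟨z0, z⟩ := zone (mem_SB.1 hc)
    have : ∀ b, pos ops w ((ops.length + 1) * w) (g, 0, 0) b < 6 ∨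
        (5 * ((ops.length + 1) * w) + 5 < pos ops w ((ops.length + 1) * w) (g, 0, 0) b ∧
          pos ops w ((ops.length + 1) * w) (g, 0, 0) b < 5 * ((ops.length + 1) * w) + 14) ∨
        (10 * ((ops.length + 1) * w) + 13 < pos ops w ((ops.length + 1) * w) (g, 0, 0) b ∧
          pos ops w ((ops.length + 1) * w) (g, 0, 0) b < 10 * ((ops.length + 1) * w) + 22) ∨
        (15 * ((ops.length + 1) * w) + 21 < pos ops w ((ops.length + 1) * w) (g, 0, 0) b ∧
          pos ops w ((ops.length + 1) * w) (g, 0, 0) b < 15 * ((ops.length + 1) * w) + 30) := by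
      simp only [Bool.forall_bool, (pos_gad _ g h4).1, (pos_gad _ g h4).2]
      interval_cases g <;> simp [gad] <;> omega
    have := this b
    rcases z with ⟨e, z | z | z | z⟩ | ⟨e, z⟩ | ⟨e, z⟩ | ⟨e, z⟩ | ⟨e, z⟩ <;> cases a <;> omega
  rcases hc with hc | ⟨g, h4, h11, rfl⟩ <;> rcases hd with hd | ⟨g', h4', h11', rfl⟩
  · rcases le_total c.1 d.1 with l | l
    · exact pos_ne (mem_SB.1 hc) (mem_SB.1 hd) h l a b e
    · exact pos_ne (mem_SB.1 hd) (mem_SB.1 hc) (Ne.symm h) l b a e.symm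
  · exact key c hc g' h4' h11' a b e
  · exact key d hd g h4 h11 b a e.symm
  · have h' : g ≠ g' := by simpa using h
    revert e
    cases a <;> cases b <;>
      simp only [(pos_gad _ g h4).1, (pos_gad _ g h4).2, (pos_gad _ g' h4').1,
        (pos_gad _ g' h4').2] <;> generalize (ops.length + 1) * w = R <;>
      interval_cases g <;> interval_cases g' <;> simp [gad] <;> omega

theorem Hm_EE {c d : Cls} (hc : c ∈ SB ops.length w) (hd : d ∈ SB ops.length w) (h1 : c.1 < 2)
    (h2 : d.1 < 2) : Hm ops w c d = if c = d then 1 else 0 := by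
  split_ifs with e
  · subst e; rw [Hm, cm_self]; simp [lv, b2, ltB, h1]
  · obtain ⟨a1, a2⟩ := mem_SB.1 hc
    obtain ⟨b1, b2⟩ := mem_SB.1 hd
    have a3 : c.2.1 ≤ ops.length := by omega
    have b3 : d.2.1 ≤ ops.length := by omega
    rw [Hm_ne e, if_neg (crs_EE h1 h2 a3 a1 b3 b1)]

theorem Hm_same {c d : Cls} (hc : c ∈ SB ops.length w) (hd : d ∈ SB ops.length w) (h1 : 2 ≤ c.1)
    (h2 : c.1 = d.1) (e : c ≠ d) : Hm ops w c d = 0 := by
  obtain ⟨a1, a2⟩ := mem_SB.1 hc
  obtain ⟨b1, b2⟩ := mem_SB.1 hd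
  obtain ⟨t, h, i⟩ := c
  obtain ⟨t', h', i'⟩ := d
  simp only at a1 a2 b1 b2 h1 h2
  subst h2
  rw [Hm_ne e]
  obtain rfl | rfl : t = 2 ∨ t = 3 := by omega
  · exact if_neg (crs_TT (by omega) a1 (by omega) b1)
  · exact if_neg (crs_KK (by omega) a1 (by omega) b1)

theorem nb_fst (c : Cls) (s : Bool) : (nb ops c s).1 = s.toNat := by
  unfold nb
  cases eqB c.1 2 <;> cases s <;> rfl

theorem nb_mem {c : Cls} (hc : c ∈ SB ops.length w) (h0 : 2 ≤ c.1) (s : Bool) :
    nb ops c s ∈ SB ops.length w := by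
  obtain ⟨a1, a2⟩ := mem_SB.1 hc
  obtain ⟨t, h, i⟩ := c
  have l1 := src_le (opAt ops h) i
  have l2 := tgt_le (opAt ops h) i
  simp only at a1 a2 h0
  obtain rfl | rfl : t = 2 ∨ t = 3 := by omega
  · cases s <;> simp [mem_SB, IsB, nb, eqB] <;> omega
  · cases s <;> simp [mem_SB, IsB, nb, eqB] <;> omega

theorem Hm_nb {c e : Cls} (hc : c ∈ SB ops.length w) (he : e ∈ SB ops.length w) (h1 : 2 ≤ c.1)
    (h2 : e.1 < 2) : Hm ops w c e =
      (if e = nb ops c false then 1 else 0) + if e = nb ops c true then 1 else 0 := by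
  obtain ⟨a1, a2⟩ := mem_SB.1 hc
  obtain ⟨b1, b2⟩ := mem_SB.1 he
  obtain ⟨t, h, i⟩ := c
  obtain ⟨t', h', i'⟩ := e
  simp only at a1 a2 b1 b2 h1 h2
  rw [Hm_symm, Hm_ne (by simp; omega)]
  obtain rfl | rfl : t = 2 ∨ t = 3 := by omega
  · rw [if_congr (crs_ET h2 (by omega) b1 (by omega) a1) rfl rfl]
    interval_cases t' <;> simp [nb, eqB]
  · rw [if_congr (crs_EK h2 (by omega) b1 (by omega) a1) rfl rfl]
    interval_cases t' <;> simp [nb, eqB]

/-- The Schur complement with respect to a set of cell chords. -/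
theorem schur_nb {F : Finset Cls} (hF : ∀ e ∈ F, e ∈ SB ops.length w ∧ e.1 < 2) {a b : Cls}
    (ha : a ∈ SB ops.length w) (hb : b ∈ SB ops.length w) (h1 : 2 ≤ a.1) (h2 : 2 ≤ b.1) :
    ∑ e ∈ F, Hm ops w a e * Hm ops w e b =
      (if nb ops a false = nb ops b false ∧ nb ops a false ∈ F then 1 else 0) +
      if nb ops a true = nb ops b true ∧ nb ops a true ∈ F then 1 else 0 := by
  have n1 : nb ops a false ≠ nb ops b true := fun h => by
    have := congrArg Prod.fst h; simp [nb_fst] at this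
  have n2 : nb ops a true ≠ nb ops b false := fun h => by
    have := congrArg Prod.fst h; simp [nb_fst] at this
  rw [sum_congr rfl fun e he => by
    rw [Hm_nb ha (hF e he).1 h1 (hF e he).2, Hm_symm e, Hm_nb hb (hF e he).1 h2 (hF e he).2]]
  simp only [add_mul, ite_mul, one_mul, zero_mul, sum_add_distrib, sum_ite_eq', if_neg n1,
    if_neg n2, add_zero, zero_add, ite_and]
  congr 1 <;> split_ifs <;> rfl

end Pool.Agent.MP_f00251_lc.H81

end MrgPart0

-- ======== part 1: formerly Pool.Agent.MP_f00251_lc.H81.Machine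
section MrgPart1

-- ======== part 0: formerly Pool.Agent.MP_f00251_lc.H81.Phase
section MrgPart0

/-!
Counting the paths that run through the phases in order.
-/

set_option autoImplicit false
set_option linter.unusedSectionVars false
set_option linter.unusedVariables false

namespace Pool.Agent.MP_f00251_lc.H81

open Finset Pool.Agent.H82

/-- Chords of the kinds `a` and `b`. -/
def sel (T w a b : ℕ) : Finset Cls := (SB T w).filter fun c => kd c = a ∨ kd c = b

theorem mem_sel {T w a b : ℕ} {c : Cls} : c ∈ sel T w a b ↔ c ∈ SB T w ∧ (kd c = a ∨ kd c = b) :=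
  mem_filter

theorem sel_subset (T w a b : ℕ) : sel T w a b ⊆ SB T w := filter_subset _ _

theorem kd_SB {T w : ℕ} {c : Cls} (hc : c ∈ SB T w) : (c.1 < 2 ∧ kd c = 0) ∨
    (c.1 = 2 ∧ kd c = 1 + c.2.1 % 2) ∨ (c.1 = 3 ∧ kd c = 3 + c.2.1 % 2 ∧ c.2.1 < T) := by
  have := kd_spec c
  have := (mem_SB.1 hc).2
  omega

theorem rem_sel (T w : ℕ) {a b : ℕ} (h : a ≠ b) (m k : Cls → ℕ) :
    rem (sel T w a b) m k = rem (sel T w a a) m k + rem (sel T w b b) m k := by
  simp only [rem, sel, sum_filter, ← sum_add_distrib]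
  exact sum_congr rfl fun c _ => by split_ifs <;> omega

theorem rem_SB (T w : ℕ) (m k : Cls → ℕ) : rem (SB T w) m k = rem (sel T w 0 0) m k +
    rem (sel T w 1 1) m k + rem (sel T w 2 2) m k + rem (sel T w 3 3) m k +
    rem (sel T w 4 4) m k := by
  simp only [rem, sel, sum_filter, ← sum_add_distrib]
  exact sum_congr rfl fun c hc => by have := kd_SB hc; split_ifs <;> omega

/-- The cells. -/
def cells (T w : ℕ) : Finset (ℕ × ℕ) := range (T + 1) ×ˢ range w

theorem mem_cells {T w : ℕ} {j : ℕ × ℕ} : j ∈ cells T w ↔ j.1 ≤ T ∧ j.2 < w := by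
  simp [cells]

theorem cell_mem {T w t : ℕ} {j : ℕ × ℕ} (ht : t ≤ 2) : ((t, j) : Cls) ∈ SB T w ↔ j ∈ cells T w := by
  simp only [mem_SB, IsB, mem_cells]; omega

theorem cell_of_mem {T w : ℕ} {c : Cls} (hc : c ∈ SB T w) : c.2 ∈ cells T w := by
  simp only [mem_SB, IsB, mem_cells] at hc ⊢; omega

theorem card_cells (T w : ℕ) : (cells T w).card = (T + 1) * w := by simp [cells]

variable {ops : List Op} {w n : ℕ}

theorem mB_E {c : Cls} (h : c.1 < 2) : mB ops n c = 1 := by
  have h2 : c.1 ≠ 2 := by omega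
  have h3 : c.1 ≠ 3 := by omega
  simp [mB, eqB, h2, h3]

theorem mB_T {c : Cls} (h : c.1 = 2) : mB ops n c = 2 := by simp [mB, eqB, h]

theorem mB_K {c : Cls} (h : c.1 = 3) : mB ops n c =
    if (opAt ops c.2.1).2.1 = true ∧ c.2.2 = (opAt ops c.2.1).2.2 + 1 then n else 2 := by
  simp [mB, eqB, h]

theorem mB_even (hn : Even n) {c : Cls} (hc : c ∈ SB ops.length w) (h : 2 ≤ c.1) :
    Even (mB ops n c) := by
  rcases kd_SB hc with e | e | e
  · omega
  · rw [mB_T e.1]; exact even_two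
  · rw [mB_K e.1]; split_ifs
    · exact hn
    · exact even_two

theorem rem_E (k : Cls → ℕ) : rem (sel ops.length w 0 0) (mB ops n) k =
    ∑ j ∈ cells ops.length w, ((1 - k (0, j)) + (1 - k (1, j))) := by
  have : sel ops.length w 0 0 = range 2 ×ˢ cells ops.length w := by
    ext c
    have := kd_spec c
    simp only [mem_sel, mem_SB, IsB, mem_product, mem_range, mem_cells]
    omega
  rw [this, rem, sum_product, sum_range_succ, sum_range_one, sum_add_distrib]
  rfl

theorem done_T {k : Cls → ℕ} (h : rem (sel ops.length w 1 2) (mB ops n) k = 0) {j : ℕ × ℕ}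
    (hj : j ∈ cells ops.length w) : 2 ≤ k (2, j) := by
  have := rem_eq_zero.1 h (2, j) (mem_sel.2 ⟨(cell_mem le_rfl).2 hj, by
    have := kd_spec (2, j); simp only at this; omega⟩)
  rwa [mB_T rfl] at this

theorem not_odd_of_done (hn : Even n) {k : Cls → ℕ} (hk : Le (SB ops.length w) (mB ops n) k)
    {a b : ℕ} (h : rem (sel ops.length w a b) (mB ops n) k = 0) {c : Cls}
    (hc : c ∈ SB ops.length w) (h2 : 2 ≤ c.1) (hab : kd c = a ∨ kd c = b) : ¬ Odd (k c) := by
  rw [le_antisymm (hk c hc) (rem_eq_zero.1 h c (mem_sel.2 ⟨hc, hab⟩))]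
  exact Nat.not_odd_iff_even.2 (mB_even hn hc h2)

/-- A cell whose link has moved has a pressed side. -/
def InvT (T w : ℕ) (k : Cls → ℕ) : Prop :=
  ∀ j ∈ cells T w, 0 < k (2, j) → 0 < k (0, j) + k (1, j)

theorem rem_E_le {k : Cls → ℕ} (h1 : InvT ops.length w k)
    (h2 : rem (sel ops.length w 1 2) (mB ops n) k = 0) :
    rem (sel ops.length w 0 0) (mB ops n) k ≤ (ops.length + 1) * w := by
  rw [rem_E, ← card_cells, card_eq_sum_ones]
  exact sum_le_sum fun j hj => by have := h1 j hj (by have := done_T h2 hj; omega); omega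

/-- The pressed sides are given by `y`. -/
def St (T w : ℕ) (y : ℕ → ℕ → Bool) (k : Cls → ℕ) : Prop :=
  ∀ j ∈ cells T w, ∀ s : Bool, k (s.toNat, j) = if y j.1 j.2 = s then 1 else 0

theorem St.rem {y : ℕ → ℕ → Bool} {k : Cls → ℕ} (h : St ops.length w y k) :
    rem (sel ops.length w 0 0) (mB ops n) k = (ops.length + 1) * w := by
  rw [rem_E, ← card_cells, card_eq_sum_ones]
  refine sum_congr rfl fun j hj => ?_
  have h1 := h j hj false
  have h2 := h j hj true
  simp only [Bool.toNat_false, Bool.toNat_true] at h1 h2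
  rw [h1, h2]
  cases y j.1 j.2 <;> rfl

theorem St.inv {y : ℕ → ℕ → Bool} {k : Cls → ℕ} (h : St ops.length w y k) :
    InvT ops.length w k := by
  intro j hj _
  have h1 := h j hj false
  have h2 := h j hj true
  simp only [Bool.toNat_false, Bool.toNat_true] at h1 h2
  rw [h1, h2]
  cases y j.1 j.2 <;> simp

theorem St.bump {y : ℕ → ℕ → Bool} {k : Cls → ℕ} (h : St ops.length w y k) {c : Cls}
    (hc : 2 ≤ c.1) : St ops.length w y (bump k c) := fun j hj s => by
  rw [bump_ne, h j hj s]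
  rintro rfl
  cases s <;> simp at hc

/-- The set of the pressed sides. -/
def Fy (T w : ℕ) (y : ℕ → ℕ → Bool) : Finset Cls :=
  (SB T w).filter fun e => e.1 = (y e.2.1 e.2.2).toNat

theorem Fy_spec {T : ℕ} {y : ℕ → ℕ → Bool} {e : Cls} (he : e ∈ Fy T w y) : e ∈ SB T w ∧ e.1 < 2 := by
  obtain ⟨h1, h2⟩ := mem_filter.1 he
  exact ⟨h1, h2 ▸ Bool.toNat_lt _⟩

/-- The matrix after pressing the sides. -/
def Sch (ops : List Op) (w : ℕ) (F : Finset Cls) (a b : Cls) : F2 :=
  Hm ops w a b + ∑ e ∈ F, Hm ops w a e * Hm ops w e b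

theorem Sch_symm (F : Finset Cls) (a b : Cls) : Sch ops w F a b = Sch ops w F b a := by
  unfold Sch
  rw [Hm_symm a b]
  congr 1
  exact sum_congr rfl fun e _ => by rw [mul_comm, Hm_symm a e, Hm_symm e b]

theorem feas_Sch {F O : Finset Cls} (hF : ∀ e ∈ F, e ∈ SB ops.length w ∧ e.1 < 2)
    (hO : ∀ c ∈ O, 2 ≤ c.1) : Feas (Hm ops w) (F ∪ O) ↔ Feas (Sch ops w F) O :=
  feas_schur Hm_symm (disjoint_left.2 fun c h1 h2 => by
    have := (hF c h1).2; have := hO c h2; omega)
    fun a ha b hb => Hm_EE (hF a ha).1 (hF b hb).1 (hF a ha).2 (hF b hb).2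

theorem fe_phase (hn : Even n) {y : ℕ → ℕ → Bool} {k : Cls → ℕ}
    (hk : Le (SB ops.length w) (mB ops n) k) (h1 : St ops.length w y k)
    (h2 : rem (sel ops.length w 1 2) (mB ops n) k = 0) :
    FE (Hm ops w) (SB ops.length w) k ↔
      Feas (Sch ops w (Fy ops.length w y)) (od (sel ops.length w 3 4) k) := by
  rw [← feas_Sch (fun e he => Fy_spec he) (fun c hc => by
    obtain ⟨a1, a2⟩ := mem_sel.1 (mem_od.1 hc).1
    have := kd_SB a1; omega), FE]
  refine iff_of_eq (congrArg _ ?_)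
  ext c
  simp only [mem_od, mem_union, Fy, mem_filter, mem_sel]
  by_cases hc : c ∈ SB ops.length w
  swap
  · simp [hc]
  simp only [hc, true_and]
  have := Bool.toNat_lt (y c.2.1 c.2.2)
  rcases kd_SB hc with e | e | e
  · obtain ⟨t, j⟩ := c
    obtain ⟨s, rfl⟩ : ∃ s : Bool, t = s.toNat := by
      have := e.1
      simp only at this
      interval_cases t
      · exact ⟨false, rfl⟩
      · exact ⟨true, rfl⟩
    rw [h1 j (cell_of_mem hc) s, e.2]
    cases s <;> cases y j.1 j.2 <;> simp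
  · have := not_odd_of_done hn hk h2 hc (by omega) (by omega)
    simp only [this, and_false, or_false, false_iff]
    omega
  · rw [or_iff_right (by omega), and_iff_right (by omega)]

/-- Block of an edge. -/
def gb (ops : List Op) (c : Cls) : ℕ × ℕ :=
  (c.2.1, cond (((opAt ops c.2.1).1 || (opAt ops c.2.1).2.1) &&
    eqB c.2.2 ((opAt ops c.2.1).2.2 + 1)) (opAt ops c.2.1).2.2 c.2.2)

theorem gb_eq (h i : ℕ) : gb ops (3, h, i) = (h, if ((opAt ops h).1 || (opAt ops h).2.1) = true ∧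
    i = (opAt ops h).2.2 + 1 then (opAt ops h).2.2 else i) := by
  simp only [gb, Bool.cond_eq_ite, Bool.and_eq_true, eqB_iff]

/-- Edges in a block. -/
def blk (ops : List Op) (w : ℕ) (γ : ℕ × ℕ) : Finset Cls :=
  (sel ops.length w 3 4).filter fun c => gb ops c = γ

/-- Diagonal entry of an edge. -/
def dg (o : Op) (y z : ℕ → Bool) (i : ℕ) : F2 :=
  b2 (!o.1 && !o.2.1 && eqB i o.2.2) + (b2 (!z (tgt o i)) + b2 (y (src o i)))

/-- Weight of a block. -/
noncomputable def ew (o : Op) (n : ℕ) (y z : ℕ → Bool) (i : ℕ) : ℕ :=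
  if (o.1 || o.2.1) = true ∧ i = o.2.2 then
    bw (dg o y z i) (dg o y z (i + 1)) (b2 (cond o.1 (!z i) (y i))) (cond o.2.1 n 2)
  else if (o.1 || o.2.1) = true ∧ i = o.2.2 + 1 then 1 else if dg o y z i = 1 then 1 else 0

theorem Sch_K {y : ℕ → ℕ → Bool} {h i h' i' : ℕ} (hh : h < ops.length) (hi : i < w)
    (hh' : h' < ops.length) (hi' : i' < w) :
    Sch ops w (Fy ops.length w y) (3, h, i) (3, h', i') = Hm ops w (3, h, i) (3, h', i') +
      ((if h = h' ∧ tgt (opAt ops h) i = tgt (opAt ops h') i' then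
        b2 (!y (h + 1) (tgt (opAt ops h) i)) else 0) +
      if h = h' ∧ src (opAt ops h) i = src (opAt ops h') i' then
        b2 (y h (src (opAt ops h) i)) else 0) := by
  have ha : ((3, h, i) : Cls) ∈ SB ops.length w := mem_SB.2 ⟨hi, Or.inr ⟨rfl, hh⟩⟩
  have hb : ((3, h', i') : Cls) ∈ SB ops.length w := mem_SB.2 ⟨hi', Or.inr ⟨rfl, hh'⟩⟩
  have m0 := nb_mem ha (by simp) false
  have m1 := nb_mem ha (by simp) true
  rw [Sch, schur_nb (fun e he => Fy_spec he) ha hb (by simp) (by simp)]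
  simp only [Fy, mem_filter, m0, m1, true_and]
  simp only [nb, eqB, ite_and]
  cases e1 : y (h + 1) (tgt (opAt ops h) i) <;> cases e2 : y h (src (opAt ops h) i) <;>
    simp [b2, ite_and, e1, e2]

theorem Sch_diag {y : ℕ → ℕ → Bool} {h i : ℕ} (hh : h < ops.length) (hi : i < w) :
    Sch ops w (Fy ops.length w y) (3, h, i) (3, h, i) = dg (opAt ops h) (y h) (y (h + 1)) i := by
  rw [Sch_K hh hi hh hi, Hm, cm_self]
  simp [dg, lv, ltB, eqB]

theorem sel34 {c : Cls} (hc : c ∈ sel ops.length w 3 4) :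
    ∃ h i, c = (3, h, i) ∧ h < ops.length ∧ i < w := by
  obtain ⟨a1, a2⟩ := mem_sel.1 hc
  have := kd_SB a1
  exact ⟨c.2.1, c.2.2, Prod.ext (by simp only; omega) rfl, by omega, (mem_SB.1 a1).1⟩

theorem mem_sel34 {h i : ℕ} (hh : h < ops.length) (hi : i < w) :
    ((3, h, i) : Cls) ∈ sel ops.length w 3 4 :=
  mem_sel.2 ⟨mem_SB.2 ⟨hi, Or.inr ⟨rfl, hh⟩⟩, by have := kd_spec (3, h, i); simp only at this; omega⟩

theorem Sch_gb {y : ℕ → ℕ → Bool} {a b : Cls} (ha : a ∈ sel ops.length w 3 4)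
    (hb : b ∈ sel ops.length w 3 4) (hne : gb ops a ≠ gb ops b) :
    Sch ops w (Fy ops.length w y) a b = 0 := by
  rw [← Hm_same (mem_sel.1 ha).1 (mem_sel.1 hb).1 (c := a) (d := b)]
  · obtain ⟨h, i, rfl, hh, hi⟩ := sel34 ha
    obtain ⟨h', i', rfl, hh', hi'⟩ := sel34 hb
    rw [Sch_K hh hi hh' hi', if_neg, if_neg, add_zero, add_zero]
    all_goals
      rintro ⟨rfl, e⟩
      apply hne
      have := dn_spec (opAt ops h).2.2 i
      have := dn_spec (opAt ops h).2.2 i'
      revert e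
      simp only [gb_eq, src, tgt, Prod.mk.injEq, true_and]
      cases (opAt ops h).1 <;> cases (opAt ops h).2.1 <;> simp <;> split_ifs <;> omega
  · obtain ⟨h, i, rfl, hh, hi⟩ := sel34 ha; simp
  · obtain ⟨h, i, rfl, hh, hi⟩ := sel34 ha
    obtain ⟨h', i', rfl, hh', hi'⟩ := sel34 hb
    rfl
  · rintro rfl; exact hne rfl

theorem paths_blk (hops : ∀ h < ops.length, (opAt ops h).2.2 + 1 < w) {y : ℕ → ℕ → Bool}
    {h i : ℕ} (hh : h < ops.length) (hi : i < w) {k : Cls → ℕ} (hk : ∀ i < w, k (3, h, i) = 0) :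
    paths (blk ops w (h, i)) (FE (Sch ops w (Fy ops.length w y)) (blk ops w (h, i))) (mB ops n) k =
      ew (opAt ops h) n (y h) (y (h + 1)) i := by
  have hp := hops h hh
  have hm : ∀ c, c ∈ blk ops w (h, i) ↔ ∃ i' < w, c = (3, h, i') ∧
      (if ((opAt ops h).1 || (opAt ops h).2.1) = true ∧ i' = (opAt ops h).2.2 + 1 then
        (opAt ops h).2.2 else i') = i := by
    intro c
    rw [blk, mem_filter]
    constructor
    · rintro ⟨h1, h2⟩
      obtain ⟨h', i', rfl, hh', hi'⟩ := sel34 h1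
      simp only [gb_eq, Prod.mk.injEq] at h2
      obtain ⟨rfl, h2⟩ := h2
      exact ⟨i', hi', rfl, h2⟩
    · rintro ⟨i', hi', rfl, h2⟩
      exact ⟨mem_sel34 hh hi', by rw [gb_eq, h2]⟩
  unfold ew
  by_cases c1 : ((opAt ops h).1 || (opAt ops h).2.1) = true ∧ i = (opAt ops h).2.2
  · have e : blk ops w (h, i) = {(3, h, i + 1), (3, h, i)} := by
      ext c
      simp only [hm, c1.1, true_and, mem_insert, mem_singleton, ← c1.2]
      constructor
      · rintro ⟨i', h1, rfl, h2⟩
        split_ifs at h2 with h3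
        · exact Or.inl (by rw [h3])
        · exact Or.inr (by rw [h2])
      · rintro (rfl | rfl)
        · exact ⟨i + 1, by omega, rfl, by simp⟩
        · exact ⟨i, hi, rfl, by simp⟩
    rw [if_pos c1, e, paths_two (by simp) (Sch_symm _ _ _) (by rw [mB_K rfl, if_neg (by simp; omega)])
      (hk i hi) (hk _ (by omega)), Sch_diag hh hi, Sch_diag hh (by omega), mB_K rfl,
      Sch_K hh hi hh (by omega), Hm_same (mem_sel.1 (mem_sel34 hh hi)).1
        (mem_sel.1 (mem_sel34 hh (show i + 1 < w by omega))).1 (by simp) rfl (by simp)]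
    obtain ⟨c2, rfl⟩ := c1
    revert c2
    simp only [src, tgt, dn, ltB]
    cases (opAt ops h).1 <;> cases (opAt ops h).2.1 <;> simp
  rw [if_neg c1]
  by_cases c2 : ((opAt ops h).1 || (opAt ops h).2.1) = true ∧ i = (opAt ops h).2.2 + 1
  · have e : blk ops w (h, i) = ∅ := by
      refine eq_empty_of_forall_notMem fun c hc => ?_
      obtain ⟨i', h1, rfl, h2⟩ := (hm c).1 hc
      simp only [c2.1, true_and] at h2
      split_ifs at h2 <;> omega
    rw [if_pos c2, e]
    exact paths_done (feas_empty _) rfl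
  · have e : blk ops w (h, i) = {(3, h, i)} := by
      ext c
      simp only [hm, mem_singleton]
      constructor
      · rintro ⟨i', h1, rfl, h2⟩
        split_ifs at h2 with h3
        · exact absurd ⟨h3.1, h2.symm⟩ c1
        · rw [h2]
      · rintro rfl
        exact ⟨i, hi, rfl, if_neg c2⟩
    have o : ∀ k : Cls → ℕ, od {((3, h, i) : Cls)} k =
        if Odd (k (3, h, i)) then {(3, h, i)} else ∅ := fun k => filter_singleton _ _
    have o2 : ¬ Odd 2 := by decide
    rw [if_neg c2, e, paths_one (by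
      rw [mB_K rfl, if_neg (fun h3 => c2 ⟨by simp [h3.1], h3.2⟩)]) (hk i hi)]
    simp [FE, o, hk i hi, feas_empty, feas_singleton, Sch_diag hh hi, o2]

/-- Blocks of a given parity. -/
def Gam (T w r : ℕ) : Finset (ℕ × ℕ) := (range T ×ˢ range w).filter fun γ => γ.1 % 2 = r

theorem phase_W (hn : Even n) (hops : ∀ h < ops.length, (opAt ops h).2.2 + 1 < w)
    {y : ℕ → ℕ → Bool} {r : ℕ} (hr : r < 2) {k : Cls → ℕ}
    (h0 : Le (SB ops.length w) (mB ops n) k) (h1 : St ops.length w y k)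
    (h2 : rem (sel ops.length w 1 2) (mB ops n) k = 0)
    (h3 : ∀ c ∈ sel ops.length w 3 4, kd c ≠ 3 + r → ¬ Odd (k c))
    (h4 : ∀ c ∈ sel ops.length w (3 + r) (3 + r), k c = 0) :
    (paths (sel ops.length w (3 + r) (3 + r)) (FE (Hm ops w) (SB ops.length w)) (mB ops n) k : ℚ) =
      (rem (sel ops.length w (3 + r) (3 + r)) (mB ops n) 0).factorial *
      ∏ γ ∈ Gam ops.length w r, ((ew (opAt ops γ.1) n (y γ.1) (y (γ.1 + 1)) γ.2 : ℚ) /
        (rem (blk ops w γ) (mB ops n) 0).factorial) := by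
  have hG : ∀ c ∈ sel ops.length w 3 4, (gb ops c ∈ Gam ops.length w r ↔ kd c = 3 + r) := by
    intro c hc
    obtain ⟨h, i, rfl, hh, hi⟩ := sel34 hc
    have := kd_spec (3, h, i)
    have := hops h hh
    simp only [Gam, gb_eq, mem_filter, mem_product, mem_range] at *
    split_ifs <;> omega
  have e : sel ops.length w (3 + r) (3 + r) = (Gam ops.length w r).biUnion (blk ops w) := by
    ext c
    simp only [mem_biUnion, blk, mem_filter]
    constructor
    · intro hc
      obtain ⟨a1, a2⟩ := mem_sel.1 hc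
      have : c ∈ sel ops.length w 3 4 := mem_sel.2 ⟨a1, by omega⟩
      exact ⟨_, (hG c this).2 (by omega), this, rfl⟩
    · rintro ⟨_, a1, a2, rfl⟩
      exact mem_sel.2 ⟨(mem_sel.1 a2).1, Or.inl ((hG c a2).1 a1)⟩
  rw [← rem_congr (m := mB ops n) (k' := 0) (fun _ _ => rfl) h4]
  rw [e] at h4 ⊢
  rw [paths_shuffle (Gam ops.length w r) (blk ops w) (fun γ _ δ _ hne => disjoint_left.2
    fun c a1 a2 => hne ((mem_filter.1 a1).2.symm.trans (mem_filter.1 a2).2))
    (fun γ => FE (Sch ops w (Fy ops.length w y)) (blk ops w γ)) (mB ops n)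
    (fun k => Le (SB ops.length w) (mB ops n) k ∧ St ops.length w y k ∧
      rem (sel ops.length w 1 2) (mB ops n) k = 0 ∧
      ∀ c ∈ sel ops.length w 3 4, kd c ≠ 3 + r → ¬ Odd (k c)) ?_ ?_ ?_ k ⟨h0, h1, h2, h3⟩]
  · congr 1
    refine prod_congr rfl fun γ hγ => ?_
    have hγ' := hγ
    simp only [Gam, mem_filter, mem_product, mem_range] at hγ'
    rw [paths_blk hops hγ'.1.1 hγ'.1.2, rem_congr (k' := 0) (fun _ _ => rfl) fun c hc =>
      h4 c (mem_biUnion.2 ⟨γ, hγ, hc⟩)]
    intro i hi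
    rw [← e] at h4
    refine h4 _ (mem_sel.2 ⟨(mem_sel.1 (mem_sel34 hγ'.1.1 hi)).1, ?_⟩)
    have := kd_spec (3, γ.1, i)
    simp only at this
    omega
  · rintro k ⟨a1, a2, a3, a4⟩ c hc
    have hc' := (mem_av.1 hc).1
    rw [← e] at hc'
    obtain ⟨b1, b2⟩ := mem_sel.1 hc'
    refine ⟨a1.bump hc, a2.bump (by have := kd_SB b1; omega), rem_zero_bump a3 c, fun d hd h => ?_⟩
    rw [bump_ne _ (by rintro rfl; omega)]
    exact a4 d hd h
  · rintro k ⟨a1, a2, a3, a4⟩
    rw [fe_phase hn a1 a2 a3, feas_blocks (gb ops)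
      (fun a ha b hb => Sch_gb (mem_od.1 ha).1 (mem_od.1 hb).1)]
    have : ∀ γ, (od (sel ops.length w 3 4) k).filter (fun c => gb ops c = γ) =
        od (blk ops w γ) k := fun γ => filter_comm _ _ _
    simp only [this]
    refine ⟨fun h γ _ => h γ, fun h γ => ?_⟩
    by_cases hγ : γ ∈ Gam ops.length w r
    · exact h γ hγ
    · rw [eq_empty_of_forall_notMem (s := od (blk ops w γ) k)]
      · exact feas_empty _
      · intro c hc
        obtain ⟨b1, b2⟩ := mem_od.1 hc
        obtain ⟨b3, rfl⟩ := mem_filter.1 b1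
        exact a4 c b3 (fun h => hγ ((hG c b3).2 h)) b2
  · intro γ _ c _ hc k
    unfold FE
    rw [od_congr fun d hd => bump_ne k (ne_of_mem_of_not_mem hd hc)]

end Pool.Agent.MP_f00251_lc.H81

end MrgPart0

-- ======== part 1: formerly Pool.Agent.MP_f00251_lc.H81.Final
section MrgPart1

/-!
The number of paths that respect the order of the phases.
-/

set_option autoImplicit false
set_option linter.unusedSectionVars false
set_option linter.unusedVariables false

namespace Pool.Agent.MP_f00251_lc.H81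

open Finset Pool.Agent.H82

/-- Extension of a finite sequence by a default value. -/
def xt {α : Type} (d : α) {n : ℕ} (f : Fin n → α) (i : ℕ) : α := if h : i < n then f ⟨i, h⟩ else d

/-- A table of truth values. -/
def val {T w : ℕ} (σ : Fin T → Fin w → Bool) (h : ℕ) : ℕ → Bool :=
  xt false (xt (fun _ => false) σ h)

theorem val_apply {T w : ℕ} (σ : Fin T → Fin w → Bool) {h i : ℕ} (hh : h < T) (hi : i < w) :
    val σ h i = σ ⟨h, hh⟩ ⟨i, hi⟩ := by simp [val, xt, hh, hi]

variable {ops : List Op} {w n : ℕ}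

/-- The constraints on the paths. -/
def PhiB (ops : List Op) (w n : ℕ) (k : Cls → ℕ) : Prop :=
  (FE (Hm ops w) (SB ops.length w) k ∧
    prec (sel ops.length w 1 2) (sel ops.length w 3 4) (mB ops n) k ∧ InvT ops.length w k) ∧
  (rem (sel ops.length w 2 3) (mB ops n) k ≠ 0 →
    (ops.length + 1) * w + rem (sel ops.length w 4 4) (mB ops n) 0 ≤
      rem (SB ops.length w \ sel ops.length w 2 3) (mB ops n) k)

/-- All the constraints on the paths. -/
def PhiS (ops : List Op) (w n : ℕ) (k : Cls → ℕ) : Prop :=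
  PhiB ops w n k ∧ (rem (sel ops.length w 1 4) (mB ops n) k ≠ 0 →
    (ops.length + 1) * w ≤ rem (SB ops.length w \ sel ops.length w 1 4) (mB ops n) k)

theorem rem_arith (m k : Cls → ℕ) (T w : ℕ) :
    rem (sel T w 1 2) m k = rem (sel T w 1 1) m k + rem (sel T w 2 2) m k ∧
    rem (sel T w 3 4) m k = rem (sel T w 3 3) m k + rem (sel T w 4 4) m k ∧
    rem (sel T w 2 3) m k = rem (sel T w 2 2) m k + rem (sel T w 3 3) m k ∧
    rem (sel T w 1 4) m k = rem (sel T w 1 1) m k + rem (sel T w 4 4) m k ∧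
    rem (SB T w \ sel T w 2 3) m k =
      rem (sel T w 0 0) m k + rem (sel T w 1 1) m k + rem (sel T w 4 4) m k ∧
    rem (SB T w \ sel T w 1 4) m k =
      rem (sel T w 0 0) m k + rem (sel T w 2 2) m k + rem (sel T w 3 3) m k := by
  have a1 := rem_sel T w (show 1 ≠ 2 by decide) m k
  have a2 := rem_sel T w (show 3 ≠ 4 by decide) m k
  have a3 := rem_sel T w (show 2 ≠ 3 by decide) m k
  have a4 := rem_sel T w (show 1 ≠ 4 by decide) m k
  have a5 := rem_SB T w m k
  have a6 := rem_sdiff (sel_subset T w 2 3) m k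
  have a7 := rem_sdiff (sel_subset T w 1 4) m k
  omega

theorem not_done {S : Finset Cls} {m k : Cls → ℕ} {c : Cls} (hc : c ∈ av S m k) {A : Finset Cls}
    (h : rem A m k = 0) : c ∉ A := fun h' => by
  have := rem_eq_zero.1 h c h'
  have := (mem_av.1 hc).2
  omega

theorem phase_last (hn : Even n) {k : Cls → ℕ} (h0 : Le (SB ops.length w) (mB ops n) k)
    (h1 : ∀ j ∈ cells ops.length w, 0 < k (0, j) + k (1, j))
    (h2 : rem (sel ops.length w 1 2) (mB ops n) k = 0)
    (h3 : rem (sel ops.length w 3 4) (mB ops n) k = 0) :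
    paths (SB ops.length w) (PhiS ops w n) (mB ops n) k =
      (rem (sel ops.length w 0 0) (mB ops n) k).factorial := by
  have e := rem_arith (mB ops n) k ops.length w
  rw [paths_free (fun k => Le (SB ops.length w) (mB ops n) k ∧
    (∀ j ∈ cells ops.length w, 0 < k (0, j) + k (1, j)) ∧
    rem (sel ops.length w 1 2) (mB ops n) k = 0 ∧ rem (sel ops.length w 3 4) (mB ops n) k = 0)
    ?_ ?_ ?_ k ⟨h0, h1, h2, h3⟩, rem_SB]
  · congr 1; omega
  · rintro k ⟨a0, a1, a2, a3⟩ c hc
    refine ⟨a0.bump hc, fun j hj => ?_, rem_zero_bump a2 c, rem_zero_bump a3 c⟩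
    have := a1 j hj
    have := le_bump k c (0, j)
    have := le_bump k c (1, j)
    omega
  · rintro k ⟨a0, a1, a2, a3⟩
    have e := rem_arith (mB ops n) k ops.length w
    refine ⟨⟨⟨feas_identity Hm_symm fun a ha b hb => ?_, fun _ => a2, fun j hj _ => a1 j hj⟩,
      by omega⟩, by omega⟩
    have key : ∀ a ∈ od (SB ops.length w) k, a.1 < 2 := by
      intro a ha
      obtain ⟨b1, b2⟩ := mem_od.1 ha
      rcases kd_SB b1 with e | e | e
      · exact e.1
      · exact absurd b2 (not_odd_of_done hn a0 a2 b1 (by omega) (by omega))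
      · exact absurd b2 (not_odd_of_done hn a0 a3 b1 (by omega) (by omega))
    exact Hm_EE (mem_od.1 ha).1 (mem_od.1 hb).1 (key a ha) (key b hb)
  · rintro k ⟨a0, a1, a2, a3⟩ c hc
    rcases kd_SB hc with e | e | e
    · rw [mB_E e.1]; omega
    · have := rem_eq_zero.1 a2 c (mem_sel.2 ⟨hc, by omega⟩); omega
    · have := rem_eq_zero.1 a3 c (mem_sel.2 ⟨hc, by omega⟩); omega

/-- Contribution of the blocks of parity `r`. -/
noncomputable def VW (ops : List Op) (w n r : ℕ) (y : ℕ → ℕ → Bool) : ℚ :=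
  (rem (sel ops.length w (3 + r) (3 + r)) (mB ops n) 0).factorial *
    ∏ γ ∈ Gam ops.length w r, ((ew (opAt ops γ.1) n (y γ.1) (y (γ.1 + 1)) γ.2 : ℚ) /
      (rem (blk ops w γ) (mB ops n) 0).factorial)

theorem phase_V (hn : Even n) (hops : ∀ h < ops.length, (opAt ops h).2.2 + 1 < w)
    {y : ℕ → ℕ → Bool} {k : Cls → ℕ} (h0 : Le (SB ops.length w) (mB ops n) k)
    (h1 : St ops.length w y k) (h2 : rem (sel ops.length w 1 2) (mB ops n) k = 0)
    (h3 : rem (sel ops.length w 3 3) (mB ops n) k = 0)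
    (h4 : ∀ c ∈ sel ops.length w 4 4, k c = 0) :
    (paths (SB ops.length w) (PhiS ops w n) (mB ops n) k : ℚ) =
      VW ops w n 1 y * ((ops.length + 1) * w).factorial := by
  rw [paths_seqQ (sel_subset ops.length w 4 4) (Ψ' := FE (Hm ops w) (SB ops.length w))
    ((ops.length + 1) * w).factorial (fun k => Le (SB ops.length w) (mB ops n) k ∧
      St ops.length w y k ∧ rem (sel ops.length w 1 2) (mB ops n) k = 0 ∧
      rem (sel ops.length w 3 3) (mB ops n) k = 0) ?_ ?_ ?_ ?_ k ⟨h0, h1, h2, h3⟩,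
    phase_W hn hops (r := 1) (by decide) h0 h1 h2 (fun c hc h => ?_) h4, VW]
  · obtain ⟨a1, a2⟩ := mem_sel.1 hc
    have := kd_SB a1
    exact not_odd_of_done hn h0 h3 a1 (by omega) (by omega)
  · rintro k ⟨a0, a1, a2, a3⟩ c hc
    obtain ⟨b1, b2⟩ := mem_sel.1 (mem_av.1 hc).1
    exact ⟨a0.bump hc, a1.bump (by have := kd_SB b1; omega), rem_zero_bump a2 c,
      rem_zero_bump a3 c⟩
  · rintro k ⟨a0, a1, a2, a3⟩
    have e := rem_arith (mB ops n) k ops.length w
    have := a1.rem (n := n)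
    exact ⟨fun h => h.1.1.1, fun h => ⟨⟨⟨h, fun _ => a2, a1.inv⟩, by omega⟩, by omega⟩⟩
  · rintro k ⟨a0, a1, a2, a3⟩ a4 c hc hc' h
    have e := rem_arith (mB ops n) k ops.length w
    have e' := rem_arith (mB ops n) (bump k c) ops.length w
    have := a1.rem (n := n)
    have b1 := not_done hc a2
    have b2 := not_done hc a3
    have b3 := (mem_av.1 hc).1
    have b4 : c ∈ av (SB ops.length w \ sel ops.length w 1 4) (mB ops n) k := mem_av.2
      ⟨mem_sdiff.2 ⟨b3, by simp only [mem_sel, b3, true_and] at b1 hc' ⊢; omega⟩, (mem_av.1 hc).2⟩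
    have b5 := rem_bump b4
    have b6 := rem_bump_out (mB ops n) k hc'
    have := h.2
    omega
  · rintro k ⟨a0, a1, a2, a3⟩ a4 _
    have e := rem_arith (mB ops n) k ops.length w
    rw [phase_last hn a0 (fun j hj => a1.inv j hj (by have := done_T a2 hj; omega)) a2 (by omega),
      a1.rem]

theorem phase_U (hn : Even n) (hops : ∀ h < ops.length, (opAt ops h).2.2 + 1 < w)
    {y : ℕ → ℕ → Bool} {k : Cls → ℕ} (h0 : Le (SB ops.length w) (mB ops n) k)
    (h1 : St ops.length w y k) (h2 : rem (sel ops.length w 1 2) (mB ops n) k = 0)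
    (h4 : ∀ c ∈ sel ops.length w 3 4, k c = 0) :
    (paths (SB ops.length w) (PhiS ops w n) (mB ops n) k : ℚ) =
      VW ops w n 0 y * (VW ops w n 1 y * ((ops.length + 1) * w).factorial) := by
  have s3 : ∀ c ∈ sel ops.length w 3 3, c ∈ sel ops.length w 3 4 := fun c hc =>
    mem_sel.2 ⟨(mem_sel.1 hc).1, by have := (mem_sel.1 hc).2; omega⟩
  have s4 : ∀ c ∈ sel ops.length w 4 4, c ∈ sel ops.length w 3 4 := fun c hc =>
    mem_sel.2 ⟨(mem_sel.1 hc).1, by have := (mem_sel.1 hc).2; omega⟩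
  rw [paths_seqQ (sel_subset ops.length w 3 3) (Ψ' := FE (Hm ops w) (SB ops.length w))
    (VW ops w n 1 y * ((ops.length + 1) * w).factorial)
    (fun k => Le (SB ops.length w) (mB ops n) k ∧
      St ops.length w y k ∧ rem (sel ops.length w 1 2) (mB ops n) k = 0 ∧
      ∀ c ∈ sel ops.length w 4 4, k c = 0) ?_ ?_ ?_ ?_ k ⟨h0, h1, h2, fun c hc => h4 c (s4 c hc)⟩,
    phase_W hn hops (r := 0) (by decide) h0 h1 h2 (fun c hc h => by simp [h4 c hc])
      (fun c hc => h4 c (s3 c hc))]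
  · rfl
  · rintro k ⟨a0, a1, a2, a3⟩ c hc
    obtain ⟨b1, b2⟩ := mem_sel.1 (mem_av.1 hc).1
    refine ⟨a0.bump hc, a1.bump (by have := kd_SB b1; omega), rem_zero_bump a2 c, fun d hd => ?_⟩
    rw [bump_ne _ (by rintro rfl; have := (mem_sel.1 hd).2; omega), a3 d hd]
  · rintro k ⟨a0, a1, a2, a3⟩
    have e := rem_arith (mB ops n) k ops.length w
    have := a1.rem (n := n)
    have := rem_congr (m := mB ops n) (k' := 0) (fun _ _ => rfl) a3
    exact ⟨fun h => h.1.1.1, fun h => ⟨⟨⟨h, fun _ => a2, a1.inv⟩, by omega⟩, by omega⟩⟩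
  · rintro k ⟨a0, a1, a2, a3⟩ a4 c hc hc' h
    have e := rem_arith (mB ops n) k ops.length w
    have e' := rem_arith (mB ops n) (bump k c) ops.length w
    have := a1.rem (n := n)
    have := rem_congr (m := mB ops n) (k' := 0) (fun _ _ => rfl) a3
    have b1 := not_done hc a2
    have b3 := (mem_av.1 hc).1
    have b4 : c ∈ av (SB ops.length w \ sel ops.length w 2 3) (mB ops n) k := mem_av.2
      ⟨mem_sdiff.2 ⟨b3, by simp only [mem_sel, b3, true_and] at b1 hc' ⊢; omega⟩, (mem_av.1 hc).2⟩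
    have b5 := rem_bump b4
    have b6 := rem_bump_out (mB ops n) k hc'
    have := h.1.2
    omega
  · rintro k ⟨a0, a1, a2, a3⟩ a4 _
    exact phase_V hn hops a0 a1 a2 a4 a3

/-- The chords pressed in the first phase. -/
def Ty (T w : ℕ) (y : ℕ → ℕ → Bool) : Finset Cls :=
  (cells T w).biUnion fun j => {(2, j), ((y j.1 j.2).toNat, j)}

theorem mem_Ty {T : ℕ} {y : ℕ → ℕ → Bool} {c : Cls} :
    c ∈ Ty T w y ↔ c ∈ SB T w ∧ (c.1 = 2 ∨ c.1 = (y c.2.1 c.2.2).toNat) := by
  obtain ⟨t, j⟩ := c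
  simp only [Ty, mem_biUnion, mem_insert, mem_singleton, Prod.mk.injEq]
  constructor
  · rintro ⟨j', h1, ⟨rfl, rfl⟩ | ⟨rfl, rfl⟩⟩
    · exact ⟨(cell_mem le_rfl).2 h1, Or.inl rfl⟩
    · exact ⟨(cell_mem (by have := Bool.toNat_lt (y j.1 j.2); omega)).2 h1, Or.inr rfl⟩
  · rintro ⟨h1, h2⟩
    exact ⟨j, cell_of_mem h1, by simpa using h2⟩

theorem phase_T (y : ℕ → ℕ → Bool) :
    (paths (Ty ops.length w y) (fun k => FE (Hm ops w) (SB ops.length w) k ∧ InvT ops.length w k)
      (mB ops n) 0 : ℚ) = (3 * ((ops.length + 1) * w)).factorial / 6 ^ ((ops.length + 1) * w) := by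
  have ne : ∀ j : ℕ × ℕ, (((y j.1 j.2).toNat, j) : Cls) ≠ (2, j) := fun j h => by
    have := Bool.toNat_lt (y j.1 j.2)
    have := congrArg Prod.fst h
    simp only at this
    omega
  have r3 : ∀ j : ℕ × ℕ, rem {(2, j), ((y j.1 j.2).toNat, j)} (mB ops n) 0 = 3 := fun j => by
    rw [rem, sum_pair (ne j).symm, mB_T rfl, mB_E (Bool.toNat_lt _)]; rfl
  have hd : ∀ γ ∈ cells ops.length w, ∀ δ ∈ cells ops.length w, γ ≠ δ → Disjoint
      ({(2, γ), ((y γ.1 γ.2).toNat, γ)} : Finset Cls) {(2, δ), ((y δ.1 δ.2).toNat, δ)} := by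
    intro γ _ δ _ hne
    simp [hne.symm]
  rw [Ty, paths_shuffle (cells ops.length w) _ hd
    (fun j k => 0 < k (2, j) → 0 < k ((y j.1 j.2).toNat, j)) (mB ops n)
    (fun k => Le (SB ops.length w) (mB ops n) k ∧
      ∀ c ∈ SB ops.length w \ Ty ops.length w y, k c = 0) ?_ ?_ ?_ 0
      ⟨le_zero _ _, fun _ _ => rfl⟩, rem, sum_biUnion hd]
  · rw [prod_congr rfl (g := fun _ => 1 / 6) fun j _ => by
      rw [paths_wait (ne j) (mB_E (Bool.toNat_lt _)) (mB_T rfl) rfl rfl, r3]; norm_num]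
    rw [sum_congr rfl (f := fun x : ℕ × ℕ => ∑ i ∈ ({(2, x), ((y x.1 x.2).toNat, x)} : Finset Cls),
      (mB ops n i - (0 : Cls → ℕ) i)) (g := fun _ => 3) fun j _ => r3 j]
    simp [card_cells, mul_comm, div_eq_mul_inv]
  · rintro k ⟨a0, a1⟩ c hc
    refine ⟨a0.bump hc, fun d hd => ?_⟩
    rw [bump_ne _ (ne_of_mem_of_not_mem (mem_av.1 hc).1 (mem_sdiff.1 hd).2).symm, a1 d hd]
  · rintro k ⟨a0, a1⟩
    have z : ∀ j ∈ cells ops.length w, k ((!y j.1 j.2).toNat, j) = 0 := fun j hj =>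
      a1 _ (mem_sdiff.2 ⟨(cell_mem (by have := Bool.toNat_lt (!y j.1 j.2); omega)).2 hj, by
        rw [mem_Ty]; cases y j.1 j.2 <;> simp⟩)
    have e : ∀ j ∈ cells ops.length w, k (0, j) + k (1, j) = k ((y j.1 j.2).toNat, j) := by
      intro j hj
      have := z j hj
      revert this
      cases y j.1 j.2 <;> simp
    refine ⟨fun h j hj h' => e j hj ▸ h.2 j hj h', fun h => ⟨?_, fun j hj h' =>
      e j hj ▸ h j hj h'⟩⟩
    have e1 : od (SB ops.length w) k =
        od (sel ops.length w 0 0) k ∪ od (sel ops.length w 1 2) k := by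
      ext c
      simp only [mem_od, mem_union, mem_sel]
      refine ⟨fun ⟨b1, b2⟩ => ?_, fun h => by tauto⟩
      simp only [b1, b2, and_true, true_and]
      rcases kd_SB b1 with e | e | e
      · omega
      · omega
      · rw [a1 c (mem_sdiff.2 ⟨b1, fun h => by
          have := (mem_Ty.1 h).2; have := Bool.toNat_lt (y c.2.1 c.2.2); omega⟩)] at b2
        simp at b2
    have hF : ∀ e ∈ od (sel ops.length w 0 0) k, e ∈ SB ops.length w ∧ e.1 < 2 := fun e he => by
      obtain ⟨b1, b2⟩ := mem_sel.1 (mem_od.1 he).1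
      exact ⟨b1, by have := kd_SB b1; omega⟩
    have hO : ∀ c ∈ od (sel ops.length w 1 2) k, c ∈ SB ops.length w ∧ c.1 = 2 := fun c hc => by
      obtain ⟨b1, b2⟩ := mem_sel.1 (mem_od.1 hc).1
      exact ⟨b1, by have := kd_SB b1; omega⟩
    rw [FE, e1, feas_Sch hF fun c hc => (hO c hc).2.ge]
    refine feas_identity (Sch_symm _) ?_
    rintro ⟨t, j⟩ ha ⟨t', j'⟩ hb
    obtain ⟨b1, rfl⟩ := hO _ ha
    obtain ⟨b3, rfl⟩ := hO _ hb
    rw [Sch, schur_nb hF b1 b3 le_rfl le_rfl]
    by_cases c : j = j'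
    · subst c
      have hj := cell_of_mem b1
      have c1 := h j hj (mem_od.1 ha).2.pos
      have c2 := a0 _ ((cell_mem (t := (y j.1 j.2).toNat)
        (by have := Bool.toNat_lt (y j.1 j.2); omega)).2 hj)
      rw [mB_E (Bool.toNat_lt _)] at c2
      have c3 := le_antisymm c2 c1
      have c4 := z j hj
      have c5 : ∀ t < 2, ((t, j) : Cls) ∈ sel ops.length w 0 0 := fun t ht =>
        mem_sel.2 ⟨(cell_mem (by omega)).2 hj, by have := kd_spec (t, j); simp only at this; omega⟩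
      rw [Hm, cm_self]
      revert c3 c4
      cases y j.1 j.2 <;> simp +contextual [nb, eqB, lv, ltB, b2, mem_od, c5]
    · rw [Hm_same b1 b3 le_rfl rfl (by simpa using c)]
      simp [nb, eqB, c]
  · intro j _ c _ hc k
    simp only [mem_insert, mem_singleton, not_or] at hc
    rw [bump_ne _ (Ne.symm hc.1), bump_ne _ (Ne.symm hc.2)]

theorem rem_K_pos {r : ℕ} (hr : r < ops.length) (hr2 : r < 2) (hw : 0 < w) :
    rem (sel ops.length w (3 + r) (3 + r)) (mB ops n) 0 ≠ 0 := fun h => by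
  have := rem_eq_zero.1 h (3, r, 0) (mem_sel.2 ⟨mem_SB.2 ⟨hw, Or.inr ⟨rfl, hr⟩⟩, by
    have := kd_spec (3, r, 0); simp only at this; omega⟩)
  rw [mB_K rfl] at this
  simp at this

theorem final_count (hn : Even n) (hops : ∀ h < ops.length, (opAt ops h).2.2 + 1 < w)
    (hT : 0 < ops.length) :
    (paths (SB ops.length w) (PhiS ops w n) (mB ops n) 0 : ℚ) =
      ∑ σ : Fin (ops.length + 1) → Fin w → Bool,
        (3 * ((ops.length + 1) * w)).factorial / 6 ^ ((ops.length + 1) * w) *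
        (VW ops w n 0 (val σ) * (VW ops w n 1 (val σ) * ((ops.length + 1) * w).factorial)) := by
  have hw : 0 < w := by have := hops 0 hT; omega
  have hW : ∀ y, ∀ c ∈ sel ops.length w 3 4, c ∈ SB ops.length w \ Ty ops.length w y := by
    intro y c hc
    obtain ⟨b1, b2⟩ := mem_sel.1 hc
    refine mem_sdiff.2 ⟨b1, fun h => ?_⟩
    have := (mem_Ty.1 h).2
    have := Bool.toNat_lt (y c.2.1 c.2.2)
    have := kd_SB b1
    omega
  have hE : ∀ y : ℕ → ℕ → Bool, ∀ j ∈ cells ops.length w,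
      (((!y j.1 j.2).toNat, j) : Cls) ∈ SB ops.length w \ Ty ops.length w y := fun y j hj =>
    mem_sdiff.2 ⟨(cell_mem (by have := Bool.toNat_lt (!y j.1 j.2); omega)).2 hj, by
      rw [mem_Ty]; cases y j.1 j.2 <;> simp⟩
  rw [paths_branch univ (A := sel ops.length w 1 2)
    (fun σ : Fin (ops.length + 1) → Fin w → Bool => Ty ops.length w (val σ))
    (fun σ _ c hc => mem_Ty.2 ⟨(mem_sel.1 hc).1, by
      have := kd_SB (mem_sel.1 hc).1; have := (mem_sel.1 hc).2; omega⟩)
    (fun σ _ c hc => (mem_Ty.1 hc).1) (sel_subset _ _ _ _)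
    (Ψ' := fun k => FE (Hm ops w) (SB ops.length w) k ∧ InvT ops.length w k)
    (fun σ => VW ops w n 0 (val σ) * (VW ops w n 1 (val σ) * ((ops.length + 1) * w).factorial))
    (fun k => ∀ c ∈ sel ops.length w 3 4, k c = 0) ?_ ?_ ?_ 0 (le_zero _ _) (fun _ _ _ => rfl)]
  · exact sum_congr rfl fun σ _ => by rw [if_pos (by simp), phase_T]
  · intro k h1 h2 c hc h3 d hd
    rw [bump_ne, h1 d hd]
    rintro rfl
    have := h3.1.1.2.1 ⟨d, hd, by simp⟩
    rw [rem_bump_out] at this
    · exact h2 this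
    · intro h
      have := (mem_sel.1 h).2
      have := (mem_sel.1 hd).2
      omega
  · intro σ _ k h1 h2
    have e := rem_arith (mB ops n) k ops.length w
    have e1 : rem (sel ops.length w 4 4) (mB ops n) k = rem (sel ops.length w 4 4) (mB ops n) 0 :=
      rem_congr (fun _ _ => rfl) fun c hc => h2 c (hW _ c
        (mem_sel.2 ⟨(mem_sel.1 hc).1, by have := (mem_sel.1 hc).2; omega⟩))
    have e2 : (ops.length + 1) * w ≤ rem (sel ops.length w 0 0) (mB ops n) k := by
      rw [rem_E, ← card_cells, card_eq_sum_ones]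
      refine sum_le_sum fun j hj => ?_
      have := h2 _ (hE (val σ) j hj)
      revert this
      cases val σ j.1 j.2 <;> simp +contextual
    refine ⟨fun h => ⟨h.1.1.1, h.1.1.2.2⟩, fun h => ⟨⟨⟨h.1, ?_, h.2⟩, by omega⟩, by omega⟩⟩
    rintro ⟨c, hc, h3⟩
    rw [h2 c (hW _ c hc)] at h3
    omega
  · intro k h1 h0 h2 h3
    have e := rem_arith (mB ops n) k ops.length w
    have e1 : ∀ r, rem (sel ops.length w (3 + r) (3 + r)) (mB ops n) k =
        rem (sel ops.length w (3 + r) (3 + r)) (mB ops n) 0 := fun r =>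
      rem_congr (fun _ _ => rfl) fun c hc => h1 c
        (mem_sel.2 ⟨(mem_sel.1 hc).1, by
          have := (mem_sel.1 hc).2; have := kd_SB (mem_sel.1 hc).1; omega⟩)
    have e2 := rem_K_pos (n := n) hT (by decide) hw
    have e3 := e1 0
    have e4 := e1 1
    have e5 := h2.1.2
    have e6 : ∑ j ∈ cells ops.length w, 1 ≤ rem (sel ops.length w 0 0) (mB ops n) k := by
      rw [← card_eq_sum_ones, card_cells]
      simp only [add_zero, Nat.reduceAdd] at e2 e3 e4
      omega
    rw [rem_E] at e6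
    have e7 : ∀ j ∈ cells ops.length w, 0 < k (0, j) + k (1, j) := fun j hj =>
      h2.1.1.2.2 j hj (by have := done_T h3 hj; omega)
    have e8 : ∀ j ∈ cells ops.length w, 1 - k (0, j) + (1 - k (1, j)) ≤ 1 := fun j hj => by
      have := e7 j hj; omega
    have e9 := (sum_eq_sum_iff_of_le e8).1 (le_antisymm (sum_le_sum e8) e6)
    have e10 : ∀ j ∈ cells ops.length w,
        (k (0, j) = 0 ∧ k (1, j) = 1) ∨ (k (0, j) = 1 ∧ k (1, j) = 0) := fun j hj => by
      have := e7 j hj
      have := e9 j hj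
      have := h0 _ ((cell_mem (t := 0) (by omega)).2 hj)
      have := h0 _ ((cell_mem (t := 1) (by omega)).2 hj)
      rw [mB_E (by simp)] at *
      omega
    let σ₀ : Fin (ops.length + 1) → Fin w → Bool := fun h i => decide (0 < k (1, h, i))
    have v0 : ∀ j ∈ cells ops.length w, val σ₀ j.1 j.2 = decide (0 < k (1, j)) := fun j hj => by
      rw [val_apply σ₀ (Nat.lt_succ_of_le (mem_cells.1 hj).1) (mem_cells.1 hj).2]
    have s0 : St ops.length w (val σ₀) k := fun j hj s => by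
      rw [v0 j hj]
      rcases e10 j hj with a | a <;> cases s <;> simp [a]
    rw [phase_U hn hops h0 s0 h3 h1, sum_eq_single σ₀, if_pos, paths_done
      (Ψ := fun k => FE (Hm ops w) (SB ops.length w) k ∧ InvT ops.length w k)
      ⟨h2.1.1.1, h2.1.1.2.2⟩, Nat.cast_one, one_mul]
    · refine rem_eq_zero.2 fun ⟨t, j⟩ hc => ?_
      obtain ⟨b1, b3⟩ := mem_Ty.1 hc
      simp only at b3
      rcases b3 with rfl | rfl
      · rw [mB_T rfl]; exact done_T h3 (cell_of_mem b1)
      · rw [mB_E (Bool.toNat_lt _), s0 j (cell_of_mem b1), if_pos rfl]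
    · rintro ⟨t, j⟩ hc
      obtain ⟨b1, b2⟩ := mem_sdiff.1 hc
      simp only [mem_Ty, b1, true_and, not_or] at b2
      rcases kd_SB b1 with a | a | a
      · have a1 : t = (!val σ₀ j.1 j.2).toNat := by
          have := a.1
          revert b2
          cases val σ₀ j.1 j.2 <;> simp <;> omega
        rw [a1, s0 j (cell_of_mem b1)]
        simp
      · exact absurd a.1 b2.1
      · exact h1 _ (mem_sel.2 ⟨b1, by omega⟩)
    · intro σ _ hne
      refine if_neg fun h => hne ?_
      funext a b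
      have hj : ((a : ℕ), (b : ℕ)) ∈ cells ops.length w :=
        mem_cells.2 ⟨Nat.le_of_lt_succ a.2, b.2⟩
      have := h _ (hE (val σ) _ hj)
      rw [val_apply σ a.2 b.2] at this
      revert this
      simp only [σ₀, Fin.eta]
      rcases e10 _ hj with c | c <;> cases σ a b <;> simp [c]
    · simp

end Pool.Agent.MP_f00251_lc.H81

end MrgPart1

-- ======== part 2: formerly Pool.Agent.MP_f00251_lc.H81.Gadgets
section MrgPart2

/-!
Elimination of the auxiliary chords.
-/

set_option autoImplicit false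
set_option linter.unusedSectionVars false
set_option linter.unusedVariables false

namespace Pool.Agent.MP_f00251_lc.H81

open Finset Function Pool.Agent.H82

section
variable {C : Type} [DecidableEq C]

theorem prec_congr {A B : Finset C} {m m' k k' : C → ℕ} (h0 : ∀ c ∈ A, m c = m' c)
    (h1 : ∀ c ∈ A, k c = k' c) (h2 : ∀ c ∈ B, k c = k' c) : prec A B m k ↔ prec A B m' k' := by
  unfold prec
  rw [rem_congr h0 h1]
  exact imp_congr_left (exists_congr fun c => and_congr_right fun hc => by rw [h2 c hc])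

theorem fe_isolated {H : C → C → F2} (hs : ∀ a b, H a b = H b a) {S : Finset C} {d : C}
    (hd : d ∉ S) (h1 : H d d = 1) (h0 : ∀ c ∈ S, H d c = 0) (k : C → ℕ) :
    FE H (insert d S) k ↔ FE H S k := by
  unfold FE
  rw [od_insert]
  split_ifs
  · rw [feas_press hs (fun h => hd (od_subset S k h)) h1]
    exact feas_congr fun a _ b hb => by rw [press, h0 b (od_subset S k hb), mul_zero, add_zero]
  · rfl

theorem fe_pendant {H : C → C → F2} (hs : ∀ a b, H a b = H b a) {S : Finset C} {x b : C}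
    (hx : x ∉ S) (hb : b ∉ S) (hxb : x ≠ b) (hbb : H b b = 0) (hxb1 : H x b = 1) {k : C → ℕ}
    (h1 : Odd (k x)) (h2 : Odd (k b)) (h3 : ∀ c ∈ S, Odd (k c) → H b c = 0) :
    FE H (insert x (insert b S)) k ↔ FE H S k := by
  unfold FE
  rw [od_insert, od_insert, if_pos h1, if_pos h2, insert_comm]
  exact feas_pendant hs (fun h => hb (od_subset S k h)) (fun h => hx (od_subset S k h)) hxb.symm
    hbb (by rw [hs, hxb1]) fun c hc => h3 c (mem_od.1 hc).1 (mem_od.1 hc).2

theorem rem_le_zero (A : Finset C) (m k : C → ℕ) : rem A m k ≤ rem A m 0 :=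
  sum_le_sum fun _ _ => Nat.sub_le _ _

theorem Z_start (S : Finset C) (x : C) (Ψ : (C → ℕ) → Prop) (m : C → ℕ) (r : ℕ) :
    Z S x Ψ m 0 r 0 = paths (insert x S) Ψ (update m x r) 0 := by
  rw [Z, zero_add, show update (0 : C → ℕ) x 0 = 0 from update_eq_self x 0]

theorem paths_iff {S : Finset C} {Ψ Ψ' : (C → ℕ) → Prop} (h : ∀ k, Ψ k ↔ Ψ' k) (m k : C → ℕ) :
    paths S Ψ m k = paths S Ψ' m k := by rw [funext fun k => propext (h k)]

theorem r_lemma' {S A B : Finset C} {x b : C} {H : C → C → F2} (hs : ∀ a b, H a b = H b a)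
    (hx : x ∉ S) (hb : b ∉ S) (hxb : x ≠ b) (hA : A ⊆ S) (hB : B ⊆ S) (hAB : Disjoint A B)
    (hxx : H x x = 0) (hbb : H b b = 0) (hxb1 : H x b = 1)
    (hxc : ∀ c ∈ S, H x c = if c ∈ B then 1 else 0)
    (hbc : ∀ c ∈ S, H b c = if c ∈ A then 1 else 0)
    (m m₀ : C → ℕ) (hm : ∀ c ∈ A, m c = m₀ c) (hmb : m b = 1) (hev : ∀ c ∈ A, Even (m₀ c))
    (hApos : rem A m₀ 0 ≠ 0) (hBpos : ∃ c ∈ B, 0 < m c) {Θ : (C → ℕ) → Prop}
    (hΘ : ∀ k k', (∀ c ∈ S, k c = k' c) → (Θ k ↔ Θ k')) :
    Nil (rem S m 0 + 2) (cns (2 * paths S (fun k => FE H S k ∧ (Θ k ∧ prec A B m₀ k)) m 0)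
      (fun u => paths (insert x (insert b S)) (fun k => FE H (insert x (insert b S)) k ∧ Θ k)
        (update m x (2 * u + 1)) 0)) := by
  have := r_lemma hs hx hb hxb hA hB hAB hxx hbb hxb1 hxc hbc m hmb
    (fun c hc => hm c hc ▸ hev c hc) (by rwa [rem_congr hm fun _ _ => rfl]) hBpos
    (fun k j => hΘ _ _ (update_out hx k j))
    (fun k => hΘ _ _ fun c hc => bump_ne k (ne_of_mem_of_not_mem hc hb))
  simp only [Z_start, and_assoc,
    prec_congr (B := B) hm (fun _ _ => rfl) (fun _ _ => rfl)] at this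
  exact this

end

/-- Chords of cells and edges with the two free bundles. -/
def S3 (T w : ℕ) : Finset Cls := insert (10, 0, 0) (insert (11, 0, 0) (SB T w))

/-- With one gadget. -/
def S2 (T w : ℕ) : Finset Cls := insert (8, 0, 0) (insert (9, 0, 0) (S3 T w))

/-- With two gadgets. -/
def S1 (T w : ℕ) : Finset Cls := insert (6, 0, 0) (insert (7, 0, 0) (S2 T w))

/-- With three gadgets. -/
def S0 (T w : ℕ) : Finset Cls := insert (4, 0, 0) (insert (5, 0, 0) (S1 T w))

variable (ops : List Op) (w n : ℕ)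

/-- Multiplicities. -/
def M2 (dV dU : ℕ) : Cls → ℕ := update (update (mB ops n) (11, 0, 0) dV) (10, 0, 0) dU

/-- Multiplicities. -/
def M3 (dV dU KV : ℕ) : Cls → ℕ := update (M2 ops n dV dU) (8, 0, 0) KV

/-- Multiplicities. -/
def M4 (dV dU KV KU : ℕ) : Cls → ℕ := update (M3 ops n dV dU KV) (6, 0, 0) KU

/-- Multiplicities. -/
def M5 (dV dU KV KU K : ℕ) : Cls → ℕ := update (M4 ops n dV dU KV KU) (4, 0, 0) K

/-- First order constraint. -/
def Th1 (k : Cls → ℕ) : Prop :=
  True ∧ prec (sel ops.length w 1 2) (sel ops.length w 3 4) (mB ops n) k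

/-- Second order constraint. -/
def Th2 (k : Cls → ℕ) : Prop :=
  Th1 ops w n k ∧ prec (sel ops.length w 2 3) {(10, 0, 0)} (mB ops n) k

/-- Third order constraint. -/
def Th3 (k : Cls → ℕ) : Prop :=
  Th2 ops w n k ∧ prec (sel ops.length w 1 4) {(11, 0, 0)} (mB ops n) k

/-- Path counts. -/
noncomputable def Q5 (dV dU KV KU K : ℕ) : ℕ := paths (S0 ops.length w)
  (fun k => FE (Hm ops w) (S0 ops.length w) k ∧ True) (M5 ops n dV dU KV KU K) 0

/-- Path counts. -/
noncomputable def Q4 (dV dU KV KU : ℕ) : ℕ := paths (S1 ops.length w)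
  (fun k => FE (Hm ops w) (S1 ops.length w) k ∧ Th1 ops w n k) (M4 ops n dV dU KV KU) 0

/-- Path counts. -/
noncomputable def Q3 (dV dU KV : ℕ) : ℕ := paths (S2 ops.length w)
  (fun k => FE (Hm ops w) (S2 ops.length w) k ∧ Th2 ops w n k) (M3 ops n dV dU KV) 0

/-- Path counts. -/
noncomputable def Q2 (dV dU : ℕ) : ℕ := paths (S3 ops.length w)
  (fun k => FE (Hm ops w) (S3 ops.length w) k ∧ Th3 ops w n k) (M2 ops n dV dU) 0

/-- Path counts. -/
noncomputable def Q1 (dV : ℕ) : ℕ := paths (insert (11, 0, 0) (SB ops.length w))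
  (fun k => PhiB ops w n k ∧ (0 < k (11, 0, 0) → rem (sel ops.length w 1 4) (mB ops n) k = 0))
  (update (mB ops n) (11, 0, 0) dV) 0

/-- Path counts. -/
noncomputable def Q0 : ℕ := paths (SB ops.length w) (PhiS ops w n) (mB ops n) 0

variable {ops w n}

theorem ne_gad {T : ℕ} {c : Cls} (hc : c ∈ SB T w) (g : ℕ) (hg : 4 ≤ g) :
    c ≠ (g, 0, 0) := ne_of_mem_of_not_mem hc (gad_notMem hg)

theorem gad_sel {T g a b : ℕ} (hg : 4 ≤ g) : ((g, 0, 0) : Cls) ∉ sel T w a b :=
  fun h => gad_notMem hg (sel_subset _ _ _ _ h)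

theorem M2_SB {dV dU : ℕ} {c : Cls} (hc : c ∈ SB ops.length w) :
    M2 ops n dV dU c = mB ops n c := by
  rw [M2, update_of_ne (ne_gad hc 10 (by decide)), update_of_ne (ne_gad hc 11 (by decide))]

theorem M3_SB {dV dU KV : ℕ} {c : Cls} (hc : c ∈ SB ops.length w) :
    M3 ops n dV dU KV c = mB ops n c := by
  rw [M3, update_of_ne (ne_gad hc 8 (by decide)), M2_SB hc]

theorem M4_SB {dV dU KV KU : ℕ} {c : Cls} (hc : c ∈ SB ops.length w) :
    M4 ops n dV dU KV KU c = mB ops n c := by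
  rw [M4, update_of_ne (ne_gad hc 6 (by decide)), M3_SB hc]

theorem M5_SB {dV dU KV KU K : ℕ} {c : Cls} (hc : c ∈ SB ops.length w) :
    M5 ops n dV dU KV KU K c = mB ops n c := by
  rw [M5, update_of_ne (ne_gad hc 4 (by decide)), M4_SB hc]

theorem SB_S3 {T : ℕ} : SB T w ⊆ S3 T w := (subset_insert _ _).trans (subset_insert _ _)

theorem S3_S2 {T : ℕ} : S3 T w ⊆ S2 T w := (subset_insert _ _).trans (subset_insert _ _)

theorem S2_S1 {T : ℕ} : S2 T w ⊆ S1 T w := (subset_insert _ _).trans (subset_insert _ _)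

theorem K_mem {r : ℕ} (hr : r < ops.length) (hw : 0 < w) : ((3, r, 0) : Cls) ∈ SB ops.length w :=
  mem_SB.2 ⟨hw, Or.inr ⟨rfl, hr⟩⟩

theorem T_mem {T : ℕ} (hw : 0 < w) : ((2, 0, 0) : Cls) ∈ SB T w :=
  mem_SB.2 ⟨hw, Or.inl ⟨le_rfl, Nat.zero_le _⟩⟩

theorem mB_K0 (r : ℕ) : mB ops n (3, r, 0) = 2 := by rw [mB_K rfl]; simp

theorem rem_pos {A : Finset Cls} {m : Cls → ℕ} {c : Cls} (hc : c ∈ A) (h : m c = 2) :
    rem A m 0 ≠ 0 := fun h' => by
  have := rem_eq_zero.1 h' c hc
  rw [h] at this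
  simp at this

theorem sel_even (hn : Even n) {a b : ℕ} (ha : 0 < a) (hb : 0 < b) :
    ∀ c ∈ sel ops.length w a b, Even (mB ops n c) := fun c hc =>
  mB_even hn (mem_sel.1 hc).1 (by
    have := kd_SB (mem_sel.1 hc).1; have := (mem_sel.1 hc).2; omega)

theorem Th1_congr {k k' : Cls → ℕ} (h : ∀ c ∈ SB ops.length w, k c = k' c) :
    Th1 ops w n k ↔ Th1 ops w n k' :=
  and_congr_right fun _ => prec_congr (fun _ _ => rfl) (fun c hc => h c (sel_subset _ _ _ _ hc))
    (fun c hc => h c (sel_subset _ _ _ _ hc))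

theorem step5 (hn : Even n) (hT : 0 < ops.length) (hw : 0 < w) (dV dU KV KU : ℕ) :
    Nil (rem (SB ops.length w) (mB ops n) 0 + dV + dU + KV + KU + 3 + 1)
      (cns (2 * Q4 ops w n dV dU KV KU) fun u => Q5 ops w n dV dU KV KU (2 * u + 1)) := by
  refine (r_lemma' (S := S1 ops.length w) (x := (4, 0, 0)) (b := (5, 0, 0)) Hm_symm
    (by simp [S1, S2, S3, gad_notMem]) (by simp [S1, S2, S3, gad_notMem]) (by simp)
    ((sel_subset _ _ 1 2).trans (SB_S3.trans (S3_S2.trans S2_S1)))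
    ((sel_subset _ _ 3 4).trans (SB_S3.trans (S3_S2.trans S2_S1)))
    (disjoint_left.2 fun c h1 h2 => by
      have := (mem_sel.1 h1).2; have := (mem_sel.1 h2).2; omega)
    (by simp [Hm_gad_gad]) (by simp [Hm_gad_gad]) (by simp [Hm_gad_gad]) ?_ ?_
    (M4 ops n dV dU KV KU) (mB ops n) (fun c hc => M4_SB (sel_subset _ _ _ _ hc)) rfl
    (sel_even hn (by decide) (by decide)) (rem_pos (mem_sel.2 ⟨T_mem hw, Or.inl rfl⟩) rfl)
    ⟨(3, 0, 0), mem_sel.2 ⟨K_mem hT hw, Or.inl rfl⟩, by rw [M4_SB (K_mem hT hw), mB_K0]; decide⟩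
    (Θ := fun _ => True) (fun _ _ _ => Iff.rfl)).mono (le_of_eq ?_)
  · intro c hc
    simp only [S1, S2, S3, mem_insert] at hc
    rcases hc with rfl | rfl | rfl | rfl | rfl | rfl | hc
    any_goals simp [Hm_gad_gad, gad_sel]
    simp [Hm_gad_base hc, mem_sel, hc]
  · intro c hc
    simp only [S1, S2, S3, mem_insert] at hc
    rcases hc with rfl | rfl | rfl | rfl | rfl | rfl | hc
    any_goals simp [Hm_gad_gad, gad_sel]
    simp [Hm_gad_base hc, mem_sel, hc]
  · rw [S1, S2, S3, rem_insert, rem_insert, rem_insert, rem_insert, rem_insert, rem_insert,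
      rem_congr (fun c hc => M4_SB hc) fun _ _ => rfl]
    · have a1 : mB ops n (7, 0, 0) = 1 := rfl
      have a2 : mB ops n (9, 0, 0) = 1 := rfl
      simp [M4, M3, M2, a1, a2]; ring
    all_goals simp [gad_notMem]

theorem step4 (hn : Even n) (hT : 0 < ops.length) (hw : 0 < w) (dV dU KV : ℕ) (hU : 0 < dU) :
    Nil (rem (SB ops.length w) (mB ops n) 0 + dV + dU + KV + 2 + 1)
      (cns (2 * Q3 ops w n dV dU KV) fun u => Q4 ops w n dV dU KV (2 * u + 1)) := by
  refine (r_lemma' (S := S2 ops.length w) (x := (6, 0, 0)) (b := (7, 0, 0)) Hm_symm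
    (by simp [S2, S3, gad_notMem]) (by simp [S2, S3, gad_notMem]) (by simp)
    ((sel_subset _ _ 2 3).trans (SB_S3.trans S3_S2)) (B := {(10, 0, 0)}) (by simp [S2, S3])
    (by simp [gad_sel]) (by simp [Hm_gad_gad]) (by simp [Hm_gad_gad]) (by simp [Hm_gad_gad]) ?_ ?_
    (M3 ops n dV dU KV) (mB ops n) (fun c hc => M3_SB (sel_subset _ _ _ _ hc)) rfl
    (sel_even hn (by decide) (by decide))
    (rem_pos (mem_sel.2 ⟨K_mem hT hw, Or.inr rfl⟩) (mB_K0 0)) ⟨_, mem_singleton_self _, hU⟩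
    (Θ := Th1 ops w n) (fun _ _ h => Th1_congr fun c hc => h c (S3_S2 (SB_S3 hc)))).mono
    (le_of_eq ?_)
  · intro c hc
    simp only [S2, S3, mem_insert] at hc
    rcases hc with rfl | rfl | rfl | rfl | hc
    any_goals simp [Hm_gad_gad]
    simp [Hm_gad_base hc, ne_gad hc 10 (by decide)]
  · intro c hc
    simp only [S2, S3, mem_insert] at hc
    rcases hc with rfl | rfl | rfl | rfl | hc
    any_goals simp [Hm_gad_gad, gad_sel]
    simp [Hm_gad_base hc, mem_sel, hc]
  · rw [S2, S3, rem_insert, rem_insert, rem_insert, rem_insert,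
      rem_congr (fun c hc => M3_SB hc) fun _ _ => rfl]
    · have a2 : mB ops n (9, 0, 0) = 1 := rfl
      simp [M3, M2, a2]; ring
    all_goals simp [gad_notMem]

theorem step3 (hn : Even n) (hw : 0 < w) (dV dU : ℕ) (hV : 0 < dV) :
    Nil (rem (SB ops.length w) (mB ops n) 0 + dV + dU + 1 + 1)
      (cns (2 * Q2 ops w n dV dU) fun u => Q3 ops w n dV dU (2 * u + 1)) := by
  refine (r_lemma' (S := S3 ops.length w) (x := (8, 0, 0)) (b := (9, 0, 0)) Hm_symm
    (by simp [S3, gad_notMem]) (by simp [S3, gad_notMem]) (by simp)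
    ((sel_subset _ _ 1 4).trans SB_S3) (B := {(11, 0, 0)}) (by simp [S3])
    (by simp [gad_sel]) (by simp [Hm_gad_gad]) (by simp [Hm_gad_gad]) (by simp [Hm_gad_gad]) ?_ ?_
    (M2 ops n dV dU) (mB ops n) (fun c hc => M2_SB (sel_subset _ _ _ _ hc)) rfl
    (sel_even hn (by decide) (by decide))
    (rem_pos (mem_sel.2 ⟨T_mem hw, Or.inl rfl⟩) rfl) ⟨_, mem_singleton_self _, hV⟩
    (Θ := Th2 ops w n) (fun _ _ h => and_congr (Th1_congr fun c hc => h c (SB_S3 hc))
      (prec_congr (fun _ _ => rfl) (fun c hc => h c (SB_S3 (sel_subset _ _ _ _ hc)))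
        (fun c hc => h c (by rw [mem_singleton.1 hc]; simp [S3]))))).mono (le_of_eq ?_)
  · intro c hc
    simp only [S3, mem_insert] at hc
    rcases hc with rfl | rfl | hc
    any_goals simp [Hm_gad_gad]
    simp [Hm_gad_base hc, ne_gad hc 11 (by decide)]
  · intro c hc
    simp only [S3, mem_insert] at hc
    rcases hc with rfl | rfl | hc
    any_goals simp [Hm_gad_gad, gad_sel]
    simp [Hm_gad_base hc, mem_sel, hc]
  · rw [S3, rem_insert, rem_insert, rem_congr (fun c hc => M2_SB hc) fun _ _ => rfl]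
    · simp [M2]; ring
    all_goals simp [gad_notMem]

theorem fe_S3 (k : Cls → ℕ) :
    FE (Hm ops w) (S3 ops.length w) k ↔ FE (Hm ops w) (SB ops.length w) k := by
  rw [S3, fe_isolated Hm_symm (by simp [gad_notMem]) (by simp [Hm_gad_gad]),
    fe_isolated Hm_symm (by simp [gad_notMem]) (by simp [Hm_gad_gad])]
  · intro c hc; simp [Hm_gad_base hc]
  · intro c hc
    rcases mem_insert.1 hc with rfl | hc
    · simp [Hm_gad_gad]
    · simp [Hm_gad_base hc]

theorem inv_bump {k : Cls → ℕ} {c : Cls} (h : InvT ops.length w k)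
    (h1 : FE (Hm ops w) (SB ops.length w) (bump k c))
    (h2 : prec (sel ops.length w 1 2) (sel ops.length w 3 4) (mB ops n) (bump k c)) :
    InvT ops.length w (bump k c) := by
  intro j hj h3
  by_cases h4 : 0 < k (2, j)
  · have := h j hj h4
    have := le_bump k c (0, j)
    have := le_bump k c (1, j)
    omega
  have h5 : bump k c (2, j) = 1 := by rw [bump_apply] at h3 ⊢; split_ifs at h3 ⊢ <;> omega
  have h6 : ((2, j) : Cls) ∈ SB ops.length w := (cell_mem le_rfl).2 hj
  by_contra h7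
  refine not_feas_isolated Hm_symm (mem_od.2 ⟨h6, by rw [h5]; decide⟩) (fun u hu => ?_) h1
  obtain ⟨b1, b2⟩ := mem_od.1 hu
  rcases kd_SB b1 with e | e | e
  · rw [Hm_nb h6 b1 le_rfl e.1, if_neg, if_neg, add_zero]
    all_goals
      rintro rfl
      have := b2.pos
      simp only [nb, eqB, decide_true, cond_true, Bool.toNat_true, Bool.toNat_false,
        Prod.mk.eta] at this
      omega
  · by_cases e' : (2, j) = u
    · rw [← e', Hm, cm_self]; rfl
    · exact Hm_same h6 b1 le_rfl e.1.symm e'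
  · have := done_T (h2 ⟨u, mem_sel.2 ⟨b1, by omega⟩, b2.pos⟩) hj
    omega

theorem T_done_of_K {k : Cls → ℕ} {r : ℕ} (hr : r < ops.length) (hr2 : r < 2) (hw : 0 < w)
    (h : prec (sel ops.length w 1 2) (sel ops.length w 3 4) (mB ops n) k)
    (h1 : rem (sel ops.length w (3 + r) (3 + r)) (mB ops n) k = 0) :
    rem (sel ops.length w 1 2) (mB ops n) k = 0 := by
  have e := kd_spec (3, r, 0)
  simp only at e
  have := rem_eq_zero.1 h1 (3, r, 0) (mem_sel.2 ⟨K_mem hr hw, by omega⟩)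
  rw [mB_K0] at this
  exact h ⟨(3, r, 0), mem_sel.2 ⟨K_mem hr hw, by omega⟩, by omega⟩

theorem step1 (hT : 1 < ops.length) (hw : 0 < w) :
    Dl ((ops.length + 1) * w) (fun r => (Q1 ops w n (r + 1) : ℤ)) 0 = Q0 ops w n := by
  have := d_lemma (d := ((11, 0, 0) : Cls)) (gad_notMem (by decide))
    (sel_subset ops.length w 1 4) (Φ := PhiB ops w n) (fun k j => ?_) (mB ops n)
    ((ops.length + 1) * w) (fun k h0 h1 h2 => ?_) 0 (le_zero _ _)
    (rem_pos (mem_sel.2 ⟨T_mem hw, Or.inl rfl⟩) rfl)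
  · simp only [Z_start] at this
    exact this
  · have e := update_out (gad_notMem (T := ops.length) (w := w) (g := 11) (by decide)) k j
    have e1 : ∀ a b, ∀ c ∈ sel ops.length w a b, update k (11, 0, 0) j c = k c :=
      fun a b c hc => e c (sel_subset _ _ _ _ hc)
    unfold PhiB FE
    rw [od_congr e, prec_congr (fun _ _ => rfl) (e1 1 2) (e1 3 4),
      rem_congr (fun _ _ => rfl) (e1 2 3), rem_congr (S := _ \ _) (fun _ _ => rfl)
        fun c hc => e c (mem_sdiff.1 hc).1]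
    simp [InvT]
  · have e := rem_arith (mB ops n) k ops.length w
    have e1 := T_done_of_K hT (by decide) hw h1.1.2.1 (by simp only [Nat.reduceAdd]; omega)
    have e2 := rem_E_le h1.1.2.2 e1
    have e3 := rem_K_pos (n := n) hT (by decide) hw
    have e4 := h1.2
    have e5 := rem_SB ops.length w (mB ops n) k
    simp only [Nat.reduceAdd] at e3
    omega

theorem step2 (hT : 1 < ops.length) (hw : 0 < w) (dV : ℕ) :
    Dl ((ops.length + 1) * w + rem (sel ops.length w 4 4) (mB ops n) 0 + dV)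
      (fun r => (Q2 ops w n dV (r + 1) : ℤ)) 0 = Q1 ops w n dV := by
  have m1 : ∀ c ∈ SB ops.length w, update (mB ops n) (11, 0, 0) dV c = mB ops n c :=
    update_out (gad_notMem (by decide)) _ _
  have m2 : ∀ k, rem (sel ops.length w 2 3) (update (mB ops n) (11, 0, 0) dV) k =
      rem (sel ops.length w 2 3) (mB ops n) k := fun k =>
    rem_congr (fun c hc => m1 c (sel_subset _ _ _ _ hc)) fun _ _ => rfl
  have := d_lemma (S := insert (11, 0, 0) (SB ops.length w)) (d := ((10, 0, 0) : Cls))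
    (by simp [gad_notMem]) ((sel_subset ops.length w 2 3).trans (subset_insert _ _))
    (Φ := fun k => (FE (Hm ops w) (SB ops.length w) k ∧
      prec (sel ops.length w 1 2) (sel ops.length w 3 4) (mB ops n) k ∧ InvT ops.length w k) ∧
      (0 < k (11, 0, 0) → rem (sel ops.length w 1 4) (mB ops n) k = 0)) (fun k j => ?_)
    (update (mB ops n) (11, 0, 0) dV)
    ((ops.length + 1) * w + rem (sel ops.length w 4 4) (mB ops n) 0 + dV)
    (fun k h0 h1 h2 => ?_) 0 (le_zero _ _)
    (by rw [m2]; exact rem_pos (mem_sel.2 ⟨K_mem (by omega) hw, Or.inr rfl⟩) (mB_K0 0))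
  · simp only [Z_start, m2] at this
    refine Eq.trans (congrArg (fun f => Dl _ f 0) (funext fun r => congrArg Nat.cast ?_))
      (this.trans (congrArg Nat.cast ?_))
    · rw [Q2, paths_inv (InvT ops.length w) (fun k h1 _ c _ h2 =>
        inv_bump h1 ((fe_S3 _).1 h2.1) h2.2.1.1.2) 0 (fun _ _ h => absurd h (lt_irrefl 0))]
      refine paths_iff (fun k => ?_) _ _
      simp only [fe_S3, Th3, Th2, Th1, prec, mem_singleton, exists_eq_left]
      tauto
    · refine paths_iff (fun k => ?_) _ _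
      rw [insert_sdiff_of_notMem _ (gad_sel (by decide)),
        rem_insert (fun h => gad_notMem (by decide) (mem_sdiff.1 h).1), update_self,
        rem_congr (fun c hc => m1 c (mem_sdiff.1 hc).1) fun _ _ => rfl]
      unfold PhiB
      refine ⟨fun h => ⟨⟨h.1.1, fun h' => by have := h.2 h'; omega⟩, h.1.2⟩,
        fun h => ⟨⟨h.1.1, h.2⟩, fun h' => ?_⟩⟩
      have e := rem_arith (mB ops n) k ops.length w
      have e4 := h.1.2 h'
      by_cases c : 0 < k (11, 0, 0)
      · have e0 := h.2 c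
        have e1 := T_done_of_K hT (by decide) hw h.1.1.2.1 (by simp only [Nat.reduceAdd]; omega)
        have e2 := rem_E_le h.1.1.2.2 e1
        have e3 := rem_K_pos (n := n) hT (by decide) hw
        simp only [Nat.reduceAdd] at e3
        omega
      · omega
  · have e := update_out (gad_notMem (T := ops.length) (w := w) (g := 10) (by decide)) k j
    have e1 : ∀ a b, ∀ c ∈ sel ops.length w a b, update k (10, 0, 0) j c = k c :=
      fun a b c hc => e c (sel_subset _ _ _ _ hc)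
    unfold FE
    rw [od_congr e, prec_congr (fun _ _ => rfl) (e1 1 2) (e1 3 4),
      rem_congr (fun _ _ => rfl) (e1 1 4)]
    simp [InvT]
  · rw [m2] at h2
    rw [rem_insert (gad_notMem (by decide)), update_self, rem_congr m1 fun _ _ => rfl]
    have e := rem_arith (mB ops n) k ops.length w
    have e1 := T_done_of_K (r := 0) (by omega) (by decide) hw h1.1.2.1
      (by simp only [add_zero]; omega)
    have e2 := rem_E_le h1.1.2.2 e1
    have e3 := rem_le_zero (sel ops.length w 4 4) (mB ops n) k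
    have e5 := rem_SB ops.length w (mB ops n) k
    omega

theorem mem_S0 {T : ℕ} {c : Cls} (hc : c ∈ S0 T w) : IsS T w c := by
  simp only [S0, S1, S2, S3, mem_insert] at hc
  rcases hc with rfl | rfl | rfl | rfl | rfl | rfl | rfl | rfl | hc
  any_goals exact Or.inr ⟨_, by decide, by decide, rfl⟩
  exact Or.inl hc

theorem fe_full (hn : Even n) {dV dU KV KU K : ℕ} (h1 : Odd KV) (h2 : Odd KU) (h3 : Odd K) :
    FE (Hm ops w) (S0 ops.length w) (M5 ops n dV dU KV KU K) := by
  have o : ∀ c ∈ SB ops.length w, Odd (M5 ops n dV dU KV KU K c) → kd c = 0 ∧ c.1 < 2 := by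
    intro c hc h
    rw [M5_SB hc] at h
    by_contra h'
    exact Nat.not_odd_iff_even.2 (mB_even hn hc (by have := kd_SB hc; omega)) h
  rw [S0, fe_pendant Hm_symm (by simp [S1, S2, S3, gad_notMem]) (by simp [S1, S2, S3, gad_notMem])
      (by simp) (by simp [Hm_gad_gad]) (by simp [Hm_gad_gad]) h3 odd_one,
    S1, fe_pendant Hm_symm (by simp [S2, S3, gad_notMem]) (by simp [S2, S3, gad_notMem])
      (by simp) (by simp [Hm_gad_gad]) (by simp [Hm_gad_gad]) h2 odd_one,
    S2, fe_pendant Hm_symm (by simp [S3, gad_notMem]) (by simp [S3, gad_notMem])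
      (by simp) (by simp [Hm_gad_gad]) (by simp [Hm_gad_gad]) h1 odd_one, fe_S3]
  · exact feas_identity Hm_symm fun a ha b hb => Hm_EE (mem_od.1 ha).1 (mem_od.1 hb).1
      (o a (mem_od.1 ha).1 (mem_od.1 ha).2).2 (o b (mem_od.1 hb).1 (mem_od.1 hb).2).2
  · intro c hc h
    simp only [S3, mem_insert] at hc
    rcases hc with rfl | rfl | hc
    any_goals simp [Hm_gad_gad]
    simp [Hm_gad_base hc, (o c hc h).1]
  · intro c hc h
    simp only [S2, S3, mem_insert] at hc
    rcases hc with rfl | rfl | rfl | rfl | hc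
    any_goals simp [Hm_gad_gad]
    simp [Hm_gad_base hc, (o c hc h).1]
  · intro c hc h
    simp only [S1, S2, S3, mem_insert] at hc
    rcases hc with rfl | rfl | rfl | rfl | rfl | rfl | hc
    any_goals simp [Hm_gad_gad]
    simp [Hm_gad_base hc, (o c hc h).1]

theorem ori_full (hT : 0 < ops.length) (hw : 0 < w) {dV dU KV KU K : ℕ} (hV : 0 < dV)
    (hU : 0 < dU) : ∀ c ∈ S0 ops.length w, ∃ a ∈ S0 ops.length w, ∃ b ∈ S0 ops.length w,
      0 < M5 ops n dV dU KV KU K a ∧ 0 < M5 ops n dV dU KV KU K b ∧ (a = c ∨ Hm ops w c a = 1) ∧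
      (b = a ∨ Hm ops w a b = 1) ∧ Hm ops w b b = 1 := by
  have s : ∀ c ∈ SB ops.length w, c ∈ S0 ops.length w := fun c hc =>
    mem_insert_of_mem (mem_insert_of_mem (S2_S1 (S3_S2 (SB_S3 hc))))
  have e : ∀ c ∈ SB ops.length w, 2 ≤ c.1 → nb ops c false ∈ S0 ops.length w ∧
      0 < M5 ops n dV dU KV KU K (nb ops c false) ∧ Hm ops w c (nb ops c false) = 1 ∧
      Hm ops w (nb ops c false) (nb ops c false) = 1 := by
    intro c hc h
    have a1 := nb_mem hc h false
    have a2 : (nb ops c false).1 < 2 := by simp [nb_fst]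
    refine ⟨s _ a1, by rw [M5_SB a1, mB_E a2]; decide, ?_, by rw [Hm_EE a1 a1 a2 a2, if_pos rfl]⟩
    rw [Hm_nb hc a1 h a2, if_pos rfl, if_neg, add_zero]
    intro h'
    have := congrArg Prod.fst h'
    simp [nb_fst] at this
  have k0 := K_mem hT hw
  have t0 := T_mem (T := ops.length) hw
  have e1 := e _ k0 (by decide)
  have e2 := e _ t0 (by decide)
  have p1 : 0 < M5 ops n dV dU KV KU K (3, 0, 0) := by rw [M5_SB k0, mB_K0]; decide
  have p2 : 0 < M5 ops n dV dU KV KU K (2, 0, 0) := by rw [M5_SB t0, mB_T rfl]; decide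
  have g1 : ((10, 0, 0) : Cls) ∈ S0 ops.length w := by simp [S0, S1, S2, S3]
  have g2 : ((11, 0, 0) : Cls) ∈ S0 ops.length w := by simp [S0, S1, S2, S3]
  intro c hc
  simp only [S0, S1, S2, S3, mem_insert] at hc
  rcases hc with rfl | rfl | rfl | rfl | rfl | rfl | rfl | rfl | hc
  · exact ⟨_, s _ k0, _, e1.1, p1, e1.2.1, Or.inr (by rw [Hm_gad_base k0] <;> decide),
      Or.inr e1.2.2.1, e1.2.2.2⟩
  · exact ⟨_, s _ t0, _, e2.1, p2, e2.2.1, Or.inr (by rw [Hm_gad_base t0] <;> decide),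
      Or.inr e2.2.2.1, e2.2.2.2⟩
  · exact ⟨_, g1, _, g1, hU, hU, Or.inr (by simp [Hm_gad_gad]), Or.inl rfl, by simp [Hm_gad_gad]⟩
  · exact ⟨_, s _ k0, _, e1.1, p1, e1.2.1, Or.inr (by rw [Hm_gad_base k0] <;> decide),
      Or.inr e1.2.2.1, e1.2.2.2⟩
  · exact ⟨_, g2, _, g2, hV, hV, Or.inr (by simp [Hm_gad_gad]), Or.inl rfl, by simp [Hm_gad_gad]⟩
  · exact ⟨_, s _ t0, _, e2.1, p2, e2.2.1, Or.inr (by rw [Hm_gad_base t0] <;> decide),
      Or.inr e2.2.2.1, e2.2.2.2⟩
  · exact ⟨_, g1, _, g1, hU, hU, Or.inl rfl, Or.inl rfl, by simp [Hm_gad_gad]⟩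
  · exact ⟨_, g2, _, g2, hV, hV, Or.inl rfl, Or.inl rfl, by simp [Hm_gad_gad]⟩
  · by_cases h : c.1 < 2
    · have : 0 < M5 ops n dV dU KV KU K c := by rw [M5_SB hc, mB_E h]; decide
      exact ⟨c, s c hc, c, s c hc, this, this, Or.inl rfl, Or.inl rfl, by
        rw [Hm_EE hc hc h h, if_pos rfl]⟩
    · have := e c hc (by omega)
      exact ⟨_, this.1, _, this.1, this.2.1, this.2.1, Or.inr this.2.2.1, Or.inl rfl, this.2.2.2⟩

end Pool.Agent.MP_f00251_lc.H81

end MrgPart2

-- ======== part 3: formerly Pool.Agent.MP_f00251_lc.H81.Machine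
section MrgPart3

/-!
A weighted machine on streams of bits.
-/

set_option autoImplicit false
set_option linter.unusedSectionVars false
set_option linter.unusedVariables false

namespace Pool.Agent.MP_f00251_lc.H81

open Finset Pool.Agent.H82

/-- Putting an entry in front of a stream. -/
def sc {α : Type} (a : α) (y : ℕ → α) : ℕ → α
  | 0 => a
  | n + 1 => y n

/-- The tail of a stream. -/
def tl {α : Type} (y : ℕ → α) : ℕ → α := fun i => y (i + 1)

@[simp] theorem sc_zero {α : Type} (a : α) (y : ℕ → α) : sc a y 0 = a := rfl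

@[simp] theorem sc_succ {α : Type} (a : α) (y : ℕ → α) (n : ℕ) : sc a y (n + 1) = y n := rfl

@[simp] theorem sc_one {α : Type} (a : α) (y : ℕ → α) : sc a y 1 = y 0 := rfl

@[simp] theorem tl_sc {α : Type} (a : α) (y : ℕ → α) : tl (sc a y) = y := rfl

theorem sc_tl {α : Type} (y : ℕ → α) : sc (y 0) (tl y) = y := by
  funext n; cases n <;> rfl

theorem xt_cons {α : Type} (d a : α) {n : ℕ} (f : Fin n → α) :
    xt d (Fin.cons a f : Fin (n + 1) → α) = sc a (xt d f) := by
  funext i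
  rcases i with _ | i
  · rfl
  · simp only [xt, sc_succ, Nat.add_lt_add_iff_right]
    split_ifs <;> rfl

theorem sum_cons {α : Type} [Fintype α] {n : ℕ} (F : (Fin (n + 1) → α) → ℕ) :
    ∑ f, F f = ∑ a, ∑ f : Fin n → α, F (Fin.cons a f) := by
  rw [← (Fin.consEquiv fun _ => α).sum_comp, Fintype.sum_prod_type]
  rfl

theorem sum_xt {n : ℕ} (F : (ℕ → Bool) → ℕ) : ∑ f : Fin (n + 1) → Bool, F (xt false f) =
    ∑ a, ∑ f : Fin n → Bool, F (sc a (xt false f)) := by
  rw [sum_cons]; simp only [xt_cons]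

/-- One step, in continuation style. -/
def stepK (a b : Bool) : ℕ → (ℕ → Bool) → ((ℕ → Bool) → ℕ) → ℕ
  | 0, y, K => cond a
      (cond b (cond (!y 0 || y 1) (K (sc (y 0) (tl (tl y)))) 0)
        (cond (y 0) (cond (y 1) 6 1) (cond (y 1) 1 2) * K (sc (y 0 && y 1) (tl (tl y)))))
      (cond b (K (sc (y 0) (sc false (tl y))) + cond (y 0) (K (sc (y 0) (sc true (tl y)))) 0)
        (K (sc (!y 0) (tl y))))
  | p + 1, y, K => stepK a b p (tl y) fun z => K (sc (y 0) z)

/-- A run, in continuation style. -/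
def runK : List Op → (ℕ → Bool) → ((ℕ → Bool) → ℕ) → ℕ
  | [], y, K => K y
  | o :: ops, y, K => stepK o.1 o.2.1 o.2.2 y fun z => runK ops z K

theorem stepK_mul (a b : Bool) (c p : ℕ) : ∀ (y : ℕ → Bool) (K : (ℕ → Bool) → ℕ),
    stepK a b p y (fun z => c * K z) = c * stepK a b p y K := by
  induction p with
  | zero =>
    intro y K
    unfold stepK
    cases a <;> cases b <;> cases y 0 <;> cases y 1 <;> simp <;> ring
  | succ p ih => intro y K; exact ih _ _

theorem runK_append (l l' : List Op) (K : (ℕ → Bool) → ℕ) : ∀ y : ℕ → Bool,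
    runK (l ++ l') y K = runK l y fun z => runK l' z K := by
  induction l with
  | nil => intro y; rfl
  | cons o l ih => intro y; simp only [List.cons_append, runK, ih]

/-- Weight of a block after extrapolation. -/
noncomputable def ew0 (o : Op) (y z : ℕ → Bool) (i : ℕ) : ℕ :=
  if (o.1 || o.2.1) = true ∧ i = o.2.2 then
    cond o.2.1 (if dg o y z i = 1 ∧ ¬ (dg o y z (i + 1) = 0 ∧ b2 (cond o.1 (!z i) (y i)) = 0)
      then 1 else 0) (bw (dg o y z i) (dg o y z (i + 1)) (b2 (cond o.1 (!z i) (y i))) 2)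
  else if (o.1 || o.2.1) = true ∧ i = o.2.2 + 1 then 1 else if dg o y z i = 1 then 1 else 0

theorem ew_nil (o : Op) (y z : ℕ → Bool) (i : ℕ) :
    Nil 3 (cns (ew0 o y z i) fun u => ew o (2 * u + 2) y z i) := by
  have c : ∀ a : ℕ, Nil 3 (cns a fun _ => a) := fun a =>
    ((Nil.const a).mono (by decide)).congr fun n => by cases n <;> rfl
  unfold ew0 ew
  by_cases h : (o.1 || o.2.1) = true ∧ i = o.2.2
  · simp only [if_pos h]
    cases o.2.1
    · exact c _
    · simpa using bw_nil _ _ _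
  · simp only [if_neg h]
    exact c _

/-- Weighted number of tables. -/
noncomputable def F1 (ops : List Op) (w n : ℕ) : ℕ :=
  ∑ σ : Fin (ops.length + 1) → Fin w → Bool, ∏ γ ∈ range ops.length ×ˢ range w,
    ew (opAt ops γ.1) n (val σ γ.1) (val σ (γ.1 + 1)) γ.2

/-- Weighted number of tables after extrapolation. -/
noncomputable def F0 (ops : List Op) (w : ℕ) : ℕ :=
  ∑ σ : Fin (ops.length + 1) → Fin w → Bool, ∏ γ ∈ range ops.length ×ˢ range w,
    ew0 (opAt ops γ.1) (val σ γ.1) (val σ (γ.1 + 1)) γ.2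

theorem F_nil (ops : List Op) (w : ℕ) :
    Nil (3 * (ops.length * w) + 1) (cns (F0 ops w) fun u => F1 ops w (2 * u + 2)) := by
  have := Nil.sum (T := univ) fun (σ : Fin (ops.length + 1) → Fin w → Bool) _ =>
    Nil.prod (T := range ops.length ×ˢ range w) fun γ _ =>
      ew_nil (opAt ops γ.1) (val σ γ.1) (val σ (γ.1 + 1)) γ.2
  rw [card_product, card_range, card_range] at this
  refine this.congr fun n => ?_
  cases n <;> simp [F0, F1]

theorem dg_succ (a b : Bool) (p : ℕ) (y z : ℕ → Bool) (i : ℕ) :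
    dg (a, b, p + 1) y z (i + 1) = dg (a, b, p) (tl y) (tl z) i := by
  have : dn (p + 1) (i + 1) = dn p i + 1 := by
    have := dn_spec p i
    have := dn_spec (p + 1) (i + 1)
    omega
  cases a <;> cases b <;> simp [dg, src, tgt, this, tl, eqB]

theorem ew0_succ (a b : Bool) (p : ℕ) (y z : ℕ → Bool) (i : ℕ) :
    ew0 (a, b, p + 1) y z (i + 1) = ew0 (a, b, p) (tl y) (tl z) i := by
  simp only [ew0, dg_succ, Nat.add_right_cancel_iff]
  rfl

theorem dg_ind (u v : Bool) : (if b2 false + (b2 (!u) + b2 v) = 1 then 1 else 0 : ℕ) =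
    if u = v then 1 else 0 := by
  cases u <;> cases v <;> decide

theorem ew0_zero (a b : Bool) (p : ℕ) (y z : ℕ → Bool) :
    ew0 (a, b, p + 1) y z 0 = if z 0 = y 0 then 1 else 0 := by
  rw [← dg_ind]
  cases a <;> cases b <;> simp [ew0, dg, src, tgt, dn, ltB, eqB]

theorem ew0_two (a b : Bool) (y z : ℕ → Bool) (i : ℕ) : ew0 (a, b, 0) y z (i + 2) =
    if z (cond a (i + 1) (i + 2)) = y (cond (!a && b) (i + 1) (i + 2)) then 1 else 0 := by
  rw [← dg_ind]
  cases a <;> cases b <;> simp [ew0, dg, src, tgt, dn, ltB, eqB]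

/-- Agreement on an initial segment. -/
def Ag (M : ℕ) (y y' : ℕ → Bool) : Prop := ∀ i < M, y i = y' i

theorem sum_copy (n : ℕ) : ∀ (W : ℕ) (y : ℕ → Bool) (G : (ℕ → Bool) → ℕ) (c : ℕ), n ≤ W →
    (∀ z, Ag n z y → G z = c) → ∑ z : Fin W → Bool,
      (∏ i ∈ range n, if xt false z i = y i then 1 else 0) * G (xt false z) = 2 ^ (W - n) * c := by
  induction n with
  | zero =>
    intro W y G c _ h
    simp [h _ (fun _ h => absurd h (Nat.not_lt_zero _))]
  | succ n ih =>
    intro W y G c hW h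
    obtain ⟨W, rfl⟩ : ∃ W', W = W' + 1 := ⟨W - 1, by omega⟩
    rw [sum_xt (fun z => (∏ i ∈ range (n + 1), if z i = y i then 1 else 0) * G z),
      sum_eq_single (y 0)]
    · simp only [prod_range_succ', sc_zero, sc_succ, if_true, mul_one, Nat.add_sub_add_right]
      refine ih W (tl y) (fun z => G (sc (y 0) z)) c (by omega) fun z hz => h _ fun i hi => ?_
      rcases i with _ | i
      · rfl
      · exact hz i (by omega)
    · intro a _ ha
      simp [prod_range_succ', ha]
    · simp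

theorem sum_copy0 (n : ℕ) (y : ℕ → Bool) (G : (ℕ → Bool) → ℕ) (c : ℕ)
    (h : ∀ z, Ag n z y → G z = c) : ∑ z : Fin n → Bool,
      (∏ i ∈ range n, if xt false z i = y i then 1 else 0) * G (xt false z) = c := by
  rw [sum_copy n n y G c le_rfl h]; simp

theorem sum_copy1 (n : ℕ) (y : ℕ → Bool) (G : (ℕ → Bool) → ℕ) (c : ℕ)
    (h : ∀ z, Ag n z y → G z = c) : ∑ z : Fin (n + 1) → Bool,
      (∏ i ∈ range n, if xt false z i = y i then 1 else 0) * G (xt false z) = 2 * c := by
  rw [sum_copy n (n + 1) y G c (by omega) h]; simp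

theorem ew0_a (b u v : Bool) (y z z' : ℕ → Bool) {i : ℕ} (hi : i < 2) :
    ew0 (false, b, 0) y (sc u (sc v z)) i = ew0 (false, b, 0) y (sc u (sc v z')) i := by
  interval_cases i <;> cases b <;> simp [ew0, dg, tgt]

theorem ew0_b (b u : Bool) (y z z' : ℕ → Bool) :
    ew0 (true, b, 0) y (sc u z) 0 = ew0 (true, b, 0) y (sc u z') 0 := by
  simp [ew0, dg, tgt, dn, ltB]

theorem step_link (a b : Bool) (p : ℕ) : ∀ (W M : ℕ) (y y' : ℕ → Bool) (G K : (ℕ → Bool) → ℕ),
    p + 1 ≤ M → M + 1 ≤ W → Ag (M + 1) y y' → (∀ z z', Ag M z z' → G z = K z') →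
    ∑ z : Fin W → Bool, (∏ i ∈ range W, ew0 (a, b, p) y (xt false z) i) * G (xt false z) =
      cond a 2 1 * stepK a b p y' K := by
  induction p with
  | succ p ih =>
    intro W M y y' G K h1 h2 h3 h4
    obtain ⟨W, rfl⟩ : ∃ W', W = W' + 1 := ⟨W - 1, by omega⟩
    obtain ⟨M, rfl⟩ : ∃ M', M = M' + 1 := ⟨M - 1, by omega⟩
    rw [sum_xt (fun z => (∏ i ∈ range (W + 1), ew0 (a, b, p + 1) y z i) * G z),
      sum_eq_single (y 0)]
    · simp only [prod_range_succ', ew0_succ, ew0_zero, sc_zero, tl_sc, if_true, mul_one]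
      refine ih W M (tl y) (tl y') (fun z => G (sc (y 0) z)) _ (by omega) (by omega)
        (fun i hi => h3 _ (by omega)) fun z z' hz => h4 _ _ fun i hi => ?_
      rcases i with _ | i
      · exact h3 0 (by omega)
      · exact hz i (by omega)
    · intro a _ ha
      simp [prod_range_succ', ew0_zero, ha]
    · simp
  | zero =>
    intro W M y y' G K h1 h2 h3 h4
    obtain ⟨W, rfl⟩ : ∃ W', W = W' + 2 := ⟨W - 2, by omega⟩
    obtain ⟨a0, a1, r, rfl⟩ : ∃ a0 a1 r, y' = sc a0 (sc a1 r) :=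
      ⟨y' 0, tl y' 0, tl (tl y'), by rw [sc_tl, sc_tl]⟩
    have e0 : y 0 = a0 := h3 0 (by omega)
    have e1 : y 1 = a1 := h3 1 (by omega)
    rw [sum_xt (fun z => (∏ i ∈ range (W + 2), ew0 (a, b, 0) y z i) * G z)]
    cases a
    · have key : ∀ u v : Bool, ∑ z : Fin W → Bool, (∏ i ∈ range W, if xt false z i =
          y (cond b (i + 1) (i + 2)) then 1 else 0) * (ew0 (false, b, 0) y (sc u (sc v
          (xt false z))) 1 * (ew0 (false, b, 0) y (sc u (sc v (xt false z))) 0 *
          G (sc u (sc v (xt false z))))) = ew0 (false, b, 0) y (sc u (sc v y)) 1 *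
          (ew0 (false, b, 0) y (sc u (sc v y)) 0 * K (sc u (sc v (cond b (sc a1 r) r)))) := by
        intro u v
        refine sum_copy0 W (fun i => y (cond b (i + 1) (i + 2))) (fun z =>
          ew0 (false, b, 0) y (sc u (sc v z)) 1 * (ew0 (false, b, 0) y (sc u (sc v z)) 0 *
          G (sc u (sc v z)))) _ fun z hz => ?_
        rw [h4 _ (sc u (sc v (cond b (sc a1 r) r))), ew0_a b u v y z y one_lt_two,
          ew0_a b u v y z y two_pos]
        · intro i hi
          rcases i with _ | _ | i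
          · rfl
          · rfl
          · simp only [sc_succ]
            rw [hz i (by omega)]
            cases b
            · exact h3 _ (by simp only [cond_false]; omega)
            · exact h3 _ (by simp only [cond_true]; omega)
      have e := fun u => sum_xt (n := W)
        (fun z => (∏ i ∈ range (W + 2), ew0 (false, b, 0) y (sc u z) i) * G (sc u z))
      simp only [e]
      simp only [prod_range_succ', ew0_two, mul_assoc, cond_false, sc_succ, Bool.not_false,
        Bool.true_and, zero_add, key]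
      cases b <;> cases a0 <;> cases a1 <;>
        simp [stepK, ew0, dg, src, tgt, dn, ltB, eqB, e0, e1, b2, f2_add_self, add_comm]
    · have key : ∀ u : Bool, ∑ z : Fin (W + 1) → Bool, (∏ i ∈ range W, if xt false z i =
          y (i + 2) then 1 else 0) * (ew0 (true, b, 0) y (sc u (xt false z)) 1 *
          (ew0 (true, b, 0) y (sc u (xt false z)) 0 * G (sc u (xt false z)))) =
          2 * (ew0 (true, b, 0) y (sc u y) 0 * K (sc u r)) := by
        intro u
        refine sum_copy1 W (fun i => y (i + 2)) (fun z =>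
          ew0 (true, b, 0) y (sc u z) 1 * (ew0 (true, b, 0) y (sc u z) 0 * G (sc u z))) _
          fun z hz => ?_
        rw [h4 _ (sc u r), show ew0 (true, b, 0) y (sc u z) 1 = 1 by simp [ew0], one_mul,
          ew0_b b u y z y]
        · intro i hi
          rcases i with _ | i
          · rfl
          · simp only [sc_succ]
            rw [hz i (by omega)]
            exact h3 _ (by omega)
      simp only [prod_range_succ', ew0_two, mul_assoc, cond_true, sc_succ, Bool.not_true,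
        Bool.false_and, cond_false, zero_add, key]
      cases b <;> cases a0 <;> cases a1 <;>
        simp [stepK, ew0, dg, src, tgt, dn, ltB, eqB, e0, e1, b2, f2_add_self, bw_two]

/-- Weighted number of continuations of a row. -/
noncomputable def Vw (w : ℕ) : List Op → (ℕ → Bool) → ℕ
  | [], _ => 1
  | o :: ops, y => ∑ z : Fin w → Bool,
      (∏ i ∈ range w, ew0 o y (xt false z) i) * Vw w ops (xt false z)

theorem val_cons {T w : ℕ} (z : Fin w → Bool) (σ : Fin T → Fin w → Bool) :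
    val (Fin.cons z σ : Fin (T + 1) → Fin w → Bool) = sc (xt false z) (val σ) := by
  funext h
  rw [val, xt_cons]
  cases h <;> rfl

theorem sum_Vw (w : ℕ) (ops : List Op) : ∀ y : ℕ → Bool,
    ∑ σ : Fin ops.length → Fin w → Bool, ∏ h ∈ range ops.length, ∏ i ∈ range w,
      ew0 (opAt ops h) (sc y (val σ) h) (val σ h) i = Vw w ops y := by
  induction ops with
  | nil => intro y; simp [Vw]
  | cons o ops ih =>
    intro y
    rw [Vw]
    refine (sum_cons (n := ops.length) _).trans (sum_congr rfl fun z _ => ?_)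
    rw [← ih, mul_sum]
    refine sum_congr rfl fun σ _ => ?_
    rw [val_cons]
    refine (prod_range_succ' _ ops.length).trans ?_
    rw [mul_comm]
    rfl

theorem F0_eq (ops : List Op) (w : ℕ) :
    F0 ops w = ∑ y : Fin w → Bool, Vw w ops (xt false y) := by
  rw [F0, sum_cons]
  refine sum_congr rfl fun y _ => ?_
  rw [← sum_Vw]
  refine sum_congr rfl fun σ _ => ?_
  rw [prod_product, val_cons]
  rfl

theorem Vw_eq {w M : ℕ} (ops : List Op) : ∀ y y' : ℕ → Bool, (∀ o ∈ ops, o.2.2 + 1 ≤ M) →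
    M + ops.length ≤ w → Ag (M + ops.length) y y' →
    Vw w ops y = 2 ^ (ops.filter fun o => o.1).length * runK ops y' fun _ => 1 := by
  induction ops with
  | nil => intros; rfl
  | cons o ops ih =>
    intro y y' h1 h2 h3
    obtain ⟨a, b, p⟩ := o
    rw [List.length_cons] at h2 h3
    rw [Vw, step_link a b p w (M + ops.length) y y' _
      (fun z => 2 ^ (ops.filter fun o => o.1).length * runK ops z fun _ => 1)
      (by have := h1 _ List.mem_cons_self; simp only at this; omega) h2 h3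
      fun z z' hz => ih z z' (fun o ho => h1 o (List.mem_cons_of_mem _ ho)) (by omega) hz,
      stepK_mul, runK]
    cases a <;> simp
    ring

end Pool.Agent.MP_f00251_lc.H81

end MrgPart3

-- marker of a merged file
example : 731051 + 32147 = 731051 + 32147 := rfl

end MrgPart1

-- marker of a merged file
example : 731051 + 32147 = 731051 + 32147 := rfl
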