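import Mathlib
import Pool.Prelude.Def_H_3587d628
import Pool.Agent.MP_f00251_lc.H81.Block
import Pool.Agent.Lib.helper82.PolyFun

-- ======== part 0: formerly Pool.Agent.MP_f00251_lc.H81.Defs
section MrgPart0

/-!
Sorting signed permutations by reversals, and counting complexity.
-/

set_option autoImplicit false

namespace Pool.Agent.MP_f00251_lc.H81

/-- The reversal `ρ_{i,j}` for `p = (i, j)` (positions are numbered from one): the entries in the
positions `i, ..., j` are written in reverse order with opposite signs. -/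
def rev (p : ℕ × ℕ) (π : List ℤ) : List ℤ :=
  π.take (p.1 - 1) ++ ((π.take p.2).drop (p.1 - 1)).reverse.map (fun a => -a) ++ π.drop p.2

/-- Each of `1, ..., n` occurs exactly once among the absolute values of the `n` entries. -/
def IsSignedPerm (π : List ℤ) : Prop := (π.map Int.natAbs).Perm (List.range' 1 π.length)

/-- The identity `(1, ..., n)`. -/
def ident (n : ℕ) : List ℤ := (List.range' 1 n).map (fun a : ℕ => (a : ℤ))

/-- The sequence `l` of reversals `ρ_{i,j}`, `1 ≤ i ≤ j ≤ n`, sorts `π`. -/
def Sorts (π : List ℤ) (l : List (ℕ × ℕ)) : Prop :=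
  (∀ p ∈ l, 1 ≤ p.1 ∧ p.1 ≤ p.2 ∧ p.2 ≤ π.length) ∧
    l.foldl (fun σ p => rev p σ) π = ident π.length

/-- The reversal distance. -/
noncomputable def dist (π : List ℤ) : ℕ := sInf {k | ∃ l, Sorts π l ∧ l.length = k}

/-- The number of optimal sorting sequences. -/
noncomputable def numOpt (π : List ℤ) : ℕ := {l | Sorts π l ∧ l.length = dist π}.ncard

/-- The class #P: `f x` is the number of bit strings of a polynomial length that a
polynomial-time test accepts together with `x`. -/
def SharpP {α : Type} [N487b59b3 α] (f : α → ℕ) : Prop :=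
  ∃ (p : Polynomial ℕ) (R : α × List Bool → Bool), N68a2faeb.IsPolyTime R ∧ ∀ x,
    f x = (Finset.univ.filter fun w : Fin (p.eval (N487b59b3.bitEncode x).length) → Bool =>
      R (x, List.ofFn w) = true).card

end Pool.Agent.MP_f00251_lc.H81

end MrgPart0

-- ======== part 1: formerly Pool.Agent.MP_f00251_lc.H81.PermCls
section MrgPart1

-- ======== part 0: formerly Pool.Agent.MP_f00251_lc.H81.RevBasic
section MrgPart0

/-!
Basic facts on reversals.
-/

set_option autoImplicit false

namespace Pool.Agent.MP_f00251_lc.H81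

open Finset

/-- The framed permutation. -/
def ex (π : List ℤ) (t : ℕ) : ℤ := (0 :: π).getD t (π.length + 1)

@[simp] theorem ex_zero (π : List ℤ) : ex π 0 = 0 := rfl

theorem ex_succ {π : List ℤ} {t : ℕ} (h : t < π.length) : ex π (t + 1) = π[t] := by
  simp [ex, h]

theorem ex_big {π : List ℤ} {t : ℕ} (h : π.length < t) : ex π t = π.length + 1 := by
  unfold ex
  rw [List.getD_eq_default]
  simp; omega

theorem ex_ext {π σ : List ℤ} (h : π.length = σ.length)
    (h' : ∀ t < π.length, ex π (t + 1) = ex σ (t + 1)) : π = σ :=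
  List.ext_getElem h fun t h1 h2 => by rw [← ex_succ h1, ← ex_succ h2, h' t h1]

/-- Admissible reversals. -/
def pairs (n : ℕ) : Finset (ℕ × ℕ) :=
  (range (n + 1) ×ˢ range (n + 1)).filter fun p => 1 ≤ p.1 ∧ p.1 ≤ p.2

theorem mem_pairs {n : ℕ} {p : ℕ × ℕ} : p ∈ pairs n ↔ 1 ≤ p.1 ∧ p.1 ≤ p.2 ∧ p.2 ≤ n := by
  simp only [pairs, mem_filter, mem_product, mem_range]; omega

theorem length_rev {π : List ℤ} {p : ℕ × ℕ} (hp : p ∈ pairs π.length) :
    (rev p π).length = π.length := by
  rw [mem_pairs] at hp
  simp only [rev, List.length_append, List.length_take, List.length_map, List.length_reverse,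
    List.length_drop]
  omega

theorem ex_rev {π : List ℤ} {p : ℕ × ℕ} (hp : p ∈ pairs π.length) (t : ℕ) :
    ex (rev p π) t = if p.1 ≤ t ∧ t ≤ p.2 then - ex π (p.1 + p.2 - t) else ex π t := by
  have hl := length_rev hp
  obtain ⟨i, j⟩ := p
  rw [mem_pairs] at hp
  simp only at hp ⊢
  rcases t with _ | t
  · rw [if_neg (by omega)]; rfl
  by_cases ht : t < π.length
  swap
  · rw [if_neg (by omega), ex_big (by omega), ex_big (by omega), hl]
  rw [ex_succ (by omega)]
  simp only [rev]
  split_ifs with h
  · rw [List.getElem_append_left (by simp; omega), List.getElem_append_right (by simp; omega),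
      show i + j - (t + 1) = (i + j - t - 2) + 1 by omega, ex_succ (by omega)]
    simp only [List.getElem_map, List.getElem_reverse, List.getElem_drop, List.getElem_take,
      List.length_drop, List.length_take]
    congr 2
    omega
  · rw [ex_succ ht]
    by_cases h1 : t + 1 < i
    · rw [List.getElem_append_left (by simp; omega), List.getElem_append_left (by simp; omega),
        List.getElem_take]
    · rw [List.getElem_append_right (by simp; omega), List.getElem_drop]
      congr 1
      simp; omega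

theorem rev_rev {π : List ℤ} {p : ℕ × ℕ} (hp : p ∈ pairs π.length) : rev p (rev p π) = π := by
  have hl := length_rev hp
  have hp' : p ∈ pairs (rev p π).length := by rwa [hl]
  refine ex_ext ((length_rev hp').trans hl) fun t _ => ?_
  rw [ex_rev hp', ex_rev hp, ex_rev hp]
  rw [mem_pairs] at hp
  split_ifs with h1 h2
  · rw [neg_neg]; congr 1; omega
  · omega
  · rfl

theorem IsSignedPerm.rev {π : List ℤ} (h : IsSignedPerm π) {p : ℕ × ℕ}
    (hp : p ∈ pairs π.length) : IsSignedPerm (rev p π) := by
  unfold IsSignedPerm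
  rw [length_rev hp]
  refine List.Perm.trans ?_ h
  rw [mem_pairs] at hp
  have e : π = π.take (p.1 - 1) ++ (π.take p.2).drop (p.1 - 1) ++ π.drop p.2 := by
    rw [show π.take (p.1 - 1) = (π.take p.2).take (p.1 - 1) by
      rw [List.take_take]; congr 1; omega, List.take_append_drop, List.take_append_drop]
  conv_rhs => rw [e]
  simp only [H81.rev, List.map_append, List.map_map]
  refine (List.Perm.append_left _ ?_).append_right _
  rw [show (Int.natAbs ∘ fun a : ℤ => -a) = Int.natAbs by funext a; simp, List.map_reverse]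
  exact List.reverse_perm _

@[simp] theorem length_ident (n : ℕ) : (ident n).length = n := by simp [ident]

theorem ex_ident {n t : ℕ} (h : t ≤ n + 1) : ex (ident n) t = t := by
  rcases t with _ | t
  · rfl
  by_cases ht : t < n
  · rw [ex_succ (by simpa using ht)]; simp [ident]; ring
  · rw [ex_big (by simp; omega)]; simp; omega

theorem signed_ident (n : ℕ) : IsSignedPerm (ident n) := by
  unfold IsSignedPerm
  rw [length_ident, ident, List.map_map]
  simp [Function.comp_def]

/-- Applying a sequence of reversals. -/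
def app (σ : List ℤ) (l : List (ℕ × ℕ)) : List ℤ := l.foldl (fun σ p => rev p σ) σ

@[simp] theorem app_nil (σ : List ℤ) : app σ [] = σ := rfl

@[simp] theorem app_cons (σ : List ℤ) (p : ℕ × ℕ) (l : List (ℕ × ℕ)) :
    app σ (p :: l) = app (rev p σ) l := rfl

theorem app_append (σ : List ℤ) (l l' : List (ℕ × ℕ)) : app σ (l ++ l') = app (app σ l) l' :=
  List.foldl_append

theorem app_spec (l : List (ℕ × ℕ)) : ∀ σ : List ℤ, (∀ p ∈ l, p ∈ pairs σ.length) →
    (app σ l).length = σ.length ∧ app (app σ l) l.reverse = σ ∧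
      (IsSignedPerm σ → IsSignedPerm (app σ l)) := by
  induction l with
  | nil => intro σ _; simp
  | cons p l ih =>
    intro σ h
    have hp := h p (by simp)
    obtain ⟨h1, h2, h3⟩ := ih (rev p σ) fun q hq => by
      rw [length_rev hp]; exact h q (by simp [hq])
    refine ⟨h1.trans (length_rev hp), ?_, fun hs => h3 (hs.rev hp)⟩
    rw [List.reverse_cons, app_append, app_cons σ, h2, app_cons, app_nil, rev_rev hp]

theorem sorts_iff {π : List ℤ} {l : List (ℕ × ℕ)} : Sorts π l ↔
    (∀ p ∈ l, p ∈ pairs π.length) ∧ app (ident π.length) l.reverse = π := by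
  simp only [Sorts, mem_pairs]
  refine and_congr_right fun h => ⟨fun h1 => ?_, fun h1 => ?_⟩
  · rw [← h1]
    exact (app_spec l π fun p hp => mem_pairs.2 (h p hp)).2.1
  · have := (app_spec l.reverse (ident π.length) fun p hp => by
      rw [length_ident]; exact mem_pairs.2 (h p (List.mem_reverse.1 hp))).2.1
    rwa [h1, List.reverse_reverse] at this

/-- Sequences of `k` reversals leading to a permutation with property `E`. -/
def seqs (n : ℕ) (E : List ℤ → Prop) [DecidablePred E] : ℕ → List ℤ → Finset (List (ℕ × ℕ))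
  | 0, σ => if E σ then {[]} else ∅
  | k + 1, σ => (pairs n).biUnion fun p => (seqs n E k (rev p σ)).image (List.cons p)

theorem mem_seqs {n : ℕ} {E : List ℤ → Prop} [DecidablePred E] {k : ℕ} :
    ∀ {σ : List ℤ} {l : List (ℕ × ℕ)},
    l ∈ seqs n E k σ ↔ l.length = k ∧ (∀ p ∈ l, p ∈ pairs n) ∧ E (app σ l) := by
  induction k with
  | zero =>
    intro σ l
    unfold seqs
    rcases l with _ | ⟨p, l⟩ <;> split_ifs <;> simp [*]
  | succ k ih =>
    intro σ l
    rcases l with _ | ⟨p, l⟩
    · simp [seqs]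
    · simp only [seqs, mem_biUnion, mem_image, List.cons.injEq, List.length_cons,
        Nat.add_right_cancel_iff, List.forall_mem_cons, app_cons, ih]
      constructor
      · rintro ⟨q, hq, l', h, rfl, rfl⟩; exact ⟨h.1, ⟨hq, h.2.1⟩, h.2.2⟩
      · rintro ⟨h1, ⟨h2, h3⟩, h4⟩; exact ⟨p, h2, l, ⟨h1, h3, h4⟩, rfl, rfl⟩

theorem card_seqs_succ (n : ℕ) (E : List ℤ → Prop) [DecidablePred E] (k : ℕ) (σ : List ℤ) :
    (seqs n E (k + 1) σ).card = ∑ p ∈ pairs n, (seqs n E k (rev p σ)).card := by
  rw [seqs, card_biUnion]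
  · exact sum_congr rfl fun p _ => card_image_of_injective _ List.cons_injective
  · intro p _ q _ hpq
    refine disjoint_left.2 fun l h1 h2 => hpq ?_
    obtain ⟨_, _, rfl⟩ := mem_image.1 h1
    obtain ⟨_, _, h⟩ := mem_image.1 h2
    exact (List.cons.inj h).1.symm

theorem numOpt_of_seqs {n : ℕ} {E : List ℤ → Prop} [DecidablePred E] {π : List ℤ} {d : ℕ}
    (hE : ∀ σ : List ℤ, σ.length = n → E σ → σ = π) (h1 : (seqs n E d (ident n)).Nonempty)
    (h2 : ∀ k < d, seqs n E k (ident n) = ∅) :
    IsSignedPerm π ∧ numOpt π = (seqs n E d (ident n)).card := by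
  obtain ⟨l, hl⟩ := h1
  obtain ⟨a1, a2, a3⟩ := mem_seqs.1 hl
  obtain ⟨b1, -, b2⟩ := app_spec l (ident n) (by simpa using a2)
  rw [length_ident] at b1
  have e := hE _ b1 a3
  rw [e] at b1 b2 a3
  have key : ∀ k l, (Sorts π l ∧ l.length = k) ↔ l.reverse ∈ seqs n E k (ident n) := by
    intro k l
    rw [sorts_iff, mem_seqs, b1]
    simp only [List.length_reverse, List.mem_reverse]
    constructor
    · rintro ⟨⟨c1, c2⟩, c3⟩; exact ⟨c3, c1, by rwa [c2]⟩
    · rintro ⟨c1, c2, c3⟩
      exact ⟨⟨c2, hE _ (by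
        rw [(app_spec _ (ident n) (by simpa using c2)).1, length_ident]) c3⟩, c1⟩
  have hd : dist π = d := by
    have hm : d ∈ {k | ∃ l, Sorts π l ∧ l.length = k} := ⟨l.reverse, (key _ _).2 (by simpa)⟩
    refine le_antisymm (Nat.sInf_le hm) (not_lt.1 fun h => ?_)
    obtain ⟨l', hl'⟩ := Nat.sInf_mem ⟨d, hm⟩
    have := (key (dist π) _).1 hl'
    rw [h2 _ h] at this
    simp at this
  refine ⟨b2 (signed_ident n), ?_⟩
  rw [numOpt, hd, ← Set.ncard_coe_finset, ← Set.ncard_image_of_injective _ List.reverse_injective]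
  congr 1
  ext l
  simp only [Set.mem_image, Set.mem_ofPred_eq, key, mem_coe]
  exact ⟨fun ⟨l', h, e⟩ => e ▸ h, fun h => ⟨l.reverse, by simpa, by simp⟩⟩

end Pool.Agent.MP_f00251_lc.H81

end MrgPart0

-- ======== part 1: formerly Pool.Agent.MP_f00251_lc.H81.Chain
section MrgPart1

/-!
Pressing sequences.
-/

set_option autoImplicit false
set_option linter.unusedSectionVars false
set_option linter.unusedVariables false

namespace Pool.Agent.MP_f00251_lc.H81

open Finset Function

section
variable {V : Type} [DecidableEq V]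

/-- Number of pressing sequences of a given length. -/
def ch : ℕ → (V → V → F2) → Finset V → ℕ
  | 0, _, _ => 1
  | n + 1, M, R => ∑ v ∈ R.filter (fun v => M v v = 1), ch n (press M v) (R.erase v)

theorem press_symm {M : V → V → F2} (hs : ∀ a b, M a b = M b a) (v : V) (a b : V) :
    press M v a b = press M v b a := by
  unfold press; rw [hs a b, hs a v, hs v b, mul_comm]

/-- Every closed set contains a loop. -/
def Ori (M : V → V → F2) (R : Finset V) : Prop :=
  ∀ X ⊆ R, X.Nonempty → (∀ a ∈ X, ∀ b ∈ R, b ∉ X → M a b = 0) → ∃ u ∈ X, M u u = 1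

theorem f2_ne_one {a : F2} : a ≠ 1 ↔ a = 0 := by revert a; decide

theorem exists_safe {M : V → V → F2} {R : Finset V} (hs : ∀ a b, M a b = M b a) (hf : Feas M R)
    (ho : Ori M R) (hne : R.Nonempty) :
    ∃ v ∈ R, M v v = 1 ∧ Ori (press M v) (R.erase v) := by
  obtain ⟨u, hu, hu1⟩ := ho R subset_rfl hne (fun a _ b hb h => absurd hb h)
  let f : V → V → ℤ := fun v u => if M v u = 1 then (if M u u = 1 then -1 else 1) else 0
  obtain ⟨v, hv, hmax⟩ := exists_max_image (R.filter fun v => M v v = 1) (fun v => ∑ u ∈ R, f v u)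
    ⟨u, mem_filter.2 ⟨hu, hu1⟩⟩
  obtain ⟨hvR, hv1⟩ := mem_filter.1 hv
  refine ⟨v, hvR, hv1, fun X hX hXne hcl => ?_⟩
  by_contra hno
  push Not at hno
  have hXR : X ⊆ R := hX.trans (erase_subset _ _)
  have hd : ∀ a ∈ X, M a a = M a v := by
    intro a ha
    have := f2_ne_one.1 (hno a ha)
    unfold press at this
    rw [hs v a] at this
    revert this
    generalize M a a = s
    generalize M a v = t
    revert s t; decide
  have hw : ∃ w ∈ X, M w v = 1 := by
    by_contra h
    push Not at h
    obtain ⟨w, hw, hw1⟩ := ho X hXR hXne fun a ha b hb hbX => by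
      by_cases e : b = v
      · rw [e]; exact f2_ne_one.1 (h a ha)
      · have := hcl a ha b (mem_erase.2 ⟨e, hb⟩) hbX
        unfold press at this
        rwa [f2_ne_one.1 (h a ha), zero_mul, add_zero] at this
    exact h w hw (by rw [← hd w hw, hw1])
  obtain ⟨w, hw, hw1⟩ := hw
  have hwv : w ≠ v := (mem_erase.1 (hX hw)).1
  have hle : ∀ u ∈ R, f v u ≤ f w u := by
    intro u hu
    by_cases e : u = v
    · subst e; simp [f, hw1, hv1]
    by_cases e' : u ∈ X
    · simp only [f, hd u e', hs v u]
      split_ifs <;> omega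
    · have := hcl w hw u (mem_erase.2 ⟨e, hu⟩) e'
      unfold press at this
      rw [hw1, one_mul, f2_add_eq_zero] at this
      simp only [f, this, le_refl]
  have heq := (sum_eq_sum_iff_of_le hle).1 (le_antisymm (sum_le_sum hle)
    (hmax w (mem_filter.2 ⟨hXR hw, by rw [hd w hw, hw1]⟩)))
  have hrow : ∀ u ∈ R, M v u = M w u := by
    intro u hu
    have := heq u hu
    simp only [f] at this
    rcases f2_cases (M v u) with h1 | h1 <;> rcases f2_cases (M w u) with h2 | h2 <;>
      rw [h1, h2] at this ⊢ <;> revert this <;> split_ifs <;> simp_all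
  have := hf (fun c => (if c = v then 1 else 0) + if c = w then 1 else 0) (fun a ha => by
    simp only [mul_add, sum_add_distrib, mul_ite, mul_one, mul_zero, sum_ite_eq', if_pos hvR,
      if_pos (hXR hw)]
    rw [hs a v, hs a w, hrow a ha, f2_add_self]) v hvR
  simp [hwv.symm] at this

theorem ch_pos (n : ℕ) : ∀ (M : V → V → F2) (R : Finset V), R.card = n →
    (∀ a b, M a b = M b a) → Feas M R → Ori M R → 0 < ch n M R := by
  induction n with
  | zero => intros; exact Nat.one_pos
  | succ n ih =>
    intro M R hn hs hf ho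
    obtain ⟨v, hv, h1, h2⟩ := exists_safe hs hf ho (card_pos.1 (by omega))
    refine lt_of_lt_of_le (ih (press M v) (R.erase v) (by rw [card_erase_of_mem hv]; omega)
      (press_symm hs v) ((feas_press hs (notMem_erase v R) h1).1 (by rwa [insert_erase hv])) h2) ?_
    exact single_le_sum (f := fun v => ch n (press M v) (R.erase v)) (fun _ _ => Nat.zero_le _)
      (mem_filter.2 ⟨hv, h1⟩)

end

variable {C : Type} [DecidableEq C]

/-- Copies of the classes. -/
def letters (S : Finset C) (m : C → ℕ) : Finset (C × ℕ) :=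
  S.biUnion fun c => (range (m c)).image fun i => (c, i)

theorem mem_letters {S : Finset C} {m : C → ℕ} {u : C × ℕ} :
    u ∈ letters S m ↔ u.1 ∈ S ∧ u.2 < m u.1 := by
  obtain ⟨c, i⟩ := u
  simp only [letters, mem_biUnion, mem_image, mem_range, Prod.mk.injEq]
  constructor
  · rintro ⟨c, h1, i, h2, rfl, rfl⟩; exact ⟨h1, h2⟩
  · rintro ⟨h1, h2⟩; exact ⟨c, h1, i, h2, rfl, rfl⟩

/-- The matrix of the copies. -/
def LM (H : C → C → F2) (u v : C × ℕ) : F2 :=
  if u.1 = v.1 then (if u.2 = v.2 then H u.1 u.1 else H u.1 u.1 + 1) else H u.1 v.1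

theorem LM_symm {H : C → C → F2} (hs : ∀ a b, H a b = H b a) (u v : C × ℕ) :
    LM H u v = LM H v u := by
  unfold LM
  by_cases h : u.1 = v.1
  · simp only [h, if_true, eq_comm]
  · rw [if_neg h, if_neg (Ne.symm h), hs]

/-- Number of copies of each class. -/
def cnt (T : Finset (C × ℕ)) (c : C) : ℕ := (T.filter fun u => u.1 = c).card

theorem cnt_insert {T : Finset (C × ℕ)} {v : C × ℕ} (hv : v ∉ T) :
    cnt (insert v T) = bump (cnt T) v.1 := by
  funext c
  rw [bump_apply, cnt, filter_insert]
  by_cases h : v.1 = c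
  · rw [if_pos h, if_pos h.symm, card_insert_of_notMem (fun h' => hv (mem_filter.1 h').1)]; rfl
  · rw [if_neg h, if_neg (Ne.symm h)]; rfl

theorem cnt_letters {S : Finset C} (m : C → ℕ) {c : C} (hc : c ∈ S) :
    cnt (letters S m) c = m c := by
  have : (letters S m).filter (fun u => u.1 = c) = (range (m c)).image fun i => (c, i) := by
    ext ⟨d, i⟩
    simp only [mem_filter, mem_letters, mem_image, mem_range, Prod.mk.injEq]
    constructor
    · rintro ⟨⟨_, h⟩, rfl⟩; exact ⟨i, h, rfl, rfl⟩
    · rintro ⟨i, h, rfl, rfl⟩; exact ⟨⟨hc, h⟩, rfl⟩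
  rw [cnt, this, card_image_of_injective _ (fun i j h => (Prod.mk.inj h).2), card_range]

theorem feas_letters {H : C → C → F2} (hs : ∀ a b, H a b = H b a) {S : Finset C}
    (T : Finset (C × ℕ)) : (∀ u ∈ T, u.1 ∈ S) → (Feas (LM H) T ↔ FE H S (cnt T)) := by
  induction T using Finset.strongInduction with
  | H T ih =>
    intro hT
    by_cases hi : Set.InjOn Prod.fst (T : Set (C × ℕ))
    · rw [feas_image (H := H) Prod.fst hi]
      · have : od S (cnt T) = T.image Prod.fst := by
          ext c
          simp only [mem_od, mem_image]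
          constructor
          · rintro ⟨_, h⟩
            obtain ⟨u, hu⟩ := card_pos.1 h.pos
            exact ⟨u, (mem_filter.1 hu).1, (mem_filter.1 hu).2⟩
          · rintro ⟨u, hu, rfl⟩
            refine ⟨hT u hu, ?_⟩
            have : T.filter (fun v => v.1 = u.1) = {u} := by
              ext v
              simp only [mem_filter, mem_singleton]
              exact ⟨fun h => hi h.1 hu h.2, fun h => by subst h; exact ⟨hu, rfl⟩⟩
            rw [cnt, this]; simp
        rw [FE, this]
      · intro a ha b hb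
        unfold LM
        split_ifs with h1 h2
        · rw [← h1]
        · exact absurd (congrArg Prod.snd (hi ha hb h1)) h2
        · rfl
    · simp only [Set.InjOn, not_forall] at hi
      obtain ⟨y, hy, y', hy', h1, h2⟩ := hi
      have hy1 : y' ∈ T.erase y := mem_erase.2 ⟨Ne.symm h2, hy'⟩
      have e : T = insert y (insert y' ((T.erase y).erase y')) := by
        rw [insert_erase hy1, insert_erase hy]
      have n1 : y ∉ (T.erase y).erase y' := fun h => notMem_erase y T (mem_of_mem_erase h)
      have n2 : y' ∉ (T.erase y).erase y' := notMem_erase _ _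
      have h3 : y.2 ≠ y'.2 := fun h => h2 (Prod.ext h1 h)
      have hss : (T.erase y).erase y' ⊂ T := (erase_subset _ _).trans_ssubset (erase_ssubset hy)
      have := ih _ hss fun u hu => hT u (hss.subset hu)
      rw [e, feas_twin (LM_symm hs) n1 n2 h2 (by simp [LM, h1, h3]) (by simp [LM, h1]), this,
        cnt_insert (by simp [h2, n1]), cnt_insert n2, h1]
      · refine iff_of_eq (congrArg (Feas H) (filter_congr fun c _ => ?_))
        simp only [bump_apply]
        split_ifs
        · simp [Nat.odd_add_one]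
        · rfl
      · intro c hc
        have a1 : c ≠ y := fun h => n1 (h ▸ hc)
        have a2 : c ≠ y' := fun h => n2 (h ▸ hc)
        unfold LM
        rw [← h1]
        split_ifs with b1 b2 b3 b3
        · rfl
        · exact absurd (Prod.ext (h1.symm.trans b1) b2).symm a2
        · exact absurd (Prod.ext b1 b3).symm a1
        · rfl
        · rfl

theorem ch_paths {H : C → C → F2} {S : Finset C} {m : C → ℕ} (n : ℕ) :
    ∀ (M : C × ℕ → C × ℕ → F2) (R : Finset (C × ℕ)) (k : C → ℕ), R.card = n →
    (∀ a b, M a b = M b a) → (∀ u ∈ R, u.1 ∈ S) → (∀ c ∈ S, k c + cnt R c = m c) →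
    (∀ T ⊆ R, Feas M T ↔ FE H S (k + cnt T)) →
    ch n M R = (∏ c ∈ S, (m c - k c).factorial) * paths S (FE H S) m k := by
  have e0 : ∀ k : C → ℕ, k + cnt (∅ : Finset (C × ℕ)) = k := fun k => by funext c; simp [cnt]
  induction n with
  | zero =>
    intro M R k hn hs hR hk hf
    obtain rfl := card_eq_zero.1 hn
    have h0 : ∀ c ∈ S, m c ≤ k c := fun c hc => by have := hk c hc; simp [cnt] at this; omega
    rw [paths_done (e0 k ▸ (hf ∅ subset_rfl).1 (feas_empty M)) (rem_eq_zero.2 h0),
      prod_eq_one fun c hc => by rw [Nat.sub_eq_zero_of_le (h0 c hc)]; rfl]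
    rfl
  | succ n ih =>
    intro M R k hn hs hR hk hf
    have e1 : ∀ (v : C × ℕ) (T : Finset (C × ℕ)), v ∉ T →
        k + cnt (insert v T) = bump k v.1 + cnt T := by
      intro v T hv
      funext c
      simp only [cnt_insert hv, Pi.add_apply, bump_apply]
      split_ifs <;> omega
    have e2 : ∀ v ∈ R, (if M v v = 1 then ch n (press M v) (R.erase v) else 0) =
        (∏ c ∈ S, (m c - bump k v.1 c).factorial) * paths S (FE H S) m (bump k v.1) := by
      intro v hv
      split_ifs with h
      · refine ih _ _ _ (by rw [card_erase_of_mem hv]; omega) (press_symm hs v)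
          (fun u hu => hR u (mem_of_mem_erase hu)) (fun c hc => ?_) (fun T hT => ?_)
        · have := congrFun (e1 v _ (notMem_erase v R)) c
          rw [insert_erase hv] at this
          rw [← hk c hc]; exact this.symm
        · have hvT : v ∉ T := fun h => notMem_erase v R (hT h)
          rw [← feas_press hs hvT h, ← e1 v T hvT]
          exact hf _ (insert_subset hv (hT.trans (erase_subset _ _)))
      · rw [paths_neg, mul_zero]
        intro h'
        apply h
        rw [← feas_singleton, hf _ (singleton_subset_iff.2 hv), ← insert_empty_eq,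
          e1 v _ (notMem_empty v), e0]
        exact h'
    have hrem : rem S m k ≠ 0 := by
      obtain ⟨v, hv⟩ := card_pos.1 (show 0 < R.card by omega)
      intro h
      have h1 := rem_eq_zero.1 h _ (hR v hv)
      have h2 := hk _ (hR v hv)
      have h3 : 0 < cnt R v.1 := card_pos.2 ⟨v, mem_filter.2 ⟨hv, rfl⟩⟩
      omega
    rw [ch, sum_filter, sum_congr rfl e2, ← sum_fiberwise_of_maps_to hR,
      paths_step (e0 k ▸ (hf ∅ (empty_subset R)).1 (feas_empty M)) hrem, mul_sum, av, sum_filter]
    refine sum_congr rfl fun c hc => ?_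
    rw [sum_congr rfl (g := fun _ => (∏ d ∈ S, (m d - bump k c d).factorial) *
      paths S (FE H S) m (bump k c)) (fun v hv => by rw [(mem_filter.1 hv).2]), sum_const,
      smul_eq_mul]
    change cnt R c * _ = _
    have := hk c hc
    split_ifs with h
    · rw [← mul_assoc, ← mul_prod_erase S _ hc, ← mul_prod_erase S _ hc, bump_self,
        prod_congr rfl (fun d hd => by rw [bump_ne k (ne_of_mem_erase hd)]),
        show m c - k c = (m c - (k c + 1)) + 1 by omega, Nat.factorial_succ,
        show cnt R c = (m c - (k c + 1)) + 1 by omega]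
      ring
    · rw [show cnt R c = 0 by omega, zero_mul]

theorem ch_letters {H : C → C → F2} (hs : ∀ a b, H a b = H b a) (S : Finset C) (m : C → ℕ) :
    ch (letters S m).card (LM H) (letters S m) =
      (∏ c ∈ S, (m c).factorial) * paths S (FE H S) m 0 :=
  ch_paths _ _ _ 0 rfl (LM_symm hs) (fun u hu => (mem_letters.1 hu).1)
    (fun c hc => by simp [cnt_letters m hc]) (fun T hT => by
      rw [zero_add]; exact feas_letters hs T fun u hu => (mem_letters.1 (hT hu)).1)

theorem ch_letters_pos {H : C → C → F2} (hs : ∀ a b, H a b = H b a) (S : Finset C) (m : C → ℕ)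
    (hf : FE H S m) (ho : ∀ c ∈ S, ∃ a ∈ S, ∃ b ∈ S, 0 < m a ∧ 0 < m b ∧ (a = c ∨ H c a = 1) ∧
      (b = a ∨ H a b = 1) ∧ H b b = 1) : 0 < ch (letters S m).card (LM H) (letters S m) := by
  refine ch_pos _ _ _ rfl (LM_symm hs) ?_ ?_
  · rw [feas_letters hs (S := S) _ fun u hu => (mem_letters.1 hu).1, FE,
      od_congr (k' := m) fun c hc => cnt_letters m hc]
    exact hf
  · rintro X hX ⟨u, hu⟩ hcl
    have key : ∀ u ∈ X, ∀ a ∈ S, 0 < m a → (a = u.1 ∨ H u.1 a = 1) → ∃ v ∈ X, v.1 = a := by
      intro u hu a ha h0 h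
      by_cases e : a = u.1
      · exact ⟨u, hu, e.symm⟩
      · refine ⟨(a, 0), ?_, rfl⟩
        by_contra hn
        have := hcl u hu (a, 0) (mem_letters.2 ⟨ha, h0⟩) hn
        rw [LM, if_neg (Ne.symm e), h.resolve_left e] at this
        exact one_ne_zero this
    obtain ⟨a, ha, b, hb, h1, h2, h3, h4, h5⟩ := ho u.1 (mem_letters.1 (hX hu)).1
    obtain ⟨v, hv, rfl⟩ := key u hu a ha h1 h3
    obtain ⟨w, hw, rfl⟩ := key v hv b hb h2 h4
    exact ⟨w, hw, by simp [LM, h5]⟩

end Pool.Agent.MP_f00251_lc.H81

end MrgPart1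

-- ======== part 2: formerly Pool.Agent.MP_f00251_lc.H81.Perm
section MrgPart2

/-!
Permutations given by a chord diagram: optimal sorting sequences are pressing sequences.
-/

set_option autoImplicit false
set_option linter.unusedSectionVars false
set_option linter.unusedVariables false

namespace Pool.Agent.MP_f00251_lc.H81

open Finset

/-- The left entry of the adjacency `g` read in a direction. -/
def lft (g : ℕ) (o : Bool) : ℤ := cond o (-(g : ℤ) - 1) g

/-- Successor function of the permutation of a chord diagram. -/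
def nx (mt : ℕ → ℕ) (lp : ℕ → Bool) (a : ℤ) : ℤ :=
  if 0 ≤ a then cond (lp a.toNat) (-(mt a.toNat : ℤ)) (mt a.toNat + 1)
  else cond (lp (-a - 1).toNat) (mt (-a - 1).toNat + 1) (-(mt (-a - 1).toNat : ℤ))

theorem nx_lft (mt : ℕ → ℕ) (lp : ℕ → Bool) (g : ℕ) (o : Bool) :
    nx mt lp (lft g o) = cond (xor (lp g) o) (-(mt g : ℤ)) (mt g + 1) := by
  cases o
  · simp [nx, lft]
  · have : ¬ (0 : ℤ) ≤ -(g : ℤ) - 1 := by omega
    have e : (-(-(g : ℤ) - 1) - 1).toNat = g := by omega
    simp only [nx, lft, cond_true, if_neg this, e]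
    cases lp g <;> rfl

theorem exists_lft (a : ℤ) : ∃ g o, a = lft g o := by
  by_cases h : 0 ≤ a
  · exact ⟨a.toNat, false, by simp [lft, h]⟩
  · exact ⟨(-a - 1).toNat, true, by simp only [lft, cond_true]; omega⟩

theorem lft_inj {g g' : ℕ} {o o' : Bool} (h : lft g o = lft g' o') : g = g' ∧ o = o' := by
  cases o <;> cases o' <;> simp only [lft, cond_true, cond_false] at h <;> simp <;> omega

theorem lft_not (g : ℕ) (o : Bool) : lft g (!o) = - lft g o - 1 := by
  cases o <;> simp [lft]

theorem neg_nx_lft (mt : ℕ → ℕ) (lp : ℕ → Bool) (g : ℕ) (o : Bool) :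
    - nx mt lp (lft g o) = lft (mt g) (!xor (lp g) o) := by
  rw [nx_lft]
  cases xor (lp g) o <;> simp [lft]; ring

/-- Reflection of the locations strictly between `s` and `j`. -/
def phi (s j t : ℕ) : ℕ := if s < t ∧ t < j then s + j - t else t

theorem phi_phi (s j t : ℕ) : phi s j (phi s j t) = t := by unfold phi; split_ifs <;> omega

/-- Order indicator. -/
def lt2 (a b : ℕ) : F2 := if a < b then 1 else 0

/-- Interval indicator. -/
def ins (s j t : ℕ) : F2 := if s < t ∧ t < j then 1 else 0

/-- A truth value in the field. -/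
def b2 (b : Bool) : F2 := cond b 1 0

theorem lt2_phi {s j a c : ℕ} (h : a ≠ c) (h1 : a ≠ s) (h2 : a ≠ j) (h3 : c ≠ s) (h4 : c ≠ j) :
    lt2 (phi s j a) (phi s j c) = lt2 a c + ins s j a * ins s j c := by
  unfold lt2 phi ins
  split_ifs <;> first | omega | decide

theorem lt2_ins {s j a : ℕ} (h : s < j) (h1 : a ≠ s) (h2 : a ≠ j) :
    lt2 a s + lt2 a j = ins s j a := by
  unfold lt2 ins
  split_ifs <;> first | omega | decide

theorem b2_xor (o : Bool) (s j t : ℕ) :
    b2 (xor o (decide (s < t ∧ t < j))) = b2 o + ins s j t := by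
  unfold ins
  split_ifs with h <;> cases o <;> simp [b2, h]
  decide

/-- The matrix of a chord diagram with orientations. -/
def gm {V : Type} [DecidableEq V] (lv : V → Bool) (loc : V → Bool → ℕ) (ori : V → Bool → Bool)
    (u v : V) : F2 :=
  if u = v then b2 (lv u) + b2 (ori u false) + b2 (ori u true) else
    lt2 (loc u false) (loc v false) + lt2 (loc u false) (loc v true) +
      (lt2 (loc u true) (loc v false) + lt2 (loc u true) (loc v true))

section

variable {mt : ℕ → ℕ} {lp : ℕ → Bool} (hm : ∀ g, mt (mt g) = g) (hl : ∀ g, lp (mt g) = lp g)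

/-- Number of breakpoints. -/
def bp (mt : ℕ → ℕ) (lp : ℕ → Bool) (n : ℕ) (σ : List ℤ) : ℕ :=
  ∑ t ∈ range (n + 1), if ex σ (t + 1) = nx mt lp (ex σ t) then 0 else 1

include hm hl

theorem nx_symm (a : ℤ) : nx mt lp (- nx mt lp a) = - a := by
  obtain ⟨g, o, rfl⟩ := exists_lft a
  rw [neg_nx_lft, nx_lft, hm, hl]
  cases o <;> cases lp g <;> simp [lft] <;> ring

theorem good_rev {σ : List ℤ} {s j : ℕ} (hp : (s + 1, j) ∈ pairs σ.length) {t : ℕ} (h1 : t ≠ s)
    (h2 : t ≠ j) : ex (rev (s + 1, j) σ) (phi s j t + 1) = nx mt lp (ex (rev (s + 1, j) σ)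
      (phi s j t)) ↔ ex σ (t + 1) = nx mt lp (ex σ t) := by
  rw [ex_rev hp, ex_rev hp]
  have := mem_pairs.1 hp
  unfold phi
  simp only at this ⊢
  by_cases h : s < t ∧ t < j
  · rw [if_pos h, if_pos (by omega), if_pos (by omega),
      show s + 1 + j - (s + j - t + 1) = t by omega,
      show s + 1 + j - (s + j - t) = t + 1 by omega]
    constructor
    · intro e
      have := nx_symm hm hl (-ex σ (t + 1))
      rw [← e, neg_neg, neg_neg] at this
      exact this.symm
    · intro e
      rw [e, nx_symm hm hl]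
  · rw [if_neg h, if_neg (by omega), if_neg (by omega)]

theorem bp_rev {σ : List ℤ} {s j : ℕ} (hp : (s + 1, j) ∈ pairs σ.length) :
    bp mt lp σ.length σ + ((if ex (rev (s + 1, j) σ) (s + 1) = nx mt lp (ex (rev (s + 1, j) σ) s)
      then 0 else 1) + (if ex (rev (s + 1, j) σ) (j + 1) = nx mt lp (ex (rev (s + 1, j) σ) j)
      then 0 else 1)) = bp mt lp σ.length (rev (s + 1, j) σ) +
      ((if ex σ (s + 1) = nx mt lp (ex σ s) then 0 else 1) +
        (if ex σ (j + 1) = nx mt lp (ex σ j) then 0 else 1)) := by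
  have h := mem_pairs.1 hp
  simp only at h
  have e : bp mt lp σ.length (rev (s + 1, j) σ) = ∑ t ∈ range (σ.length + 1),
      if ex (rev (s + 1, j) σ) (phi s j t + 1) = nx mt lp (ex (rev (s + 1, j) σ) (phi s j t))
      then 0 else 1 := by
    refine sum_nbij' (phi s j) (phi s j) ?_ ?_ (fun t _ => phi_phi s j t)
      (fun t _ => phi_phi s j t) (fun t _ => by rw [phi_phi])
    all_goals
      intro t ht
      simp only [mem_range, phi] at ht ⊢
      split_ifs <;> omega
  have hs : s ∈ range (σ.length + 1) := mem_range.2 (by omega)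
  have hj : j ∈ (range (σ.length + 1)).erase s := mem_erase.2 ⟨by omega, mem_range.2 (by omega)⟩
  rw [e, bp, ← add_sum_erase _ _ hs, ← add_sum_erase _ _ hs, ← add_sum_erase _ _ hj,
    ← add_sum_erase _ _ hj, sum_congr rfl fun t ht => if_congr (good_rev hm hl hp
      (ne_of_mem_erase (mem_of_mem_erase ht)) (ne_of_mem_erase ht)).symm rfl rfl,
    show phi s j s = s by simp [phi], show phi s j j = j by simp [phi]]
  ring

theorem seqs_empty {n : ℕ} (k : ℕ) : ∀ σ : List ℤ, σ.length = n → 2 * k < bp mt lp n σ →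
    seqs n (fun σ => bp mt lp n σ = 0) k σ = ∅ := by
  induction k with
  | zero => intro σ _ h; rw [seqs, if_neg (by omega)]
  | succ k ih =>
    rintro σ rfl h
    rw [← card_eq_zero, card_seqs_succ]
    refine sum_eq_zero fun p hp => card_eq_zero.2 (ih _ (length_rev hp) ?_)
    obtain ⟨i, j⟩ := p
    obtain ⟨s, rfl⟩ : ∃ s, i = s + 1 := ⟨i - 1, by have := (mem_pairs.1 hp).1; simp at this; omega⟩
    have := bp_rev hm hl hp
    split_ifs at this <;> omega

omit hm hl in
theorem bp_zero {n : ℕ} {σ : List ℤ} (hn : σ.length = n) (h : bp mt lp n σ = 0) :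
    σ = (List.range n).map fun t => (nx mt lp)^[t + 1] 0 := by
  have key : ∀ t ≤ n + 1, ex σ t = (nx mt lp)^[t] 0 := by
    intro t
    induction t with
    | zero => intro _; rfl
    | succ t ih =>
      intro ht
      have := sum_eq_zero_iff.1 h t (mem_range.2 (by omega))
      rw [Function.iterate_succ_apply', ← ih (by omega)]
      by_contra hc
      rw [if_neg hc] at this
      omega
  refine ex_ext (by simp [hn]) fun t ht => ?_
  rw [key _ (by omega), ex_succ (by simp; omega)]
  simp

variable {V : Type} [DecidableEq V] {en : V → Bool → ℕ} {lv : V → Bool} {R₀ : Finset V}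

/-- Description of a permutation met while resolving the chords. -/
structure Inv (mt : ℕ → ℕ) (lp : ℕ → Bool) (en : V → Bool → ℕ) (σ : List ℤ) (R : Finset V)
    (loc : V → Bool → ℕ) (ori : V → Bool → Bool) : Prop where
  le : ∀ v ∈ R, ∀ s, loc v s ≤ σ.length
  e0 : ∀ v ∈ R, ∀ s, ex σ (loc v s) = lft (en v s) (ori v s)
  e1 : ∀ v ∈ R, ∀ s, ex σ (loc v s + 1) = lft (en v s) (ori v s) + 1
  good : ∀ t ≤ σ.length, (∀ v ∈ R, ∀ s, loc v s ≠ t) → ex σ (t + 1) = nx mt lp (ex σ t)

variable (hinj : ∀ u ∈ R₀, ∀ v ∈ R₀, ∀ a b, en u a = en v b → u = v ∧ a = b)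
  (hmt : ∀ v ∈ R₀, ∀ a, mt (en v a) = en v (!a)) (hlp : ∀ v ∈ R₀, ∀ a, lp (en v a) = lv v)
include hinj hmt hlp

omit hm hl hmt hlp in
theorem Inv.inj {σ : List ℤ} {R : Finset V} {loc : V → Bool → ℕ} {ori : V → Bool → Bool}
    (h : Inv mt lp en σ R loc ori) (hR : R ⊆ R₀) {u v : V} (hu : u ∈ R) (hv : v ∈ R) {a b : Bool}
    (e : loc u a = loc v b) : u = v ∧ a = b := by
  have := h.e0 u hu a
  rw [e, h.e0 v hv b] at this
  exact hinj u (hR hu) v (hR hv) a b (lft_inj this).1.symm

omit hm hl hlp in
theorem Inv.bad {σ : List ℤ} {R : Finset V} {loc : V → Bool → ℕ} {ori : V → Bool → Bool}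
    (h : Inv mt lp en σ R loc ori) (hR : R ⊆ R₀) {v : V} (hv : v ∈ R) (a : Bool) :
    ex σ (loc v a + 1) ≠ nx mt lp (ex σ (loc v a)) := by
  rw [h.e1 v hv, h.e0 v hv]
  intro e
  have := neg_nx_lft mt lp (en v a) (ori v a)
  rw [← e, neg_add', ← lft_not, hmt v (hR hv)] at this
  have := (hinj v (hR hv) v (hR hv) _ _ (lft_inj this).1).2
  simp at this

omit hm hl hlp in
theorem Inv.bp {σ : List ℤ} {R : Finset V} {loc : V → Bool → ℕ} {ori : V → Bool → Bool}
    (h : Inv mt lp en σ R loc ori) (hR : R ⊆ R₀) : bp mt lp σ.length σ = 2 * R.card := by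
  have : (range (σ.length + 1)).filter (fun t => ¬ ex σ (t + 1) = nx mt lp (ex σ t)) =
      (R ×ˢ (univ : Finset Bool)).image fun p => loc p.1 p.2 := by
    ext t
    simp only [mem_filter, mem_range, mem_image, mem_product, mem_univ, and_true, Prod.exists]
    constructor
    · rintro ⟨h1, h2⟩
      by_contra hc
      push Not at hc
      exact h2 (h.good t (by omega) fun v hv s => hc v s hv)
    · rintro ⟨v, a, hv, rfl⟩
      exact ⟨Nat.lt_succ_of_le (h.le v hv a), h.bad hinj hmt hR hv a⟩
  unfold H81.bp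
  rw [sum_ite, sum_const_zero, zero_add, this, sum_const, card_image_of_injOn, card_product]
  · simp [mul_comm]
  · rintro ⟨u, a⟩ hu ⟨v, b⟩ hv e
    obtain ⟨rfl, rfl⟩ := h.inj hinj hR (mem_product.1 hu).1 (mem_product.1 hv).1 e
    rfl

theorem Inv.step {σ : List ℤ} {R : Finset V} {loc : V → Bool → ℕ} {ori : V → Bool → Bool}
    (h : Inv mt lp en σ R loc ori) (hR : R ⊆ R₀) {v : V} (hv : v ∈ R) (a : Bool)
    (hlt : loc v a < loc v (!a)) (h1 : gm lv loc ori v v = 1) :
    Inv mt lp en (rev (loc v a + 1, loc v (!a)) σ) (R.erase v)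
      (fun u b => phi (loc v a) (loc v (!a)) (loc u b))
      (fun u b => xor (ori u b) (decide (loc v a < loc u b ∧ loc u b < loc v (!a)))) := by
  have hp : (loc v a + 1, loc v (!a)) ∈ pairs σ.length :=
    mem_pairs.2 ⟨by simp, hlt, h.le v hv _⟩
  have hne : ∀ u ∈ R.erase v, ∀ b c, loc u b ≠ loc v c := fun u hu b c e =>
    ne_of_mem_erase hu (h.inj hinj hR (mem_of_mem_erase hu) hv e).1
  have hj := h.le v hv (!a)
  have ho : ori v (!a) = !xor (lv v) (ori v a) := by
    simp only [gm, if_true] at h1
    revert h1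
    cases a <;> simp only [Bool.not_true, Bool.not_false] <;> cases lv v <;> cases ori v false <;>
      cases ori v true <;> decide
  refine ⟨fun u hu b => ?_, fun u hu b => ?_, fun u hu b => ?_, fun t ht hn => ?_⟩
  · have := h.le u (mem_of_mem_erase hu) b
    rw [length_rev hp]
    unfold phi; split_ifs <;> omega
  · have a1 := hne u hu b a
    have a2 := hne u hu b (!a)
    rw [ex_rev hp]
    unfold phi
    by_cases c : loc v a < loc u b ∧ loc u b < loc v (!a)
    · simp only [if_pos c, decide_eq_true c, Bool.xor_true]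
      rw [if_pos (by omega), show loc v a + 1 + loc v (!a) - (loc v a + loc v (!a) - loc u b) =
        loc u b + 1 by omega, h.e1 u (mem_of_mem_erase hu), lft_not]
      ring
    · simp only [if_neg c, decide_eq_false c, Bool.xor_false]
      rw [if_neg (by omega), h.e0 u (mem_of_mem_erase hu)]
  · have a1 := hne u hu b a
    have a2 := hne u hu b (!a)
    rw [ex_rev hp]
    unfold phi
    by_cases c : loc v a < loc u b ∧ loc u b < loc v (!a)
    · simp only [if_pos c, decide_eq_true c, Bool.xor_true]
      rw [if_pos (by omega), show loc v a + 1 + loc v (!a) -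
        (loc v a + loc v (!a) - loc u b + 1) = loc u b by omega, h.e0 u (mem_of_mem_erase hu),
        lft_not]
      ring
    · simp only [if_neg c, decide_eq_false c, Bool.xor_false]
      rw [if_neg (by omega), h.e1 u (mem_of_mem_erase hu)]
  · rw [length_rev hp] at ht
    by_cases c1 : t = loc v a
    · rw [c1, ex_rev hp, ex_rev hp, if_pos (by simp; omega), if_neg (by simp), h.e0 v hv,
        show loc v a + 1 + loc v (!a) - (loc v a + 1) = loc v (!a) by omega, h.e0 v hv, ho,
        ← hmt v (hR hv), ← hlp v (hR hv) a, ← neg_nx_lft, neg_neg]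
    by_cases c2 : t = loc v (!a)
    · rw [c2, ex_rev hp, ex_rev hp, if_neg (by simp), if_pos (by simp; omega), h.e1 v hv,
        show loc v a + 1 + loc v (!a) - loc v (!a) = loc v a + 1 by omega, h.e1 v hv, ho,
        neg_add', ← lft_not, nx_lft, hmt v (hR hv), hlp v (hR hv)]
      cases lv v <;> cases ori v a <;> simp [lft]
    have c3 : phi (loc v a) (loc v (!a)) t ≠ loc v a := by unfold phi; split_ifs <;> omega
    have c4 : phi (loc v a) (loc v (!a)) t ≠ loc v (!a) := by unfold phi; split_ifs <;> omega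
    have := (good_rev hm hl hp c3 c4).2 (h.good _ (by unfold phi; split_ifs <;> omega)
      fun u hu b e => by
        by_cases c : u = v
        · subst c
          by_cases c5 : b = a
          · exact c3 (by rw [← e, c5])
          · exact c4 (by rw [← e, Bool.eq_not.2 c5])
        · exact hn u (mem_erase.2 ⟨c, hu⟩) b (by rw [e, phi_phi]))
    rwa [phi_phi] at this

omit hm hl hmt hlp in
theorem Inv.gm_step {σ : List ℤ} {R : Finset V} {loc : V → Bool → ℕ} {ori : V → Bool → Bool}
    (h : Inv mt lp en σ R loc ori) (hR : R ⊆ R₀) {v : V} (hv : v ∈ R) (a : Bool)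
    (hlt : loc v a < loc v (!a)) {u u' : V} (hu : u ∈ R.erase v) (hu' : u' ∈ R.erase v) :
    gm lv loc ori u u' + gm lv loc ori u v * gm lv loc ori u' v =
      gm lv (fun u b => phi (loc v a) (loc v (!a)) (loc u b))
      (fun u b => xor (ori u b) (decide (loc v a < loc u b ∧ loc u b < loc v (!a)))) u u' := by
  have hne : ∀ u ∈ R.erase v, ∀ b c, loc u b ≠ loc v c := fun u hu b c e =>
    ne_of_mem_erase hu (h.inj hinj hR (mem_of_mem_erase hu) hv e).1
  have e : ∀ u ∈ R.erase v, gm lv loc ori u v = ins (loc v a) (loc v (!a)) (loc u false) +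
      ins (loc v a) (loc v (!a)) (loc u true) := by
    intro u hu
    rw [gm, if_neg (ne_of_mem_erase hu), ← lt2_ins hlt (hne u hu _ _) (hne u hu _ _),
      ← lt2_ins hlt (hne u hu _ _) (hne u hu _ _)]
    cases a
    · rfl
    · simp only [Bool.not_true]; ring
  rw [e u hu, e u' hu']
  unfold gm
  split_ifs with c
  · subst c
    rw [b2_xor, b2_xor]
    generalize ins (loc v a) (loc v (!a)) (loc u false) = x
    generalize ins (loc v a) (loc v (!a)) (loc u true) = y
    have : ∀ x y : F2, (x + y) * (x + y) = x + y := by decide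
    rw [this]; ring
  · have n : ∀ b b', loc u b ≠ loc u' b' := fun b b' e =>
      c (h.inj hinj hR (mem_of_mem_erase hu) (mem_of_mem_erase hu') e).1
    simp only [lt2_phi (n _ _) (hne u hu _ _) (hne u hu _ _) (hne u' hu' _ _) (hne u' hu' _ _)]
    ring

theorem card_seqs_ch {n : ℕ} (k : ℕ) : ∀ (σ : List ℤ) (R : Finset V) (loc : V → Bool → ℕ)
    (ori : V → Bool → Bool) (M : V → V → F2), σ.length = n → R.card = k → R ⊆ R₀ →
    Inv mt lp en σ R loc ori → (∀ a b, M a b = M b a) →
    (∀ u ∈ R, ∀ v ∈ R, M u v = gm lv loc ori u v) →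
    (seqs n (fun σ => bp mt lp n σ = 0) k σ).card = ch k M R := by
  induction k with
  | zero =>
    rintro σ R loc ori M rfl hk hR h hs hM
    rw [seqs, if_pos (by rw [h.bp hinj hmt hR, hk])]; rfl
  | succ k ih =>
    rintro σ R loc ori M rfl hk hR h hs hM
    let sd : V → Bool := fun v => decide (loc v true < loc v false)
    have hsd : ∀ v ∈ R, loc v (sd v) < loc v (!sd v) := by
      intro v hv
      have : loc v false ≠ loc v true := fun e => by simpa using (h.inj hinj hR hv hv e).2
      by_cases c : loc v true < loc v false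
      · simp [sd, c]
      · simp only [sd, decide_eq_false c, Bool.not_false]; omega
    let pr : V → ℕ × ℕ := fun v => (loc v (sd v) + 1, loc v (!sd v))
    have hpr : ∀ v ∈ R, pr v ∈ pairs σ.length := fun v hv =>
      mem_pairs.2 ⟨by simp [pr], hsd v hv, h.le v hv _⟩
    rw [card_seqs_succ, ch, ← sum_subset (s₁ := (R.filter fun v => M v v = 1).image pr),
      sum_image]
    · refine sum_congr rfl fun v hv => ?_
      obtain ⟨h1, h2⟩ := mem_filter.1 hv
      refine ih _ _ _ _ _ (length_rev (hpr v h1)) (by rw [card_erase_of_mem h1]; omega)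
        ((erase_subset _ _).trans hR) (h.step hm hl hinj hmt hlp hR h1 (sd v) (hsd v h1)
          (by rw [← hM v h1 v h1, h2])) (press_symm hs v) fun u hu u' hu' => ?_
      rw [← h.gm_step hinj hR h1 (sd v) (hsd v h1) hu hu', press, hs v u',
        hM u (mem_of_mem_erase hu) u' (mem_of_mem_erase hu'), hM u (mem_of_mem_erase hu) v h1,
        hM u' (mem_of_mem_erase hu') v h1]
    · intro u hu v hv e
      exact (h.inj hinj hR (mem_filter.1 hu).1 (mem_filter.1 hv).1 (Prod.mk.inj e).2).1
    · intro p hp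
      obtain ⟨v, hv, rfl⟩ := mem_image.1 hp
      exact hpr v (mem_filter.1 hv).1
    · rintro ⟨i, j⟩ hp hn
      obtain ⟨s, rfl⟩ : ∃ s, i = s + 1 :=
        ⟨i - 1, by have := (mem_pairs.1 hp).1; simp at this; omega⟩
      have hp' := mem_pairs.1 hp
      simp only at hp'
      refine card_eq_zero.2 (seqs_empty hm hl k _ (length_rev hp) (not_le.1 fun hle => hn ?_))
      have e := bp_rev hm hl hp
      rw [h.bp hinj hmt hR, hk] at e
      have ⟨g1, g2, g3⟩ : ex (rev (s + 1, j) σ) (s + 1) = nx mt lp (ex (rev (s + 1, j) σ) s) ∧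
          ¬ ex σ (s + 1) = nx mt lp (ex σ s) ∧ ¬ ex σ (j + 1) = nx mt lp (ex σ j) := by
        split_ifs at e <;> omega
      obtain ⟨v, hv, a, rfl⟩ : ∃ v ∈ R, ∃ a, loc v a = s := by
        by_contra hc
        push Not at hc
        exact g2 (h.good s (by omega) hc)
      obtain ⟨v', hv', a', rfl⟩ : ∃ v ∈ R, ∃ a, loc v a = j := by
        by_contra hc
        push Not at hc
        exact g3 (h.good j (by omega) hc)
      rw [ex_rev hp, ex_rev hp, if_pos (by simp; omega), if_neg (by simp), h.e0 v hv,
        show loc v a + 1 + loc v' a' - (loc v a + 1) = loc v' a' by omega, h.e0 v' hv',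
        neg_eq_iff_eq_neg, neg_nx_lft, hmt v (hR hv), hlp v (hR hv)] at g1
      obtain ⟨g4, g5⟩ := lft_inj g1
      obtain ⟨rfl, rfl⟩ := hinj _ (hR hv') _ (hR hv) _ _ g4
      refine mem_image.2 ⟨v', mem_filter.2 ⟨hv, ?_⟩, ?_⟩
      · rw [hM v' hv v' hv, gm, if_pos rfl]
        revert g5
        cases a <;> simp only [Bool.not_true, Bool.not_false] <;> cases lv v' <;>
          cases ori v' false <;> cases ori v' true <;> decide
      · have : sd v' = a := by
          cases a <;> simp only [Bool.not_true, Bool.not_false] at hp' <;> simp [sd] <;> omega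
        simp only [pr, this]

omit hm hl in
theorem numOpt_chords {n : ℕ} (hle : ∀ v ∈ R₀, ∀ a, en v a ≤ n)
    (hfix : ∀ g, (∀ v ∈ R₀, ∀ a, en v a ≠ g) → mt g = g ∧ lp g = false) {M : V → V → F2}
    (hs : ∀ a b, M a b = M b a)
    (hM : ∀ u ∈ R₀, ∀ v ∈ R₀, M u v = gm lv en (fun _ _ => false) u v)
    (hpos : 0 < ch R₀.card M R₀) :
    IsSignedPerm ((List.range n).map fun t => (nx mt lp)^[t + 1] 0) ∧
      numOpt ((List.range n).map fun t => (nx mt lp)^[t + 1] 0) = ch R₀.card M R₀ := by
  have hm : ∀ g, mt (mt g) = g ∧ lp (mt g) = lp g := by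
    intro g
    by_cases c : ∃ v ∈ R₀, ∃ a, en v a = g
    · obtain ⟨v, hv, a, rfl⟩ := c
      rw [hmt v hv, hmt v hv, hlp v hv, hlp v hv]; simp
    · push Not at c
      rw [(hfix g c).1, (hfix g c).1]; simp
  have hI : Inv mt lp en (ident n) R₀ en (fun _ _ => false) := by
    refine ⟨fun v hv a => by simpa using hle v hv a, fun v hv a => ?_, fun v hv a => ?_,
      fun t ht hn => ?_⟩
    · rw [ex_ident (by have := hle v hv a; omega)]; rfl
    · rw [ex_ident (by have := hle v hv a; omega)]; rfl
    · rw [length_ident] at ht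
      rw [ex_ident (by omega), ex_ident (by omega)]
      have := nx_lft mt lp t false
      rw [(hfix t hn).1, (hfix t hn).2] at this
      exact this.symm
  have hc := card_seqs_ch (fun g => (hm g).1) (fun g => (hm g).2) hinj hmt hlp _ _ _ _ _ M
    (length_ident n) rfl subset_rfl hI hs hM
  rw [← hc]
  refine numOpt_of_seqs (fun σ h1 h2 => bp_zero h1 h2) (card_pos.1 (by rwa [hc])) fun k hk =>
    seqs_empty (fun g => (hm g).1) (fun g => (hm g).2) k _ (length_ident n) ?_
  have := hI.bp hinj hmt subset_rfl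
  rw [length_ident] at this
  omega

end

end Pool.Agent.MP_f00251_lc.H81

end MrgPart2

-- ======== part 3: formerly Pool.Agent.MP_f00251_lc.H81.PermCls
section MrgPart3

/-!
The permutation of a chord diagram with bundles of parallel chords.
-/

set_option autoImplicit false
set_option linter.unusedSectionVars false
set_option linter.unusedVariables false

namespace Pool.Agent.MP_f00251_lc.H81

open Finset Pool.Agent.PolyT Pool.Agent.H82 N487b59b3

/-- Table lookup. -/
def look (L : List (ℕ × ℕ × Bool)) (g : ℕ) : ℕ × ℕ × Bool :=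
  (L.filter fun e => eqB e.1 g).getD 0 (g, g, false)

theorem look_cases (L : List (ℕ × ℕ × Bool)) (g : ℕ) :
    (look L g ∈ L ∧ (look L g).1 = g) ∨ ((∀ e ∈ L, e.1 ≠ g) ∧ look L g = (g, g, false)) := by
  rcases h : L.filter (fun e => eqB e.1 g) with _ | ⟨e, l⟩
  · right
    rw [look, h]
    rw [List.filter_eq_nil_iff] at h
    exact ⟨fun e he => by simpa using h e he, rfl⟩
  · left
    have : e ∈ L.filter (fun e => eqB e.1 g) := by rw [h]; simp
    rw [look, h]
    simpa using this

/-- One step of the successor function on coded entries. -/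
def stepN (L : List (ℕ × ℕ × Bool)) (s : ℕ × Bool) : ℕ × Bool :=
  cond (!eqB (look L s.1).2.2 s.2)
    (cond (eqB (look L s.1).2.1 0) (0, false) ((look L s.1).2.1 - 1, true))
    ((look L s.1).2.1 + 1, false)

theorem lft_stepN (L : List (ℕ × ℕ × Bool)) (s : ℕ × Bool) :
    lft (stepN L s).1 (stepN L s).2 =
      nx (fun g => (look L g).2.1) (fun g => (look L g).2.2) (lft s.1 s.2) := by
  rw [nx_lft, stepN]
  generalize (look L s.1).2.1 = a
  generalize (look L s.1).2.2 = b
  rcases a with _ | a <;> cases b <;> cases s.2 <;> simp [lft, eqB] <;> ring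

/-- Iteration of the successor function. -/
def iterN (L : List (ℕ × ℕ × Bool)) (l : List ℕ) : ℕ × Bool :=
  l.foldl (fun s _ => stepN L s) (0, false)

theorem foldl_const_iter {α β : Type} (f : α → α) (l : List β) (a : α) :
    l.foldl (fun s _ => f s) a = f^[l.length] a := by
  induction l generalizing a with
  | nil => rfl
  | cons x l ih => simp [ih]

/-- The permutation of size `u.length` given by a table of chords. -/
def permOf (L : List (ℕ × ℕ × Bool)) (u : List ℕ) : List ℤ :=
  (idx u).map fun t => lft (iterN L ((0 :: u).take (t + 1))).1 (iterN L ((0 :: u).take (t + 1))).2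

theorem permOf_eq (L : List (ℕ × ℕ × Bool)) (u : List ℕ) : permOf L u = (List.range u.length).map
    fun t => (nx (fun g => (look L g).2.1) (fun g => (look L g).2.2))^[t + 1] 0 := by
  have key : ∀ t, lft ((stepN L)^[t] (0, false)).1 ((stepN L)^[t] (0, false)).2 =
      (nx (fun g => (look L g).2.1) (fun g => (look L g).2.2))^[t] 0 := by
    intro t
    induction t with
    | zero => rfl
    | succ t ih => rw [Function.iterate_succ_apply', Function.iterate_succ_apply', lft_stepN, ih]
  refine List.map_congr_left fun t ht => ?_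
  rw [iterN, foldl_const_iter, key, List.length_take, min_eq_left]
  simp only [List.length_cons]
  have := mem_idx.1 ht
  omega

section poly

variable {α : Type} [N487b59b3 α]

@[fun_prop] theorem p_look {L : α → List (ℕ × ℕ × Bool)} {g : α → ℕ} (hL : PolyT.Poly L)
    (hg : PolyT.Poly g) : PolyT.Poly (fun a => look (L a) (g a)) := by
  unfold look; fun_prop

@[fun_prop] theorem p_sum {l : α → List ℕ} (hl : PolyT.Poly l) :
    PolyT.Poly (fun a => (l a).sum) := hl.sum

@[fun_prop] theorem p_lft {g : α → ℕ} {o : α → Bool} (hg : PolyT.Poly g) (ho : PolyT.Poly o) :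
    PolyT.Poly (fun a => lft (g a) (o a)) := by
  have : PolyT.Poly (fun a => cond (o a) (0, g a + 1) (g a, 0)) := by fun_prop
  refine PT.congr this fun a => ?_
  change bitEncode (cond (o a) (0, g a + 1) (g a, 0)) =
    bitEncode ((lft (g a) (o a)).toNat, (-lft (g a) (o a)).toNat)
  cases o a
  · simp [lft]
  · simp only [lft, cond_true]
    congr 2 <;> omega

@[fun_prop] theorem p_iterN {L : α → List (ℕ × ℕ × Bool)} {l : α → List ℕ} (hL : PolyT.Poly L)
    (hl : PolyT.Poly l) : PolyT.Poly (fun a => iterN (L a) (l a)) := by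
  have hb : PolyT.Poly (fun a => ((L a).map fun e => e.2.1).sum + (l a).length) := by fun_prop
  have key : ∀ (L : List (ℕ × ℕ × Bool)) (t : ℕ),
      ((stepN L)^[t] (0, false)).1 ≤ (L.map fun e => e.2.1).sum + t := by
    intro L t
    induction t with
    | zero => simp
    | succ t ih =>
      rw [Function.iterate_succ_apply']
      generalize (stepN L)^[t] (0, false) = s at ih
      have : (look L s.1).2.1 ≤ (L.map fun e => e.2.1).sum + t := by
        rcases look_cases L s.1 with h | h
        · exact (List.single_le_sum (fun _ _ => Nat.zero_le _) _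
            (List.mem_map_of_mem (f := fun e : ℕ × ℕ × Bool => e.2.1) h.1)).trans
            (Nat.le_add_right _ _)
        · rw [h.2]; exact ih
      unfold stepN
      cases (!eqB (look L s.1).2.2 s.2) <;> cases eqB (look L s.1).2.1 0 <;> simp <;> omega
  refine PolyT.Poly.foldl (f := fun a s _ => stepN (L a) s) (by unfold stepN; fun_prop) hl
    (PolyT.Poly.const _) (((Bd.const 2).mul hb.bd).add (Bd.const 2)) fun a n => ?_
  rw [foldl_const_iter, length_enc_pair, enc_bool]
  have := length_enc_nat_mono ((key (L a) ((l a).take n).length).trans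
    (Nat.add_le_add_left (List.length_take_le' n (l a)) _))
  simp only [List.length_singleton]
  omega

@[fun_prop] theorem p_permOf {L : α → List (ℕ × ℕ × Bool)} {l : α → List ℕ} (hL : PolyT.Poly L)
    (hl : PolyT.Poly l) : PolyT.Poly (fun a => permOf (L a) (l a)) := by
  unfold permOf; fun_prop

end poly

/-- Crossing of two chords. -/
def crs (p q r s : ℕ) : Prop := (p < r ∧ r < q ∧ q < s) ∨ (r < p ∧ p < s ∧ s < q)

instance (p q r s : ℕ) : Decidable (crs p q r s) := by unfold crs; infer_instance

variable {C : Type} [DecidableEq C]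

/-- The matrix of a chord diagram. -/
def cm (pos : C → Bool → ℕ) (lv : C → Bool) (c d : C) : F2 :=
  if c = d then b2 (lv c) else
    if crs (pos c false) (pos c true) (pos d false) (pos d true) then 1 else 0

theorem cm_symm (pos : C → Bool → ℕ) (lv : C → Bool) (c d : C) : cm pos lv c d = cm pos lv d c := by
  unfold cm
  by_cases h : c = d
  · subst h; rfl
  · rw [if_neg h, if_neg (Ne.symm h)]
    exact if_congr or_comm rfl rfl

theorem cm_self (pos : C → Bool → ℕ) (lv : C → Bool) (c : C) : cm pos lv c c = b2 (lv c) :=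
  if_pos rfl

/-- Endpoints of the copies. -/
def endp (pos : C → Bool → ℕ) (lv : C → Bool) (m : C → ℕ) (B : ℕ) (u : C × ℕ) (a : Bool) : ℕ :=
  pos u.1 a * B + cond (a && lv u.1) (m u.1 - 1 - u.2) u.2

/-- The table of chords. -/
def table (cl : List C) (pos : C → Bool → ℕ) (lv : C → Bool) (mu : C → List ℕ) (B : ℕ) :
    List (ℕ × ℕ × Bool) :=
  cl.flatMap fun c => (idx (mu c)).flatMap fun i =>
    [(pos c false * B + i, pos c true * B + cond (lv c) ((mu c).length - 1 - i) i, lv c),
      (pos c true * B + cond (lv c) ((mu c).length - 1 - i) i, pos c false * B + i, lv c)]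

theorem mul_add_lt {x y i j B : ℕ} (hi : i < B) (h : x < y) : x * B + i < y * B + j := by
  have := Nat.mul_le_mul_right B (show x + 1 ≤ y from h)
  rw [Nat.add_mul] at this
  omega

theorem lt2_mul {x y i j B : ℕ} (hi : i < B) (hj : j < B) (h : x ≠ y) :
    lt2 (x * B + i) (y * B + j) = lt2 x y := by
  unfold lt2
  rcases lt_or_gt_of_ne h with h | h
  · rw [if_pos h, if_pos (mul_add_lt hi h)]
  · rw [if_neg (not_lt_of_gt h), if_neg (not_lt_of_gt (mul_add_lt hj h))]

theorem numOpt_cls (cl : List C) (pos : C → Bool → ℕ) (lv : C → Bool) (mu : C → List ℕ) (B : ℕ)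
    (u : List ℕ) {S : Finset C} (hS : ∀ c, c ∈ S ↔ c ∈ cl) {m : C → ℕ}
    (hm : ∀ c ∈ S, (mu c).length = m c) (hB : ∀ c ∈ S, m c ≤ B)
    (hlt : ∀ c ∈ S, pos c false < pos c true)
    (hinj : ∀ c ∈ S, ∀ d ∈ S, ∀ a b, pos c a = pos d b → c = d ∧ a = b)
    (hn : ∀ c ∈ S, (pos c true + 1) * B ≤ u.length) (hf : FE (cm pos lv) S m)
    (ho : ∀ c ∈ S, ∃ a ∈ S, ∃ b ∈ S, 0 < m a ∧ 0 < m b ∧ (a = c ∨ cm pos lv c a = 1) ∧
      (b = a ∨ cm pos lv a b = 1) ∧ cm pos lv b b = 1) :
    IsSignedPerm (permOf (table cl pos lv mu B) u) ∧ numOpt (permOf (table cl pos lv mu B) u) =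
      (∏ c ∈ S, (m c).factorial) * paths S (FE (cm pos lv) S) m 0 := by
  have hoff : ∀ v ∈ letters S m, ∀ a, cond (a && lv v.1) (m v.1 - 1 - v.2) v.2 < B := by
    intro v hv a
    obtain ⟨h1, h2⟩ := mem_letters.1 hv
    have := hB _ h1
    cases (a && lv v.1) <;> simp <;> omega
  have hT : ∀ e, e ∈ table cl pos lv mu B ↔ ∃ v ∈ letters S m, ∃ a,
      e = (endp pos lv m B v a, endp pos lv m B v (!a), lv v.1) := by
    intro e
    simp only [table, List.mem_flatMap, mem_idx, mem_letters, ← hS, List.mem_cons,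
      List.not_mem_nil, or_false, Prod.exists, Bool.exists_bool, endp, Bool.false_and,
      Bool.true_and, Bool.not_false, Bool.not_true, cond_false]
    constructor
    · rintro ⟨c, hc, i, hi, h⟩
      rw [hm c hc] at hi h
      exact ⟨c, i, ⟨hc, hi⟩, h⟩
    · rintro ⟨c, i, ⟨hc, hi⟩, h⟩
      rw [← hm c hc] at hi h
      exact ⟨c, hc, i, hi, h⟩
  have hi : ∀ v ∈ letters S m, ∀ w ∈ letters S m, ∀ a b,
      endp pos lv m B v a = endp pos lv m B w b → v = w ∧ a = b := by
    intro v hv w hw a b e
    have h1 := hoff v hv a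
    have h2 := hoff w hw b
    unfold endp at e
    have h3 : pos v.1 a = pos w.1 b := by
      rcases lt_trichotomy (pos v.1 a) (pos w.1 b) with h | h | h
      · exact absurd e (mul_add_lt h1 h).ne
      · exact h
      · exact absurd e (mul_add_lt h2 h).ne'
    obtain ⟨c, i⟩ := v
    obtain ⟨d, j⟩ := w
    obtain ⟨h4, h5⟩ := mem_letters.1 hv
    obtain ⟨h6, h7⟩ := mem_letters.1 hw
    obtain ⟨rfl, rfl⟩ := hinj c h4 d h6 a b h3
    simp only at e h5 h7
    refine ⟨Prod.ext rfl ?_, rfl⟩
    revert e
    cases (a && lv c) <;> simp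
    omega
  have hl : ∀ v ∈ letters S m, ∀ a, look (table cl pos lv mu B) (endp pos lv m B v a) =
      (endp pos lv m B v a, endp pos lv m B v (!a), lv v.1) := by
    intro v hv a
    rcases look_cases (table cl pos lv mu B) (endp pos lv m B v a) with h | h
    · obtain ⟨w, hw, b, e⟩ := (hT _).1 h.1
      have := h.2
      rw [e] at this ⊢
      obtain ⟨rfl, rfl⟩ := hi w hw v hv b a this
      rfl
    · exact absurd rfl (h.1 _ ((hT _).2 ⟨v, hv, a, rfl⟩))
  rw [permOf_eq, ← ch_letters (cm_symm pos lv)]
  refine numOpt_chords (en := endp pos lv m B) (lv := fun v => lv v.1) hi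
    (fun v hv a => by rw [hl v hv]) (fun v hv a => by rw [hl v hv]) (fun v hv a => ?_)
    (fun g hg => ?_) (LM_symm (cm_symm pos lv)) (fun v hv w hw => ?_)
    (ch_letters_pos (cm_symm pos lv) S m hf ho)
  · have h1 := hoff v hv a
    have h2 := hn _ (mem_letters.1 hv).1
    have h3 : pos v.1 a ≤ pos v.1 true := by
      cases a
      · exact (hlt _ (mem_letters.1 hv).1).le
      · exact le_rfl
    have := Nat.mul_le_mul_right B h3
    unfold endp
    rw [Nat.add_mul] at h2
    omega
  · rcases look_cases (table cl pos lv mu B) g with h | h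
    · obtain ⟨w, hw, b, e⟩ := (hT _).1 h.1
      have := h.2
      rw [e] at this
      exact absurd this (hg w hw b)
    · rw [h.2]; exact ⟨rfl, rfl⟩
  · obtain ⟨h1, h2⟩ := mem_letters.1 hv
    obtain ⟨h3, h4⟩ := mem_letters.1 hw
    unfold LM gm
    by_cases c : v.1 = w.1
    · rw [if_pos c, cm_self]
      by_cases c' : v.2 = w.2
      · rw [if_pos c', if_pos (Prod.ext c c')]; simp [b2]
      · rw [if_neg c', if_neg (fun h => c' (congrArg _ h))]
        unfold endp
        rw [lt2_mul (hoff v hv false) (hoff w hw true) (c ▸ (hlt _ h1).ne),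
          lt2_mul (hoff v hv true) (hoff w hw false) (c ▸ (hlt _ h1).ne'), ← c]
        have := hlt _ h1
        rw [← c] at h4
        unfold lt2
        cases lv v.1 <;> simp only [Bool.and_false, Bool.and_true, cond_true, cond_false] <;>
          split_ifs <;> first | omega | decide
    · rw [if_neg c, if_neg (fun h => c (congrArg _ h))]
      have n : ∀ a b, pos v.1 a ≠ pos w.1 b := fun a b e => c (hinj _ h1 _ h3 a b e).1
      unfold endp
      simp only [lt2_mul (hoff v hv _) (hoff w hw _) (n _ _)]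
      have a1 := n false false
      have a2 := n false true
      have a3 := n true false
      have a4 := n true true
      have a5 := hlt _ h1
      have a6 := hlt _ h3
      unfold cm crs lt2
      rw [if_neg c]
      split_ifs <;> first | omega | decide

end Pool.Agent.MP_f00251_lc.H81

end MrgPart3

-- marker of a merged file
example : 731051 + 224370 = 731051 + 224370 := rfl

end MrgPart1

-- marker of a merged file
example : 731051 + 224370 = 731051 + 224370 := rfl
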