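import Pool.Agent.MP_f00251_lc.H81.PermCls

/-!
The chord diagram of a program.
-/

set_option autoImplicit false
set_option linter.unusedSectionVars false
set_option linter.unusedVariables false

namespace Pool.Agent.MP_f00251_lc.H81

open Finset Pool.Agent.PolyT Pool.Agent.H82 N487b59b3

/-- Instructions. -/
abbrev Op : Type := Bool × Bool × ℕ

/-- Names of bundles of chords. -/
abbrev Cls : Type := ℕ × ℕ × ℕ

/-- Parity. -/
def md2 (h : ℕ) : ℕ := h % 2

/-- Contraction of an index. -/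
def dn (p i : ℕ) : ℕ := cond (ltB p i) (i - 1) i

/-- Source wire of an edge. -/
def src (o : Op) (i : ℕ) : ℕ := cond (!o.1 && o.2.1) (dn o.2.2 i) i

/-- Target wire of an edge. -/
def tgt (o : Op) (i : ℕ) : ℕ := cond o.1 (dn o.2.2 i) i

/-- Offset of an edge. -/
def off (o : Op) (i : ℕ) : ℕ := cond (eqB i (o.2.2 + 1)) 1 0

/-- The instruction number `h`. -/
def opAt (ops : List Op) (h : ℕ) : Op := ops.getD h (false, false, 0)

/-- Number of a cell. -/
def rho (w h i : ℕ) : ℕ := h * w + i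

/-- Left block of a cell. -/
def bF (w R h i : ℕ) : ℕ := cond (eqB (md2 h) 0) 0 (2 * (5 * R + 8)) + 6 + 5 * (R - 1 - rho w h i)

/-- Right block of a cell. -/
def bT (w R h i : ℕ) : ℕ :=
  cond (eqB (md2 h) 0) (5 * R + 8) (3 * (5 * R + 8)) + 6 + 5 * rho w h i

/-- Endpoints of the auxiliary chords. -/
def gad (R t : ℕ) : ℕ × ℕ :=
  [(0, 2 * (5 * R + 8)), (5 * R + 8, 3 * (5 * R + 8)), (2 * (5 * R + 8) + 2, 2 * (5 * R + 8) + 5),
    (2 * (5 * R + 8) + 4, 3 * (5 * R + 8) - 1), (2, 5), (4, 5 * R + 7),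
    (2 * (5 * R + 8) + 1, 2 * (5 * R + 8) + 3), (1, 3)].getD t (0, 0)

/-- Endpoints of the chords. -/
def pos (ops : List Op) (w R : ℕ) (c : Cls) (a : Bool) : ℕ :=
  cond (eqB c.1 0) (bF w R c.2.1 c.2.2 + cond a 4 0)
  (cond (eqB c.1 1) (bT w R c.2.1 c.2.2 + cond a 4 0)
  (cond (eqB c.1 2) (cond a (bT w R c.2.1 c.2.2) (bF w R c.2.1 c.2.2) + 1)
  (cond (eqB c.1 3) (cond (eqB a (eqB (md2 c.2.1) 0))
    (bF w R (c.2.1 + 1) (tgt (opAt ops c.2.1) c.2.2) + 3 - off (opAt ops c.2.1) c.2.2)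
    (bT w R c.2.1 (src (opAt ops c.2.1) c.2.2) + 2 + off (opAt ops c.2.1) c.2.2))
  (cond a (gad R (c.1 - 4)).2 (gad R (c.1 - 4)).1))))

/-- Loops. -/
def lv (ops : List Op) (c : Cls) : Bool :=
  ltB c.1 2 || ltB 9 c.1 || (eqB c.1 3 && !(opAt ops c.2.1).1 && !(opAt ops c.2.1).2.1 &&
    eqB c.2.2 (opAt ops c.2.1).2.2)

section poly

variable {α : Type} [N487b59b3 α]

@[fun_prop] theorem p_md2 {f : α → ℕ} (hf : PolyT.Poly f) : PolyT.Poly (fun a => md2 (f a)) :=
  PolyT.Poly.congr (f := fun a => f a - 2 * half (f a)) (by fun_prop) fun a => by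
    unfold md2 half; omega

@[fun_prop] theorem p_opAt {l : α → List Op} {f : α → ℕ} (hl : PolyT.Poly l)
    (hf : PolyT.Poly f) : PolyT.Poly (fun a => opAt (l a) (f a)) := by
  unfold opAt; fun_prop

@[fun_prop] theorem p_bF {w R h i : α → ℕ} (hw : PolyT.Poly w) (hR : PolyT.Poly R)
    (hh : PolyT.Poly h) (hi : PolyT.Poly i) :
    PolyT.Poly (fun a => bF (w a) (R a) (h a) (i a)) := by
  unfold bF rho; fun_prop

@[fun_prop] theorem p_bT {w R h i : α → ℕ} (hw : PolyT.Poly w) (hR : PolyT.Poly R)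
    (hh : PolyT.Poly h) (hi : PolyT.Poly i) :
    PolyT.Poly (fun a => bT (w a) (R a) (h a) (i a)) := by
  unfold bT rho; fun_prop

@[fun_prop] theorem p_gad {R t : α → ℕ} (hR : PolyT.Poly R) (ht : PolyT.Poly t) :
    PolyT.Poly (fun a => gad (R a) (t a)) := by
  unfold gad; fun_prop

@[fun_prop] theorem p_src {o : α → Op} {i : α → ℕ} (ho : PolyT.Poly o) (hi : PolyT.Poly i) :
    PolyT.Poly (fun a => src (o a) (i a)) := by
  unfold src dn; fun_prop

@[fun_prop] theorem p_tgt {o : α → Op} {i : α → ℕ} (ho : PolyT.Poly o) (hi : PolyT.Poly i) :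
    PolyT.Poly (fun a => tgt (o a) (i a)) := by
  unfold tgt dn; fun_prop

@[fun_prop] theorem p_pos {l : α → List Op} {w R : α → ℕ} {c : α → Cls} {s : α → Bool}
    (hl : PolyT.Poly l) (hw : PolyT.Poly w) (hR : PolyT.Poly R) (hc : PolyT.Poly c)
    (hs : PolyT.Poly s) : PolyT.Poly (fun a => pos (l a) (w a) (R a) (c a) (s a)) := by
  unfold pos off; fun_prop

@[fun_prop] theorem p_lv {l : α → List Op} {c : α → Cls} (hl : PolyT.Poly l) (hc : PolyT.Poly c) :
    PolyT.Poly (fun a => lv (l a) (c a)) := by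
  unfold lv; fun_prop

end poly

theorem rho_tri {w h h' i i' : ℕ} (hi : i < w) (hi' : i' < w) :
    (h < h' ∧ rho w h i < rho w h' i') ∨ (h = h' ∧ rho w h i + i' = rho w h' i' + i) ∨
      (h' < h ∧ rho w h' i' < rho w h i) := by
  unfold rho
  rcases lt_trichotomy h h' with e | e | e
  · exact Or.inl ⟨e, mul_add_lt hi e⟩
  · subst e; exact Or.inr (Or.inl ⟨rfl, by omega⟩)
  · exact Or.inr (Or.inr ⟨e, mul_add_lt hi' e⟩)

theorem b_spec {w T h i : ℕ} (hh : h ≤ T) (hi : i < w) :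
    rho w h i < (T + 1) * w ∧
    (h % 2 = 0 → bF w ((T + 1) * w) h i + 5 * rho w h i = 5 * ((T + 1) * w) + 1 ∧
      bT w ((T + 1) * w) h i = 5 * ((T + 1) * w) + 14 + 5 * rho w h i) ∧
    (h % 2 = 1 → bF w ((T + 1) * w) h i + 5 * rho w h i = 15 * ((T + 1) * w) + 17 ∧
      bT w ((T + 1) * w) h i = 15 * ((T + 1) * w) + 30 + 5 * rho w h i) := by
  have h1 : rho w h i < (T + 1) * w := by
    have := mul_add_lt (j := 0) hi (Nat.lt_succ_of_le hh)
    exact this
  refine ⟨h1, fun e => ?_, fun e => ?_⟩ <;> simp only [bF, bT, md2, eqB, e] <;> simp <;> omega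

theorem dn_spec (p i : ℕ) : (p < i ∧ dn p i + 1 = i) ∨ (i ≤ p ∧ dn p i = i) := by
  unfold dn ltB
  by_cases h : p < i <;> simp [h] <;> omega

theorem off_spec (o : Op) (i : ℕ) : (i = o.2.2 + 1 ∧ off o i = 1) ∨ (i ≠ o.2.2 + 1 ∧ off o i = 0) := by
  unfold off eqB
  by_cases h : i = o.2.2 + 1 <;> simp [h]

theorem src_le (o : Op) (i : ℕ) : src o i ≤ i := by
  have := dn_spec o.2.2 i
  unfold src
  cases (!o.1 && o.2.1) <;> simp <;> omega

theorem tgt_le (o : Op) (i : ℕ) : tgt o i ≤ i := by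
  have := dn_spec o.2.2 i
  unfold tgt
  cases o.1 <;> simp <;> omega

theorem src_tri (o : Op) (i j : ℕ) : (i < j → 2 * src o i + off o i < 2 * src o j + off o j) ∧
    (j < i → 2 * src o j + off o j < 2 * src o i + off o i) := by
  have := dn_spec o.2.2 i
  have := dn_spec o.2.2 j
  have := off_spec o i
  have := off_spec o j
  unfold src
  cases (!o.1 && o.2.1) <;> simp only [cond_true, cond_false] <;> omega

theorem tgt_tri (o : Op) (i j : ℕ) : (i < j → 2 * tgt o i + off o i < 2 * tgt o j + off o j) ∧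
    (j < i → 2 * tgt o j + off o j < 2 * tgt o i + off o i) := by
  have := dn_spec o.2.2 i
  have := dn_spec o.2.2 j
  have := off_spec o i
  have := off_spec o j
  unfold tgt
  cases o.1 <;> simp only [cond_true, cond_false] <;> omega

section

variable (ops : List Op) (w R : ℕ)

theorem pos0 (h i : ℕ) : pos ops w R (0, h, i) false = bF w R h i ∧
    pos ops w R (0, h, i) true = bF w R h i + 4 := ⟨rfl, rfl⟩

theorem pos1 (h i : ℕ) : pos ops w R (1, h, i) false = bT w R h i ∧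
    pos ops w R (1, h, i) true = bT w R h i + 4 := ⟨rfl, rfl⟩

theorem pos2 (h i : ℕ) : pos ops w R (2, h, i) false = bF w R h i + 1 ∧
    pos ops w R (2, h, i) true = bT w R h i + 1 := ⟨rfl, rfl⟩

theorem pos3 (h i : ℕ) :
    (h % 2 = 0 → pos ops w R (3, h, i) false =
      bT w R h (src (opAt ops h) i) + 2 + off (opAt ops h) i ∧
      pos ops w R (3, h, i) true = bF w R (h + 1) (tgt (opAt ops h) i) + 3 - off (opAt ops h) i) ∧
    (h % 2 = 1 → pos ops w R (3, h, i) true =
      bT w R h (src (opAt ops h) i) + 2 + off (opAt ops h) i ∧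
      pos ops w R (3, h, i) false =
        bF w R (h + 1) (tgt (opAt ops h) i) + 3 - off (opAt ops h) i) := by
  constructor <;> intro e <;> simp [pos, eqB, md2, e]

end

/-- The chords of the cells and of the edges. -/
def IsB (T w : ℕ) (c : Cls) : Prop :=
  c.2.2 < w ∧ ((c.1 ≤ 2 ∧ c.2.1 ≤ T) ∨ (c.1 = 3 ∧ c.2.1 < T))

/-- Kind of a chord. -/
def kd (c : Cls) : ℕ :=
  cond (ltB c.1 2) 0 (cond (eqB c.1 2) (1 + md2 c.2.1) (cond (eqB c.1 3) (3 + md2 c.2.1) 5))

theorem kd_spec (c : Cls) : (c.1 < 2 ∧ kd c = 0) ∨ (c.1 = 2 ∧ kd c = 1 + c.2.1 % 2) ∨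
    (c.1 = 3 ∧ kd c = 3 + c.2.1 % 2) ∨ (3 < c.1 ∧ kd c = 5) := by
  unfold kd ltB eqB md2
  by_cases h1 : c.1 < 2 <;> by_cases h2 : c.1 = 2 <;> by_cases h3 : c.1 = 3 <;>
    simp [h1, h2, h3] <;> omega

section

variable {ops : List Op} {w : ℕ}

theorem b_ev {w T h i : ℕ} (hh : h ≤ T) (hi : i < w) (e : h % 2 = 0) :
    rho w h i < (T + 1) * w ∧ bF w ((T + 1) * w) h i + 5 * rho w h i = 5 * ((T + 1) * w) + 1 ∧
      bT w ((T + 1) * w) h i = 5 * ((T + 1) * w) + 14 + 5 * rho w h i :=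
  ⟨(b_spec hh hi).1, (b_spec hh hi).2.1 e⟩

theorem b_od {w T h i : ℕ} (hh : h ≤ T) (hi : i < w) (e : h % 2 = 1) :
    rho w h i < (T + 1) * w ∧ bF w ((T + 1) * w) h i + 5 * rho w h i = 15 * ((T + 1) * w) + 17 ∧
      bT w ((T + 1) * w) h i = 15 * ((T + 1) * w) + 30 + 5 * rho w h i :=
  ⟨(b_spec hh hi).1, (b_spec hh hi).2.2 e⟩

/-- The zones that contain the endpoints. -/
theorem zone {c : Cls} (hc : IsB ops.length w c) :
    let R := (ops.length + 1) * w
    let x := pos ops w R c false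
    let y := pos ops w R c true
    x < y ∧ ((kd c = 0 ∧ ((6 ≤ x ∧ y ≤ 5 * R + 5) ∨ (5 * R + 14 ≤ x ∧ y ≤ 10 * R + 13) ∨
      (10 * R + 22 ≤ x ∧ y ≤ 15 * R + 21) ∨ (15 * R + 30 ≤ x ∧ y ≤ 20 * R + 29))) ∨
    (kd c = 1 ∧ 6 ≤ x ∧ x ≤ 5 * R + 5 ∧ 5 * R + 14 ≤ y ∧ y ≤ 10 * R + 13) ∨
    (kd c = 2 ∧ 10 * R + 22 ≤ x ∧ x ≤ 15 * R + 21 ∧ 15 * R + 30 ≤ y ∧ y ≤ 20 * R + 29) ∨
    (kd c = 3 ∧ 5 * R + 14 ≤ x ∧ x ≤ 10 * R + 13 ∧ 10 * R + 22 ≤ y ∧ y ≤ 15 * R + 21) ∨
    (kd c = 4 ∧ 6 ≤ x ∧ x ≤ 5 * R + 5 ∧ 15 * R + 30 ≤ y ∧ y ≤ 20 * R + 29)) := by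
  obtain ⟨t, h, i⟩ := c
  obtain ⟨hi, hc⟩ := hc
  simp only at hi hc ⊢
  rcases hc with ⟨h1, h2⟩ | ⟨rfl, h2⟩
  · rcases Nat.mod_two_eq_zero_or_one h with e | e
    · have := b_ev h2 hi e
      interval_cases t <;> simp only [pos0, pos1, pos2]
      · exact ⟨by omega, Or.inl ⟨rfl, Or.inl (by omega)⟩⟩
      · exact ⟨by omega, Or.inl ⟨rfl, Or.inr (Or.inl (by omega))⟩⟩
      · exact ⟨by omega, Or.inr (Or.inl ⟨by simp [kd, md2, ltB, eqB, e], by omega⟩)⟩
    · have := b_od h2 hi e
      interval_cases t <;> simp only [pos0, pos1, pos2]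
      · exact ⟨by omega, Or.inl ⟨rfl, Or.inr (Or.inr (Or.inl (by omega)))⟩⟩
      · exact ⟨by omega, Or.inl ⟨rfl, Or.inr (Or.inr (Or.inr (by omega)))⟩⟩
      · exact ⟨by omega, Or.inr (Or.inr (Or.inl ⟨by simp [kd, md2, ltB, eqB, e], by omega⟩))⟩
  · have l1 := (src_le (opAt ops h) i).trans_lt hi
    have l2 := (tgt_le (opAt ops h) i).trans_lt hi
    have o1 : off (opAt ops h) i ≤ 1 := by have := off_spec (opAt ops h) i; omega
    rcases Nat.mod_two_eq_zero_or_one h with e | e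
    · have := b_ev h2.le l1 e
      have := b_od (show h + 1 ≤ ops.length from h2) l2 (by omega)
      simp only [(pos3 ops w _ h i).1 e]
      exact ⟨by omega, Or.inr (Or.inr (Or.inr (Or.inl
        ⟨by simp [kd, md2, ltB, eqB, e], by omega⟩)))⟩
    · have := b_od h2.le l1 e
      have := b_ev (show h + 1 ≤ ops.length from h2) l2 (by omega)
      simp only [(pos3 ops w _ h i).2 e]
      exact ⟨by omega, Or.inr (Or.inr (Or.inr (Or.inr
        ⟨by simp [kd, md2, ltB, eqB, e], by omega⟩)))⟩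

/-- Neighbouring cell chords of a chord. -/
def nb (ops : List Op) (c : Cls) (s : Bool) : Cls :=
  cond (eqB c.1 2) (s.toNat, c.2.1, c.2.2) (cond s (1, c.2.1, src (opAt ops c.2.1) c.2.2)
    (0, c.2.1 + 1, tgt (opAt ops c.2.1) c.2.2))

theorem b_sep {w T h i h' i' : ℕ} (hh : h ≤ T) (hi : i < w) (hh' : h' ≤ T) (hi' : i' < w) :
    ((h = h' ∧ i = i' ∧ bF w ((T + 1) * w) h i = bF w ((T + 1) * w) h' i') ∨
      ((h ≠ h' ∨ i ≠ i') ∧ (bF w ((T + 1) * w) h i + 4 < bF w ((T + 1) * w) h' i' ∨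
      bF w ((T + 1) * w) h' i' + 4 < bF w ((T + 1) * w) h i))) ∧
    ((h = h' ∧ i = i' ∧ bT w ((T + 1) * w) h i = bT w ((T + 1) * w) h' i') ∨
      ((h ≠ h' ∨ i ≠ i') ∧ (bT w ((T + 1) * w) h i + 4 < bT w ((T + 1) * w) h' i' ∨
      bT w ((T + 1) * w) h' i' + 4 < bT w ((T + 1) * w) h i))) ∧
    (bF w ((T + 1) * w) h i + 4 < bT w ((T + 1) * w) h' i' ∨
      bT w ((T + 1) * w) h' i' + 4 < bF w ((T + 1) * w) h i) := by
  have r := rho_tri (h := h) (h' := h') hi hi'
  rcases Nat.mod_two_eq_zero_or_one h with e | e <;>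
    rcases Nat.mod_two_eq_zero_or_one h' with e' | e'
  · have := b_ev hh hi e; have := b_ev hh' hi' e'; refine ⟨?_, ?_, ?_⟩ <;> omega
  · have := b_ev hh hi e; have := b_od hh' hi' e'; refine ⟨?_, ?_, ?_⟩ <;> omega
  · have := b_od hh hi e; have := b_ev hh' hi' e'; refine ⟨?_, ?_, ?_⟩ <;> omega
  · have := b_od hh hi e; have := b_od hh' hi' e'; refine ⟨?_, ?_, ?_⟩ <;> omega

theorem pos3' (R h i : ℕ) : ∃ a, pos ops w R (3, h, i) a =
      bT w R h (src (opAt ops h) i) + 2 + off (opAt ops h) i ∧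
      pos ops w R (3, h, i) (!a) = bF w R (h + 1) (tgt (opAt ops h) i) + 3 - off (opAt ops h) i := by
  rcases Nat.mod_two_eq_zero_or_one h with e | e
  · exact ⟨false, (pos3 ops w R h i).1 e⟩
  · exact ⟨true, (pos3 ops w R h i).2 e⟩

theorem pos_ne {c d : Cls} (hc : IsB ops.length w c) (hd : IsB ops.length w d) (hne : c ≠ d)
    (ht : c.1 ≤ d.1) (a b : Bool) :
    pos ops w ((ops.length + 1) * w) c a ≠ pos ops w ((ops.length + 1) * w) d b := by
  obtain ⟨t, h, i⟩ := c
  obtain ⟨t', h', i'⟩ := d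
  obtain ⟨hi, hc⟩ := hc
  obtain ⟨hi', hd⟩ := hd
  simp only [ne_eq, Prod.mk.injEq] at hi hc hi' hd hne ht ⊢
  rcases hc with ⟨h1, h2⟩ | ⟨rfl, h2⟩
  · rcases hd with ⟨h3, h4⟩ | ⟨rfl, h4⟩
    · obtain ⟨s1, s2, s3⟩ := b_sep h2 hi h4 hi'
      have s4 := (b_sep h4 hi' h2 hi).2.2
      interval_cases t <;> interval_cases t' <;> cases a <;> cases b <;>
        simp only [pos0, pos1, pos2] <;> omega
    · have o1 : off (opAt ops h') i' ≤ 1 := by have := off_spec (opAt ops h') i'; omega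
      have l1 := (src_le (opAt ops h') i').trans_lt hi'
      have l2 := (tgt_le (opAt ops h') i').trans_lt hi'
      obtain ⟨-, s2, s3⟩ := b_sep h2 hi h4.le l1
      have s1 := (b_sep h2 hi (show h' + 1 ≤ ops.length from h4) l2).1
      have s4 := (b_sep (show h' + 1 ≤ ops.length from h4) l2 h2 hi).2.2
      obtain ⟨z, q1, q2⟩ := pos3' (ops := ops) (w := w) ((ops.length + 1) * w) h' i'
      by_cases e : b = z
      · rw [e, q1]
        interval_cases t <;> cases a <;> simp only [pos0, pos1, pos2] <;> omega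
      · rw [Bool.eq_not.2 e, q2]
        interval_cases t <;> cases a <;> simp only [pos0, pos1, pos2] <;> omega
  · obtain ⟨rfl, h4⟩ : t' = 3 ∧ h' < ops.length := by omega
    have o1 : off (opAt ops h') i' ≤ 1 := by have := off_spec (opAt ops h') i'; omega
    have o2 : off (opAt ops h) i ≤ 1 := by have := off_spec (opAt ops h) i; omega
    have l1 := (src_le (opAt ops h') i').trans_lt hi'
    have l2 := (tgt_le (opAt ops h') i').trans_lt hi'
    have l3 := (src_le (opAt ops h) i).trans_lt hi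
    have l4 := (tgt_le (opAt ops h) i).trans_lt hi
    obtain ⟨z, q1, q2⟩ := pos3' (ops := ops) (w := w) ((ops.length + 1) * w) h' i'
    obtain ⟨y, p1, p2⟩ := pos3' (ops := ops) (w := w) ((ops.length + 1) * w) h i
    have t1 : h = h' → src (opAt ops h) i = src (opAt ops h') i' →
        off (opAt ops h) i ≠ off (opAt ops h') i' := by
      rintro rfl; have := src_tri (opAt ops h) i i'; omega
    have t2 : h = h' → tgt (opAt ops h) i = tgt (opAt ops h') i' →
        off (opAt ops h) i ≠ off (opAt ops h') i' := by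
      rintro rfl; have := tgt_tri (opAt ops h) i i'; omega
    by_cases e : b = z <;> by_cases e' : a = y
    · rw [e, e', q1, p1]
      have := (b_sep h2.le l3 h4.le l1).2.1
      omega
    · rw [e, Bool.eq_not.2 e', q1, p2]
      have := (b_sep (show h + 1 ≤ ops.length from h2) l4 h4.le l1).2.2
      omega
    · rw [Bool.eq_not.2 e, e', q2, p1]
      have := (b_sep (show h' + 1 ≤ ops.length from h4) l2 h2.le l3).2.2
      omega
    · rw [Bool.eq_not.2 e, Bool.eq_not.2 e', q2, p2]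
      have := (b_sep (show h + 1 ≤ ops.length from h2) l4 (show h' + 1 ≤ ops.length from h4) l2).1
      omega

theorem crs_block {x y z : ℕ} : crs x (x + 4) y z → (x < y ∧ y < x + 4) ∨ (x < z ∧ z < x + 4) := by
  unfold crs; omega

theorem crs_EE {t h i t' h' i' : ℕ} (ht : t < 2) (ht' : t' < 2) (hh : h ≤ ops.length) (hi : i < w)
    (hh' : h' ≤ ops.length) (hi' : i' < w) :
    ¬ crs (pos ops w ((ops.length + 1) * w) (t, h, i) false)
      (pos ops w ((ops.length + 1) * w) (t, h, i) true)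
      (pos ops w ((ops.length + 1) * w) (t', h', i') false)
      (pos ops w ((ops.length + 1) * w) (t', h', i') true) := by
  obtain ⟨s1, s2, s3⟩ := b_sep hh hi hh' hi'
  have s4 := (b_sep hh' hi' hh hi).2.2
  interval_cases t <;> interval_cases t' <;> simp only [pos0, pos1, crs] <;> omega

theorem crs_ET {t h i h' i' : ℕ} (ht : t < 2) (hh : h ≤ ops.length) (hi : i < w)
    (hh' : h' ≤ ops.length) (hi' : i' < w) :
    crs (pos ops w ((ops.length + 1) * w) (t, h, i) false)
      (pos ops w ((ops.length + 1) * w) (t, h, i) true)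
      (pos ops w ((ops.length + 1) * w) (2, h', i') false)
      (pos ops w ((ops.length + 1) * w) (2, h', i') true) ↔ h = h' ∧ i = i' := by
  obtain ⟨s1, s2, s3⟩ := b_sep hh hi hh' hi'
  have s4 := (b_sep hh' hi' hh hi).2.2
  have s5 : bF w ((ops.length + 1) * w) h' i' + 4 < bT w ((ops.length + 1) * w) h' i' := by
    have := b_spec hh' hi'; omega
  interval_cases t <;> simp only [pos0, pos1, pos2, crs] <;> omega

theorem crs_EK {t h i h' i' : ℕ} (ht : t < 2) (hh : h ≤ ops.length) (hi : i < w)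
    (hh' : h' < ops.length) (hi' : i' < w) :
    crs (pos ops w ((ops.length + 1) * w) (t, h, i) false)
      (pos ops w ((ops.length + 1) * w) (t, h, i) true)
      (pos ops w ((ops.length + 1) * w) (3, h', i') false)
      (pos ops w ((ops.length + 1) * w) (3, h', i') true) ↔
      (t = 0 ∧ h = h' + 1 ∧ i = tgt (opAt ops h') i') ∨
      (t = 1 ∧ h = h' ∧ i = src (opAt ops h') i') := by
  have o1 : off (opAt ops h') i' ≤ 1 := by have := off_spec (opAt ops h') i'; omega
  have l1 := (src_le (opAt ops h') i').trans_lt hi'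
  have l2 := (tgt_le (opAt ops h') i').trans_lt hi'
  have z := (zone (ops := ops) (w := w) (c := (3, h', i')) ⟨hi', Or.inr ⟨rfl, hh'⟩⟩).1
  have s0 := (b_sep (show h' + 1 ≤ ops.length from hh') l2 hh'.le l1).2.2
  obtain ⟨y, q1, q2⟩ := pos3' (ops := ops) (w := w) ((ops.length + 1) * w) h' i'
  interval_cases t
  · have s3 := (b_sep hh hi hh'.le l1).2.2
    have s1 := (b_sep hh hi (show h' + 1 ≤ ops.length from hh') l2).1
    cases y <;> simp only [Bool.not_true, Bool.not_false] at q2 <;> rw [q1, q2] at z ⊢ <;>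
      simp only [pos0, crs, true_and] <;> omega
  · have s2 := (b_sep hh hi hh'.le l1).2.1
    have s4 := (b_sep (show h' + 1 ≤ ops.length from hh') l2 hh hi).2.2
    cases y <;> simp only [Bool.not_true, Bool.not_false] at q2 <;> rw [q1, q2] at z ⊢ <;>
      simp only [pos1, crs, true_and] <;> omega

theorem crs_TT {h i h' i' : ℕ} (hh : h ≤ ops.length) (hi : i < w)
    (hh' : h' ≤ ops.length) (hi' : i' < w) :
    ¬ crs (pos ops w ((ops.length + 1) * w) (2, h, i) false)
      (pos ops w ((ops.length + 1) * w) (2, h, i) true)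
      (pos ops w ((ops.length + 1) * w) (2, h', i') false)
      (pos ops w ((ops.length + 1) * w) (2, h', i') true) := by
  simp only [pos2, crs]
  rcases Nat.mod_two_eq_zero_or_one h with e | e <;>
    rcases Nat.mod_two_eq_zero_or_one h' with e' | e'
  · have := b_ev hh hi e; have := b_ev hh' hi' e'; omega
  · have := b_ev hh hi e; have := b_od hh' hi' e'; omega
  · have := b_od hh hi e; have := b_ev hh' hi' e'; omega
  · have := b_od hh hi e; have := b_od hh' hi' e'; omega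

theorem crs_KK {h i h' i' : ℕ} (hh : h < ops.length) (hi : i < w)
    (hh' : h' < ops.length) (hi' : i' < w) :
    ¬ crs (pos ops w ((ops.length + 1) * w) (3, h, i) false)
      (pos ops w ((ops.length + 1) * w) (3, h, i) true)
      (pos ops w ((ops.length + 1) * w) (3, h', i') false)
      (pos ops w ((ops.length + 1) * w) (3, h', i') true) := by
  have o1 : off (opAt ops h') i' ≤ 1 := by have := off_spec (opAt ops h') i'; omega
  have o2 : off (opAt ops h) i ≤ 1 := by have := off_spec (opAt ops h) i; omega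
  have l1 := (src_le (opAt ops h') i').trans_lt hi'
  have l2 := (tgt_le (opAt ops h') i').trans_lt hi'
  have l3 := (src_le (opAt ops h) i).trans_lt hi
  have l4 := (tgt_le (opAt ops h) i).trans_lt hi
  have key : (5 * rho w h (src (opAt ops h) i) + off (opAt ops h) i ≤
      5 * rho w h' (src (opAt ops h') i') + off (opAt ops h') i' ∧
      5 * rho w (h + 1) (tgt (opAt ops h) i) + off (opAt ops h) i ≤
      5 * rho w (h' + 1) (tgt (opAt ops h') i') + off (opAt ops h') i') ∨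
      (5 * rho w h' (src (opAt ops h') i') + off (opAt ops h') i' ≤
      5 * rho w h (src (opAt ops h) i) + off (opAt ops h) i ∧
      5 * rho w (h' + 1) (tgt (opAt ops h') i') + off (opAt ops h') i' ≤
      5 * rho w (h + 1) (tgt (opAt ops h) i) + off (opAt ops h) i) := by
    have r1 := rho_tri (h := h) (h' := h') l3 l1
    have r2 := rho_tri (h := h + 1) (h' := h' + 1) l4 l2
    by_cases e : h = h'
    · subst e
      have := src_tri (opAt ops h) i i'
      have := tgt_tri (opAt ops h) i i'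
      rcases lt_trichotomy i i' with c | rfl | c
      · left; omega
      · left; omega
      · right; omega
    · omega
  rcases Nat.mod_two_eq_zero_or_one h with e | e <;>
    rcases Nat.mod_two_eq_zero_or_one h' with e' | e'
  · have := b_ev hh.le l3 e; have := b_od (show h + 1 ≤ ops.length from hh) l4 (by omega)
    have := b_ev hh'.le l1 e'; have := b_od (show h' + 1 ≤ ops.length from hh') l2 (by omega)
    simp only [(pos3 ops w _ h i).1 e, (pos3 ops w _ h' i').1 e', crs]; omega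
  · have := b_ev hh.le l3 e; have := b_od (show h + 1 ≤ ops.length from hh) l4 (by omega)
    have := b_od hh'.le l1 e'; have := b_ev (show h' + 1 ≤ ops.length from hh') l2 (by omega)
    simp only [(pos3 ops w _ h i).1 e, (pos3 ops w _ h' i').2 e', crs]; omega
  · have := b_od hh.le l3 e; have := b_ev (show h + 1 ≤ ops.length from hh) l4 (by omega)
    have := b_ev hh'.le l1 e'; have := b_od (show h' + 1 ≤ ops.length from hh') l2 (by omega)
    simp only [(pos3 ops w _ h i).2 e, (pos3 ops w _ h' i').1 e', crs]; omega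
  · have := b_od hh.le l3 e; have := b_ev (show h + 1 ≤ ops.length from hh) l4 (by omega)
    have := b_od hh'.le l1 e'; have := b_ev (show h' + 1 ≤ ops.length from hh') l2 (by omega)
    simp only [(pos3 ops w _ h i).2 e, (pos3 ops w _ h' i').2 e', crs]; omega

end

end Pool.Agent.MP_f00251_lc.H81
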